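import Pool.Agent.Helper38.AS.Defs

/-!
# AS-01: corners and the rotation of a triangle

`rot d = (tip d, d.2 + 2)`.  The triangle on the left of `d` has the vertices `d.1`, `tip d`, `third d`; `rot` goes to the next side (see `obrot` in `Helper98/LC3/P/Orbit.lean`,
`isCorner_rot` in `Helper98/LC/B/Dart.lean`, and the field `z_rot` of `Net`).
* `eopp_eq`: `eopp c d = prev c (rev (es c d))`, `rev d' = (tip d', d'.2 + 3)`, and `prev c (x, k) = (x, k - 1)` if `c (x + dir (k - 1)) ≠ c x`; here `x = tip d'`, `x + dir (d'.2 + 2) = third d'`, `IsCorner c d'`.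
* `es_eopp`: `eopp (eopp d) = d` and `eopp_eq` for `eopp d`: `rot (es (eopp d)) = d`; apply `rot` twice, `rot3`.
* `enb_third`: `next c d = (d.1, d.2 + 1)` (`next_corner`).
* `tip_es`: `eopp_corner` (`c (eopp c d).1 = enb c d`) and `eopp_eq` (`(rot d').1 = tip d'`).
-/

namespace Pool.Agent.Helper38.AS

open Finset Real Pool.Agent.Helper98.LC
open Pool.Agent.Helper98.LC3 (c0 et0 Face41 HH CoConn GMin)

variable {ι : Type} [DecidableEq ι] {c : V → ι} {o : ι} {n : ℕ}

private theorem cdir2 (k : Fin 6) : dir k + dir (k + 2) = dir (k + 1) := by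
  revert k; decide

private theorem cdir3 (k : Fin 6) : dir k + dir (k + 2 + 1) = 0 := by
  revert k; decide

theorem tip_rot (d : V × Fin 6) : tip (rot d) = third d := by
  unfold tip rot third tip
  simp only
  rw [add_assoc, cdir2]

theorem third_rot (d : V × Fin 6) : third (rot d) = d.1 := by
  unfold third rot tip
  simp only
  rw [add_assoc, cdir3, add_zero]

theorem rot3 (d : V × Fin 6) : rot (rot (rot d)) = d := by
  have h1 : (rot (rot (rot d))).1 = d.1 := by
    show tip (rot (rot d)) = d.1
    rw [tip_rot, third_rot]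
  have h2 : (rot (rot (rot d))).2 = d.2 := by
    show d.2 + 2 + 2 + 2 = d.2
    generalize d.2 = k
    revert k
    decide
  exact Prod.ext h1 h2

theorem rot_corner {d : V × Fin 6} (hd : IsCorner c d) : IsCorner c (rot d) :=
  (isCorner_rot c d).2 hd

theorem zl_rot (G : Net) (d : V × Fin 6) : G.zl (rot d) = G.zl d :=
  G.z_rot d.1 d.2

theorem enb_third {d : V × Fin 6} (hd : IsCorner c d) : enb c d = c (third d) := by
  unfold enb
  rw [next_corner c hd]
  rfl

theorem eopp_eq (h : OutBox c o n) {d : V × Fin 6} (hd : IsCorner c d) :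
    eopp c d = rot (es c d) := by
  have hc := (emul_spec h hd).2.1
  have e1 : (rev (es c d)).1 + dir ((rev (es c d)).2 - 1) = third (es c d) := by
    rw [← tip_rot]
    show (es c d).1 + dir (es c d).2 + dir ((es c d).2 + 3 - 1) =
      (es c d).1 + dir (es c d).2 + dir ((es c d).2 + 2)
    congr 2
    generalize (es c d).2 = k
    revert k
    decide
  have e2 : c (rev (es c d)).1 = c (tip (es c d)) := rfl
  unfold eopp prev
  rw [e1, e2, if_neg hc.2.2]
  refine Prod.ext rfl ?_
  show (es c d).2 + 3 - 1 = (es c d).2 + 2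
  generalize (es c d).2 = k
  revert k
  decide

theorem es_eopp (h : OutBox c o n) {d : V × Fin 6} (hd : IsCorner c d) :
    es c (eopp c d) = rot (rot d) := by
  have h1 := eopp_eq h (eopp_corner h hd).1
  rw [eopp_eopp h hd] at h1
  conv_rhs => rw [h1]
  rw [rot3]

theorem tip_es (h : OutBox c o n) {d : V × Fin 6} (hd : IsCorner c d) :
    c (tip (es c d)) = enb c d := by
  rw [← (eopp_corner h hd).2.1, eopp_eq h hd]
  rfl

/-- the previous corner -/
theorem exists_pred (h : OutBox c o n) {i : ι} {d : V × Fin 6} (hd : d ∈ corners c n i) :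
    ∃ p ∈ corners c n i, es c p = d := by
  obtain ⟨p, hp, he⟩ := (es_bij h i).surjOn hd
  exact ⟨p, hp, he⟩

end Pool.Agent.Helper38.AS
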