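import Pool.Agent.Helper38.AS.Sum

/-!
# AS-10: numbers and lengths

* `TS_len`: `TS i`, `d` from `Five`: `1 ≤ 4 * lam3 (eopp d) + 10^6 * dfi i`: if `locS_one` applies: clear.  Otherwise (`locS_two`) `sLen`: `dfi ≥ 1/10000` if `‖D'‖ < 1`, `lam3 (eopp d) = ‖D'‖`
  (`ar i < 2`, `enb (eopp d) = i`).
* `count_TS`: sum over the classes of type `S` (`Five.Oeq`, `sum_outer`-like: `e ↦ eopp e` maps the outer edges of the classes to the corners of `o`; `lam3 ≥ 0`).
* `len_le`: `Lo = ∑_i ∑_{Oi i} elen` (`sum_outer`, `elen_eopp`).  `TS i`: `elen ≤ 3.1 ≤ 3.1 (4 lam3 + 10^6 dfi)`; otherwise `locN`: `∑_{Oi} elen ≤ 200000 dfi`.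
* `TT_le`: `TT e ≠ 0` implies `TS (c (third e))`, and the wall is the edge `rot (rot e)` with `elen ≤ 3` (`cap_in`), so `‖TT e‖ ≤ 3 et0 ≤ .16`; number of `e` with `TT e ≠ 0` `≤` number of classes of type `S`
  (`e ↦ c (third e) = enb e` is injective on these `e`: `eopp e` is the only outer edge).
-/

namespace Pool.Agent.Helper38.AS

open Finset Real Pool.Agent.Helper98.LC
open Pool.Agent.Helper98.LC3 (c0 et0 Face41 HH CoConn GMin)

variable {ι : Type} [DecidableEq ι] {c : V → ι} {o : ι} {n : ℕ}

private theorem ct_et0 : 0.051328 < et0 ∧ et0 < 0.051330 := Pool.Agent.Helper98.LC3.et0_num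

private theorem ct_elen (G : Net) (c : V → ι) (d : V × Fin 6) : 0 ≤ elen G c d := by
  unfold elen
  exact sum_nonneg fun j _ => w_nonneg G _

theorem lam3_nonneg (G : Net) (c : V → ι) (o : ι) (n : ℕ) (e : V × Fin 6) :
    0 ≤ lam3 G c o n e := by
  unfold lam3
  split
  · exact norm_nonneg _
  · exact ct_elen G c e

private theorem ct_NC [Fintype ι] {G : Net} {i : ι} (h : TS G c o n i) :
    i ≠ o ∧ ∃ x, c x = i := by
  refine ⟨h.1, ?_⟩
  have h5 : (corners c n i).Nonempty := by
    rw [← Finset.card_pos, h.2.1]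
    norm_num
  obtain ⟨d, hd⟩ := h5
  exact ⟨d.1, (mem_filter.1 hd).2.2⟩

private theorem ct_num {u N x : ℝ} (hu : 0 ≤ u) (hN0 : 0 ≤ N) (hx : x < 1 / 4)
    (hN : N ≤ x + (1 + 2 * et0) * u) : 1 ≤ 2000 * (u ^ 2 + (N - √3) ^ 2) := by
  have he := ct_et0.2
  have h3 : (1.7 : ℝ) < √3 := by
    rw [Real.lt_sqrt (by norm_num)]
    norm_num
  by_cases h : 1 / 2 ≤ u
  · nlinarith [sq_nonneg (N - √3)]
  · rw [not_le] at h
    have h1 : N ≤ 1 := by nlinarith
    have h2 : 0.7 ≤ √3 - N := by linarith
    nlinarith [sq_nonneg u]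

theorem TS_len [Fintype ι] {G : Net} (hg : Good G c o n) {i : ι} (h : TS G c o n i)
    {d : V × Fin 6} (hd : Five G c o n i d) :
    1 ≤ 4 * lam3 G c o n (eopp c d) + 10 ^ 6 * dfi G c o n i := by
  have hl := lam3_nonneg G c o n (eopp c d)
  by_cases h12 : TS G c o n (enb c (es c d)) ∧ TS G c o n (enb c ((es c)^[4] d))
  · obtain ⟨h1, h2, h3⟩ := locS_two hg h hd h12.1 h12.2
    have hdc : d ∈ corners c n i := hd.mem 0
    have hdm := (mem_corners hg.out i d).1 hdc
    have henb : enb c (eopp c d) = i := by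
      rw [(eopp_corner hg.out hdm.1).2.2.1, hdm.2]
    have hs := sL2 hd.face
    rw [show (es c)^[2] d = es c (es c d) from rfl] at hs h2 h3
    set p := (es c)^[4] d with hp
    set D := G.zl (es c d) - G.zl d with hD
    set s1 := G.zl (es c (es c d)) - G.zl (es c d) with hs1
    have hlam : lam3 G c o n (eopp c d) =
        ‖D - (et0 : ℂ) * s1 - (et0 : ℂ) * (G.zl d - G.zl p)‖ := by
      unfold lam3
      rw [henb, if_pos h.2.2.2, h1, h2, ← norm_neg]
      congr 1
      rw [hD, hs1]
      ring
    rw [hlam]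
    by_cases hx : ‖D - (et0 : ℂ) * s1 - (et0 : ℂ) * (G.zl d - G.zl p)‖ < 1
    · have hq := sLen hd.face (by
        rw [show (es c)^[2] d = es c (es c d) from rfl]
        exact hx)
      rw [show (es c)^[2] d = es c (es c d) from rfl] at hq
      have hdf : 1 / 10000 ≤ dfi G c o n i := by
        rw [h3]
        linarith
      have h6 := norm_nonneg (D - (et0 : ℂ) * s1 - (et0 : ℂ) * (G.zl d - G.zl p))
      linarith
    · rw [not_lt] at hx
      have hdf : 0 ≤ dfi G c o n i := by
        have h6 : (0 : ℝ) ≤ ‖(s1 + (G.zl d - G.zl p)) / 2‖ ^ 2 +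
          (‖D + (s1 + (G.zl d - G.zl p)) / 2‖ - √3) ^ 2 := by positivity
        rw [h3]
        linarith
      linarith
  · have h1 := locS_one hg h hd h12
    linarith

open Classical in
theorem count_TS [Fintype ι] {G : Net} (hg : Good G c o n) :
    (((univ : Finset ι).filter fun i => TS G c o n i).card : ℝ) ≤
      4 * La G c o n + 10 ^ 6 * SD G c o n := by
  have h1 : (((univ : Finset ι).filter fun i => TS G c o n i).card : ℝ) =
      ∑ i ∈ univ.filter (fun i => TS G c o n i), (1 : ℝ) := by
    rw [sum_const, nsmul_eq_mul, mul_one]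
  have h2 : ∀ i ∈ univ.filter (fun i => TS G c o n i), (1 : ℝ) ≤
      4 * ∑ d ∈ Oi c o n i, lam3 G c o n (eopp c d) + 10 ^ 6 * dfi G c o n i := by
    intro i hi
    have hT := (mem_filter.1 hi).2
    obtain ⟨d, hd⟩ := five hg hT
    rw [hd.Oeq, sum_singleton]
    exact TS_len hg hT hd
  have h3 : ∑ i ∈ univ.filter (fun i => TS G c o n i),
      ∑ d ∈ Oi c o n i, lam3 G c o n (eopp c d) ≤ La G c o n := by
    have h4 := sum_outer hg.out (fun e => lam3 G c o n e)
    have h5 : La G c o n = ∑ i ∈ univ.filter (fun i => i ≠ o),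
        ∑ d ∈ Oi c o n i, lam3 G c o n (eopp c d) := h4.symm
    rw [h5]
    refine sum_le_sum_of_subset_of_nonneg ?_ fun i _ _ =>
      sum_nonneg fun d _ => lam3_nonneg G c o n _
    intro i hi
    exact mem_filter.2 ⟨mem_univ _, (mem_filter.1 hi).2.1⟩
  have h6 : ∑ i ∈ univ.filter (fun i => TS G c o n i), dfi G c o n i ≤ SD G c o n := by
    unfold SD NC
    refine sum_le_sum_of_subset_of_nonneg ?_ fun i hi _ => ?_
    · intro i hi
      exact mem_filter.2 ⟨mem_univ _, ct_NC (mem_filter.1 hi).2⟩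
    · have h7 := (mem_filter.1 hi).2
      exact dfi_nonneg hg h7.1 h7.2
  rw [h1]
  refine (sum_le_sum h2).trans ?_
  rw [sum_add_distrib, ← mul_sum, ← mul_sum]
  linarith

theorem len_le [Fintype ι] {G : Net} (hg : Good G c o n) :
    Lo G c o n ≤ 13 * La G c o n + 10 ^ 7 * SD G c o n := by
  classical
  have h1 : Lo G c o n = ∑ i ∈ univ.filter (fun i => i ≠ o), ∑ d ∈ Oi c o n i, elen G c d := by
    have h2 := sum_outer hg.out (fun e => elen G c e)
    have h3 : Lo G c o n = ∑ i ∈ univ.filter (fun i => i ≠ o),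
        ∑ d ∈ Oi c o n i, elen G c (eopp c d) := h2.symm
    rw [h3]
    refine sum_congr rfl fun i _ => sum_congr rfl fun d hd => ?_
    have hd' := (mem_corners hg.out i d).1 (mem_filter.1 hd).1
    exact elen_eopp G hg.out hd'.1
  have h5 : La G c o n = ∑ i ∈ univ.filter (fun i => i ≠ o),
      ∑ d ∈ Oi c o n i, lam3 G c o n (eopp c d) :=
    (sum_outer hg.out (fun e => lam3 G c o n e)).symm
  have h6 : SD G c o n = ∑ i ∈ univ.filter (fun i => i ≠ o),
      if ∃ x, c x = i then dfi G c o n i else 0 := by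
    unfold SD NC
    rw [← sum_filter, filter_filter]
  rw [h1, h5, h6, mul_sum, mul_sum, ← sum_add_distrib]
  refine sum_le_sum fun i hi => ?_
  have hi' : i ≠ o := (mem_filter.1 hi).2
  have hl0 : 0 ≤ ∑ d ∈ Oi c o n i, lam3 G c o n (eopp c d) :=
    sum_nonneg fun d _ => lam3_nonneg G c o n _
  by_cases hx : ∃ x, c x = i
  · rw [if_pos hx]
    have hdf := dfi_nonneg hg hi' hx
    by_cases hT : TS G c o n i
    · obtain ⟨d, hd⟩ := five hg hT
      have h7 := TS_len hg hT hd
      have h8 := hg.cap_sum i hi'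
      have h9 : min 1 (ar G c n i) ≤ 1 := min_le_left _ _
      have h10 := hT.2.2.2
      rw [hd.Oeq, sum_singleton] at h8 ⊢
      rw [sum_singleton]
      have h11 := lam3_nonneg G c o n (eopp c d)
      linarith
    · by_cases hO : 1 ≤ (Oi c o n i).card
      · have h7 := locN hg hi' hx hT hO
        have h8 : (0 : ℝ) ≤ ((corners c n i).card : ℝ) := Nat.cast_nonneg _
        linarith
      · have h7 : Oi c o n i = ∅ := by
          rw [← Finset.card_eq_zero]
          omega
        rw [h7, sum_empty, sum_empty]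
        linarith
  · rw [if_neg hx]
    have h7 : Oi c o n i = ∅ := by
      rw [Finset.eq_empty_iff_forall_notMem]
      intro d hd
      exact hx ⟨d.1, ((mem_corners hg.out i d).1 (mem_filter.1 hd).1).2⟩
    rw [h7, sum_empty, sum_empty]
    norm_num

theorem TT_norm [Fintype ι] {G : Net} (hg : Good G c o n) {e : V × Fin 6}
    (he : e ∈ corners c n o) : ‖TT G c o n e‖ ≤ 0.16 := by
  have he' := (mem_corners hg.out o e).1 he
  unfold TT
  split
  · rename_i hTS
    have hw : IsCorner c (rot (rot e)) := rot_corner (rot_corner he'.1)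
    have hw1 : (rot (rot e)).1 = third e := tip_rot e
    have hwm : rot (rot e) ∈ corners c n (c (third e)) :=
      (mem_corners hg.out _ _).2 ⟨hw, by rw [hw1]⟩
    have hz : G.zl (rot (rot e)) = G.zl e := by rw [zl_rot, zl_rot]
    have hen : enb c (rot (rot e)) = c (tip e) := by
      rw [enb_third hw, third_rot]
      rfl
    have hcap := hg.cap_in _ hTS.2.1 _ hwm (by rw [hen]; exact hTS.1.1)
    have hch := (faceFacts G hg.out hg.loop hTS.2.1).ch_le _ hwm
    have h9 : min 1 (ar G c n (c (third e))) ≤ 1 := min_le_left _ _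
    have hn : ‖G.zl (es c (rot (rot e))) - G.zl e‖ ≤ 3 := by
      rw [← hz]
      have : echd G c (rot (rot e)) = ‖G.zl (es c (rot (rot e))) - G.zl (rot (rot e))‖ := rfl
      rw [← this]
      linarith
    have he0 := ct_et0
    rw [norm_mul, Complex.norm_real, Real.norm_of_nonneg (by linarith)]
    have h0 := norm_nonneg (G.zl (es c (rot (rot e))) - G.zl e)
    nlinarith
  · rw [norm_zero]
    norm_num

open Classical in
theorem TT_count [Fintype ι] {G : Net} (hg : Good G c o n) :
    (((corners c n o).filter fun e => TT G c o n e ≠ 0).card : ℝ) ≤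
      4 * La G c o n + 10 ^ 6 * SD G c o n := by
  refine le_trans ?_ (count_TS hg)
  have key : ∀ e ∈ (corners c n o).filter (fun e => TT G c o n e ≠ 0),
      TS G c o n (enb c e) := by
    intro e he
    rw [mem_filter] at he
    have he' := (mem_corners hg.out o e).1 he.1
    rw [enb_third he'.1]
    by_contra hcon
    apply he.2
    unfold TT
    rw [if_neg]
    exact fun h => hcon h.2
  have h1 : ((corners c n o).filter fun e => TT G c o n e ≠ 0).card ≤
      ((univ : Finset ι).filter fun i => TS G c o n i).card := by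
    refine card_le_card_of_injOn (fun e => enb c e) ?_ ?_
    · intro e he
      exact mem_coe.2 (mem_filter.2 ⟨mem_univ _, key e he⟩)
    · intro e he e' he' hee
      have h2 : enb c e = enb c e' := hee
      have ho := outer_corner hg.out (mem_filter.1 (mem_coe.1 he)).1
      have ho' := outer_corner hg.out (mem_filter.1 (mem_coe.1 he')).1
      obtain ⟨d, hd⟩ := card_eq_one.1 (key e he).2.2.1
      have h3 : eopp c e = d := by
        have := ho.1
        rw [hd, mem_singleton] at this
        exact this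
      have h4 : eopp c e' = d := by
        have := ho'.1
        rw [← h2, hd, mem_singleton] at this
        exact this
      rw [← ho.2.1, ← ho'.2.1, h3, h4]
  exact_mod_cast h1

end Pool.Agent.Helper38.AS
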