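import Pool.Agent.Helper38.AS.Count

/-!
# AS-11: the isoperimetric inequality for the shifted outer curve

* `shift_area`: for corners `e` of `o` write `z = zl e`, `z' = zl (es e)`, `T = TT e`, `T' = TT (es e)`; `es` is a bijection of `corners o` (`es_bij`).
  `cr (z - T) (z' - T') - cr z z' = - cr T z' - cr z T' + cr T T'`, and `∑ (cr T z + cr z' T') = ∑ (cr T z + cr z T) = 0` (reindex the second term), so the sum is
  `∑ (- cr T (z' - z) + cr (z' - z) T' + cr T T')`, `|.| ≤ ∑ (‖T‖ + ‖T'‖) elen + ‖T‖ ‖T'‖` (`echd ≤ elen`) `≤ .32 Lo + .16 * ∑ ‖T‖ ≤ .32 Lo + .0256 * (number of e with TT e ≠ 0)`.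
* `curve3`: `iso_paths_abs` (`Helper98/LC/G/Paths.lean`) for the class `o` as in `outer_curve` (`Helper98/LC/C/Face.lean`), but the path of a corner `e` with `ar (enb e) < 2` is the segment from `zs e` to `zs (es e)`
  (`k = 1`), for the others the path of the edge (`fp` there; copy it).  If `ar (enb e) ≥ 2` then `enb e = c (third e) = c (tip (es e))` is not of type `S`, so `TT e = TT (es e) = 0`.
  Area: `∑ parea = ∑_{ar < 2} cr (zs e) (zs (es e))/2 + ∑_{ar ≥ 2} ∑ et = - A0 tot + [∑ (cr (zs) (zs') - cr zl zl')/2] - A0 ∑_{ar < 2} ebul` (`sum_et_outer`, `sum_edges`; the bracket may be extended to all `e`),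
  `|ebul e| ≤ elen e / 5` if `ar (enb e) < 2` (`edge_half` for the class `enb e`: `2π A0 |ebul| ≤ elen²`, `elen ≤ 3.1`; see `cv_bul` in `Helper98/LC/F/Curve.lean`).
  So the error is `≤ .16 Lo + .0128 * (4 La + 10^6 SD) + 2.6 Lo/5 ≤ Lo + La + 10^6 SD ≤ 14 La + 2 * 10^7 SD` (`len_le`), divide by `A0 ≥ 2.5`.
-/

namespace Pool.Agent.Helper38.AS

open Finset Real Pool.Agent.Helper98.LC
open Pool.Agent.Helper98.LC3 (c0 et0 Face41 HH CoConn GMin)

variable {ι : Type} [DecidableEq ι] {c : V → ι} {o : ι} {n : ℕ}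

private theorem cx_A0 : 0 < A0 := by
  unfold A0
  positivity

/-- the path of the edge which starts at the corner `d` -/
private noncomputable def cxp (G : Net) (c : V → ι) (d : V × Fin 6) (t : ℕ) : ℂ :=
  if t % 2 = 0 then G.zl (edart c d (t / 2))
  else G.q (edart c d (t / 2 + 1)).1 (edart c d (t / 2 + 1)).2

private theorem cxp_even (G : Net) (c : V → ι) (d : V × Fin 6) (j : ℕ) :
    cxp G c d (2 * j) = G.zl (edart c d j) := by
  unfold cxp
  rw [if_pos (by omega), show 2 * j / 2 = j by omega]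

private theorem cxp_odd (G : Net) (c : V → ι) (d : V × Fin 6) (j : ℕ) :
    cxp G c d (2 * j + 1) = G.q (edart c d (j + 1)).1 (edart c d (j + 1)).2 := by
  unfold cxp
  rw [if_neg (by omega), show (2 * j + 1) / 2 = j by omega]

private theorem cx_succ (c : V → ι) (d : V × Fin 6) (j : ℕ) :
    edart c d (j + 1) = next c (edart c d j) := by
  unfold edart
  rw [Function.iterate_succ_apply']

private theorem cx_zr (G : Net) (c : V → ι) (d : V × Fin 6) (j : ℕ) :
    G.z (edart c d (j + 1)).1 ((edart c d (j + 1)).2 - 1) = G.zl (edart c d j) := by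
  rw [cx_succ]
  exact zr_next G c _

private theorem cx_plen (G : Net) (c : V → ι) (d : V × Fin 6) (m : ℕ) :
    plen (cxp G c d) (2 * m) = ∑ j ∈ Icc 1 m, G.w (edart c d j) := by
  induction m with
  | zero => simp [plen]
  | succ m ih =>
    rw [sum_Icc_succ_top (by omega), ← ih]
    unfold plen
    rw [show 2 * (m + 1) = 2 * m + 1 + 1 by ring, sum_range_succ, sum_range_succ, cxp_even,
      cxp_odd, show 2 * m + 1 + 1 = 2 * (m + 1) by ring, cxp_even]
    unfold Net.w
    rw [cx_zr, add_assoc]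
    rfl

private theorem cx_parea (G : Net) (c : V → ι) (d : V × Fin 6) (m : ℕ) :
    parea (cxp G c d) (2 * m) = ∑ j ∈ Icc 1 m, G.et (edart c d j) := by
  induction m with
  | zero => simp [parea]
  | succ m ih =>
    rw [sum_Icc_succ_top (by omega), ← ih]
    unfold parea
    rw [show 2 * (m + 1) = 2 * m + 1 + 1 by ring, sum_range_succ, sum_range_succ, cxp_even,
      cxp_odd, show 2 * m + 1 + 1 = 2 * (m + 1) by ring, cxp_even]
    unfold Net.et
    rw [cx_zr]
    unfold Net.zl
    ring

private theorem cx_zero (G : Net) (c : V → ι) (d : V × Fin 6) : cxp G c d 0 = G.zl d :=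
  cxp_even G c d 0

private theorem cx_end (G : Net) (c : V → ι) (d : V × Fin 6) :
    cxp G c d (2 * emul c d) = G.zl (es c d) := cxp_even G c d (emul c d)

private theorem cx_len (G : Net) (c : V → ι) (d : V × Fin 6) :
    plen (cxp G c d) (2 * emul c d) = elen G c d := cx_plen G c d _

private theorem cx_chd_le (G : Net) (c : V → ι) (d : V × Fin 6) :
    ‖G.zl (es c d) - G.zl d‖ ≤ elen G c d := by
  have h1 := chord_le (cxp G c d) (2 * emul c d)
  rw [cx_end, cx_zero, cx_len] at h1
  exact h1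

private theorem cx_abs_cr (a b : ℂ) : |cr a b| ≤ ‖a‖ * ‖b‖ := by
  refine abs_le_of_sq_le_sq ?_ (by positivity)
  rw [mul_pow, Complex.sq_norm, Complex.sq_norm, Complex.normSq_apply, Complex.normSq_apply]
  unfold cr
  nlinarith [sq_nonneg (a.re * b.re + a.im * b.im)]

private theorem cx_reindex (h : OutBox c o n) (f : V × Fin 6 → ℝ) :
    ∑ e ∈ corners c n o, f (es c e) = ∑ e ∈ corners c n o, f e := by
  have hb := es_bij h o
  refine Finset.sum_bij (fun e _ => es c e) (fun e he => es_mem h he) ?_ ?_ (fun _ _ => rfl)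
  · intro a ha b hb' hab
    exact hb.2.1 (Finset.mem_coe.2 ha) (Finset.mem_coe.2 hb') hab
  · intro b hb'
    obtain ⟨a, ha, hab⟩ := hb.2.2 (Finset.mem_coe.2 hb')
    exact ⟨a, Finset.mem_coe.1 ha, hab⟩

private theorem cx_id (z z' T T' : ℂ) :
    cr (z - T) (z' - T') - cr z z' =
      (- cr T (z' - z) + cr (z' - z) T' + cr T T') - (cr T z + cr z' T') := by
  unfold cr
  simp only [Complex.sub_re, Complex.sub_im]
  ring

private theorem cx_elen_nonneg (G : Net) (c : V → ι) (d : V × Fin 6) : 0 ≤ elen G c d := by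
  unfold elen
  exact sum_nonneg fun j _ => w_nonneg G _

theorem shift_area [Fintype ι] {G : Net} (hg : Good G c o n) :
    |∑ e ∈ corners c n o, (cr (zs G c o n e) (zs G c o n (es c e)) -
      cr (G.zl e) (G.zl (es c e)))| ≤
      0.32 * Lo G c o n + 0.0256 * (4 * La G c o n + 10 ^ 6 * SD G c o n) := by
  classical
  have h0 : ∑ e ∈ corners c n o, (cr (TT G c o n e) (G.zl e) +
      cr (G.zl (es c e)) (TT G c o n (es c e))) = 0 := by
    rw [sum_add_distrib, cx_reindex hg.out (fun e => cr (G.zl e) (TT G c o n e)),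
      ← sum_add_distrib]
    refine sum_eq_zero fun e _ => ?_
    unfold cr
    ring
  have h1 : ∑ e ∈ corners c n o, (cr (zs G c o n e) (zs G c o n (es c e)) -
      cr (G.zl e) (G.zl (es c e))) = ∑ e ∈ corners c n o,
        (- cr (TT G c o n e) (G.zl (es c e) - G.zl e) +
          cr (G.zl (es c e) - G.zl e) (TT G c o n (es c e)) +
          cr (TT G c o n e) (TT G c o n (es c e))) := by
    have h2 : ∑ e ∈ corners c n o, (cr (zs G c o n e) (zs G c o n (es c e)) -
        cr (G.zl e) (G.zl (es c e))) = ∑ e ∈ corners c n o,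
        ((- cr (TT G c o n e) (G.zl (es c e) - G.zl e) +
          cr (G.zl (es c e) - G.zl e) (TT G c o n (es c e)) +
          cr (TT G c o n e) (TT G c o n (es c e))) - (cr (TT G c o n e) (G.zl e) +
          cr (G.zl (es c e)) (TT G c o n (es c e)))) := by
      refine sum_congr rfl fun e _ => ?_
      unfold zs
      exact cx_id _ _ _ _
    rw [h2, sum_sub_distrib, h0, sub_zero]
  rw [h1]
  have h3 : ∀ e ∈ corners c n o,
      |- cr (TT G c o n e) (G.zl (es c e) - G.zl e) +
          cr (G.zl (es c e) - G.zl e) (TT G c o n (es c e)) +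
          cr (TT G c o n e) (TT G c o n (es c e))| ≤
        0.32 * elen G c e + 0.16 * ‖TT G c o n e‖ := by
    intro e he
    have a1 := TT_norm hg he
    have a2 := TT_norm hg (es_mem hg.out he)
    have a3 := cx_chd_le G c e
    have b1 := cx_abs_cr (TT G c o n e) (G.zl (es c e) - G.zl e)
    have b2 := cx_abs_cr (G.zl (es c e) - G.zl e) (TT G c o n (es c e))
    have b3 := cx_abs_cr (TT G c o n e) (TT G c o n (es c e))
    have n1 := norm_nonneg (TT G c o n e)
    have n2 := norm_nonneg (TT G c o n (es c e))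
    have n3 := norm_nonneg (G.zl (es c e) - G.zl e)
    have c1 : ‖TT G c o n e‖ * ‖G.zl (es c e) - G.zl e‖ ≤ 0.16 * elen G c e :=
      mul_le_mul a1 a3 n3 (by norm_num)
    have c2 : ‖G.zl (es c e) - G.zl e‖ * ‖TT G c o n (es c e)‖ ≤ elen G c e * 0.16 :=
      mul_le_mul a3 a2 n2 (cx_elen_nonneg G c e)
    have c3 : ‖TT G c o n e‖ * ‖TT G c o n (es c e)‖ ≤ ‖TT G c o n e‖ * 0.16 :=
      mul_le_mul_of_nonneg_left a2 n1
    have d1 := abs_le.1 (b1.trans c1)
    have d2 := abs_le.1 (b2.trans c2)
    have d3 := abs_le.1 (b3.trans c3)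
    rw [abs_le]
    constructor
    · linarith [d1.1, d1.2, d2.1, d2.2, d3.1, d3.2]
    · linarith [d1.1, d1.2, d2.1, d2.2, d3.1, d3.2]
  refine (abs_sum_le_sum_abs _ _).trans ((sum_le_sum h3).trans ?_)
  rw [sum_add_distrib, ← mul_sum, ← mul_sum]
  have h4 : ∑ e ∈ corners c n o, ‖TT G c o n e‖ ≤
      0.16 * (4 * La G c o n + 10 ^ 6 * SD G c o n) := by
    have h5 : ∑ e ∈ corners c n o, ‖TT G c o n e‖ =
        ∑ e ∈ (corners c n o).filter (fun e => TT G c o n e ≠ 0), ‖TT G c o n e‖ := by
      rw [sum_filter]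
      refine sum_congr rfl fun e _ => ?_
      split_ifs with h6
      · rfl
      · rw [not_not.1 h6, norm_zero]
    rw [h5]
    have h7 : ∑ e ∈ (corners c n o).filter (fun e => TT G c o n e ≠ 0), ‖TT G c o n e‖ ≤
        ((corners c n o).filter (fun e => TT G c o n e ≠ 0)).card • (0.16 : ℝ) :=
      sum_le_card_nsmul _ _ _ fun e he => TT_norm hg (mem_filter.1 he).1
    rw [nsmul_eq_mul] at h7
    have h8 := TT_count hg
    linarith
  unfold Lo
  linarith

private theorem cx_const : (16 : ℝ) ≤ 2 * π * A0 := by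
  unfold A0
  have h1 : (3.14 : ℝ) < π := Real.pi_gt_d2
  have h2 : (1.73 : ℝ) ≤ √3 := by
    refine Real.le_sqrt_of_sq_le ?_
    norm_num
  nlinarith

private theorem cx_A25 : (2.5 : ℝ) ≤ A0 := by
  unfold A0
  have h2 : (1.73 : ℝ) ≤ √3 := by
    refine Real.le_sqrt_of_sq_le ?_
    norm_num
  linarith

private theorem cx_bul [Fintype ι] {G : Net} (hg : Good G c o n) {d : V × Fin 6}
    (hd : d ∈ corners c n o) (hsm : ar G c n (enb c d) < 2) :
    |ebul G c d| ≤ elen G c d / 5 := by
  classical
  obtain ⟨hc, hco⟩ := (mem_corners hg.out o d).1 hd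
  obtain ⟨e1, e2, e3, _⟩ := eopp_corner hg.out hc
  have hi : enb c d ≠ o := by
    rw [← hco]
    exact enb_ne hc
  have hd' : eopp c d ∈ corners c n (enb c d) := (mem_corners hg.out _ _).2 ⟨e1, e2⟩
  have hdO : eopp c d ∈ Oi c o n (enb c d) := by
    unfold Oi
    exact mem_filter.2 ⟨hd', e3.trans hco⟩
  have h1 : elen G c (eopp c d) ≤ ∑ x ∈ Oi c o n (enb c d), elen G c x :=
    single_le_sum (f := fun x => elen G c x) (fun x _ => cx_elen_nonneg G c x) hdO
  have h1' := hg.cap_sum _ hi
  have h2 := (faceFacts G hg.out hg.loop hi).dido _ hd' 2 le_rfl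
  rw [elen_eopp G hg.out hc] at h1 h2
  rw [ebul_eopp G hg.out hc, abs_neg] at h2
  have h5 : min 1 (ar G c n (enb c d)) ≤ 1 := min_le_left _ _
  have h6 : elen G c d ≤ 3.1 := by linarith
  have h0 := cx_elen_nonneg G c d
  have h7 : ((2 : ℕ) : ℝ) = 2 := by norm_num
  rw [h7, Real.cos_pi_div_two, zero_div, mul_zero, zero_mul, zero_add] at h2
  have h8 : 16 * |ebul G c d| ≤ elen G c d ^ 2 := by
    have h9 : 16 * |ebul G c d| ≤ 2 * π * A0 * |ebul G c d| :=
      mul_le_mul_of_nonneg_right cx_const (abs_nonneg _)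
    have h10 : 2 * π * A0 * |ebul G c d| = 4 * π / 2 * (A0 * |ebul G c d|) := by ring
    linarith
  nlinarith

/-- the permutation of the corners of the outer class -/
private noncomputable def cxs {c : V → ι} {o : ι} {n : ℕ} (h : OutBox c o n) :
    Equiv.Perm {d // d ∈ corners c n o} :=
  Equiv.ofBijective (fun d => ⟨es c d.1, es_mem h d.2⟩)
    (Finite.injective_iff_bijective.mp fun x y hxy => by
      have h1 : es c x.1 = es c y.1 := congrArg Subtype.val hxy
      exact Subtype.ext (edge_es_inj' h ((mem_corners h o x.1).1 x.2).1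
        ((mem_corners h o y.1).1 y.2).1 h1))

private theorem cxs_apply {c : V → ι} {o : ι} {n : ℕ} (h : OutBox c o n)
    (d : {d // d ∈ corners c n o}) : (cxs h d).1 = es c d.1 := rfl

open Classical in
/-- the number of segments of the path at the corner `d` -/
private noncomputable def cxk (G : Net) (c : V → ι) (n : ℕ) (d : V × Fin 6) : ℕ :=
  if ar G c n (enb c d) < 2 then 1 else 2 * emul c d

open Classical in
/-- the path at the corner `d` -/
private noncomputable def cxq (G : Net) (c : V → ι) (o : ι) (n : ℕ) (d : V × Fin 6) (t : ℕ) : ℂ :=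
  if ar G c n (enb c d) < 2 then
    (if t = 0 then zs G c o n d else zs G c o n (es c d)) else cxp G c d t

private theorem cx_zs_big (G : Net) (h : OutBox c o n) {d : V × Fin 6} (hd : IsCorner c d)
    (hb : ¬ ar G c n (enb c d) < 2) :
    zs G c o n d = G.zl d ∧ zs G c o n (es c d) = G.zl (es c d) := by
  constructor
  · unfold zs TT
    rw [if_neg, sub_zero]
    intro hh
    refine hb ?_
    rw [enb_third hd]
    exact hh.2.2.2.2
  · unfold zs TT
    rw [if_neg, sub_zero]
    intro hh
    refine hb ?_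
    rw [← tip_es h hd]
    exact hh.1.2.2.2

private theorem cxq_zero (G : Net) (h : OutBox c o n) {d : V × Fin 6} (hd : IsCorner c d) :
    cxq G c o n d 0 = zs G c o n d := by
  unfold cxq
  by_cases h1 : ar G c n (enb c d) < 2
  · rw [if_pos h1, if_pos rfl]
  · rw [if_neg h1, cx_zero, (cx_zs_big G h hd h1).1]

private theorem cxq_end (G : Net) (h : OutBox c o n) {d : V × Fin 6} (hd : IsCorner c d) :
    cxq G c o n d (cxk G c n d) = zs G c o n (es c d) := by
  unfold cxq cxk
  by_cases h1 : ar G c n (enb c d) < 2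
  · rw [if_pos h1, if_pos h1, if_neg one_ne_zero]
  · rw [if_neg h1, if_neg h1, cx_end, (cx_zs_big G h hd h1).2]

private theorem cxq_len (G : Net) (c : V → ι) (o : ι) (n : ℕ) (d : V × Fin 6) :
    plen (cxq G c o n d) (cxk G c n d) = lam3 G c o n d := by
  by_cases h1 : ar G c n (enb c d) < 2
  · have e1 : cxk G c n d = 1 := by
      unfold cxk
      rw [if_pos h1]
    unfold lam3
    rw [if_pos h1, e1]
    unfold plen
    rw [sum_range_one]
    unfold cxq
    rw [if_pos h1, if_pos h1, if_neg (by norm_num), if_pos rfl]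
  · have e1 : cxk G c n d = 2 * emul c d := by
      unfold cxk
      rw [if_neg h1]
    have e2 : cxq G c o n d = cxp G c d := by
      funext t
      unfold cxq
      rw [if_neg h1]
    unfold lam3
    rw [if_neg h1, e1, e2, cx_len]

private theorem cxq_area (G : Net) (h : OutBox c o n) {d : V × Fin 6} (hd : IsCorner c d) :
    parea (cxq G c o n d) (cxk G c n d) =
      ∑ j ∈ Icc 1 (emul c d), G.et (edart c d j) +
      (cr (zs G c o n d) (zs G c o n (es c d)) - cr (G.zl d) (G.zl (es c d))) / 2 -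
      A0 * (if ar G c n (enb c d) < 2 then ebul G c d else 0) := by
  by_cases h1 : ar G c n (enb c d) < 2
  · have e1 : cxk G c n d = 1 := by
      unfold cxk
      rw [if_pos h1]
    rw [if_pos h1, e1]
    unfold parea
    rw [sum_range_one]
    unfold cxq ebul
    rw [if_pos h1, if_pos h1, if_pos rfl, if_neg (by norm_num), mul_div_cancel₀ _ cx_A0.ne']
    ring
  · have e1 : cxk G c n d = 2 * emul c d := by
      unfold cxk
      rw [if_neg h1]
    have e2 : cxq G c o n d = cxp G c d := by
      funext t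
      unfold cxq
      rw [if_neg h1]
    obtain ⟨z1, z2⟩ := cx_zs_big G h hd h1
    rw [if_neg h1, e1, e2, cx_parea, z1, z2]
    ring

theorem curve3 [Fintype ι] {G : Net} (hg : Good G c o n) :
    4 * π * (A0 * (tot G c o n - 14 * La G c o n - 10 ^ 8 * SD G c o n)) ≤ La G c o n ^ 2 := by
  classical
  have hk : ∀ d : {d // d ∈ corners c n o}, 1 ≤ cxk G c n d.1 := by
    intro d
    unfold cxk
    split_ifs with h1
    · exact le_rfl
    · have := (emul_spec hg.out ((mem_corners hg.out o d.1).1 d.2).1).1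
      omega
  have hp : ∀ d : {d // d ∈ corners c n o},
      cxq G c o n d.1 (cxk G c n d.1) = cxq G c o n (cxs hg.out d).1 0 := by
    intro d
    rw [cxq_end G hg.out ((mem_corners hg.out o d.1).1 d.2).1,
      cxq_zero G hg.out ((mem_corners hg.out o _).1 (cxs hg.out d).2).1, cxs_apply]
  have h1 := iso_paths_abs (cxs hg.out) (fun d => cxk G c n d.1) (fun d => cxq G c o n d.1) hk hp
  have h2 : ∑ e : {d // d ∈ corners c n o}, plen (cxq G c o n e.1) (cxk G c n e.1) =
      La G c o n := by
    rw [sum_coe_sort (corners c n o) (fun d => plen (cxq G c o n d) (cxk G c n d))]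
    unfold La
    exact sum_congr rfl fun d _ => cxq_len G c o n d
  have h3 : ∑ e : {d // d ∈ corners c n o}, parea (cxq G c o n e.1) (cxk G c n e.1) =
      - (A0 * tot G c o n) +
      (∑ e ∈ corners c n o, (cr (zs G c o n e) (zs G c o n (es c e)) -
        cr (G.zl e) (G.zl (es c e)))) / 2 -
      A0 * ∑ e ∈ corners c n o, (if ar G c n (enb c e) < 2 then ebul G c e else 0) := by
    rw [sum_coe_sort (corners c n o) (fun d => parea (cxq G c o n d) (cxk G c n d)),
      sum_congr rfl fun d hd => cxq_area G hg.out ((mem_corners hg.out o d).1 hd).1,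
      sum_sub_distrib, sum_add_distrib, sum_edges hg.out hg.loop o, sum_et_outer G hg.out,
      ← mul_sum, sum_div]
    rfl
  rw [h2, h3] at h1
  have h4 := shift_area hg
  have h5 : |∑ e ∈ corners c n o, (if ar G c n (enb c e) < 2 then ebul G c e else 0)| ≤
      Lo G c o n / 5 := by
    refine (abs_sum_le_sum_abs _ _).trans ?_
    unfold Lo
    rw [sum_div]
    refine sum_le_sum fun e he => ?_
    split_ifs with h6
    · exact cx_bul hg he h6
    · rw [abs_zero]
      exact div_nonneg (cx_elen_nonneg G c e) (by norm_num)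
  have h7 := len_le hg
  have h8 : 0 ≤ La G c o n := by
    unfold La
    exact sum_nonneg fun e _ => lam3_nonneg G c o n e
  have h9 : 0 ≤ SD G c o n := by
    unfold SD
    refine sum_nonneg fun i hi => ?_
    unfold NC at hi
    rw [mem_filter] at hi
    exact dfi_nonneg hg hi.2.1 hi.2.2
  refine le_trans (mul_le_mul_of_nonneg_left ?_ (by positivity)) h1
  rw [abs_le] at h4 h5
  have hA := cx_A25
  set X := ∑ e ∈ corners c n o, (cr (zs G c o n e) (zs G c o n (es c e)) -
        cr (G.zl e) (G.zl (es c e))) with hX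
  set Y := ∑ e ∈ corners c n o, (if ar G c n (enb c e) < 2 then ebul G c e else 0) with hY
  refine le_trans ?_ (neg_le_abs _)
  have h10 : A0 * (-(Lo G c o n / 5)) ≤ A0 * Y := mul_le_mul_of_nonneg_left h5.1 cx_A0.le
  have h11 : X / 2 ≤ 0.16 * Lo G c o n + 0.0128 * (4 * La G c o n + 10 ^ 6 * SD G c o n) := by
    linarith [h4.2]
  have h12 : A0 * (-(13 * La G c o n + 10 ^ 7 * SD G c o n) / 5) ≤ A0 * (-(Lo G c o n / 5)) :=
    mul_le_mul_of_nonneg_left (by linarith) cx_A0.le
  have h13 : 0.16 * (13 * La G c o n + 10 ^ 7 * SD G c o n) +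
      0.0128 * (4 * La G c o n + 10 ^ 6 * SD G c o n) ≤
      A0 * (La G c o n + 10 ^ 7 * SD G c o n) := by
    have h14 : (2.5 : ℝ) * (La G c o n + 10 ^ 7 * SD G c o n) ≤
        A0 * (La G c o n + 10 ^ 7 * SD G c o n) :=
      mul_le_mul_of_nonneg_right hA (by linarith)
    linarith
  have h15 : A0 * (La G c o n + 10 ^ 7 * SD G c o n) +
      A0 * ((13 * La G c o n + 10 ^ 7 * SD G c o n) / 5) ≤
      A0 * (14 * La G c o n + 10 ^ 8 * SD G c o n) := by
    rw [← mul_add]
    exact mul_le_mul_of_nonneg_left (by linarith) cx_A0.le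
  have h16 : A0 * (-(13 * La G c o n + 10 ^ 7 * SD G c o n) / 5) =
      - (A0 * ((13 * La G c o n + 10 ^ 7 * SD G c o n) / 5)) := by ring
  rw [h16] at h12
  have h17 : A0 * (tot G c o n - 14 * La G c o n - 10 ^ 8 * SD G c o n) =
      A0 * tot G c o n - A0 * (14 * La G c o n + 10 ^ 8 * SD G c o n) := by ring
  rw [h17]
  linarith

end Pool.Agent.Helper38.AS
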