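import Pool.Agent.Helper38.AS.Count
import Pool.Agent.Helper38.RG.Hyp

/-!
# AS-14: the complex of a labelling

`DD` = the corners of all classes `≠ o` (`mem_corners`: `d ∈ DD ↔ IsCorner c d ∧ c d.1 ≠ o`), `Dt` = the type of these darts.
* `exists_cx`: `s` = `es c` (`es_mem`, injective: `edge_es_inj'`; an injective map of a finite type is bijective: `Equiv.ofBijective`, `Finite.injective_iff_bijective`), `F d = c d.1.1`, `orb`: `es_reach`
  (`hg.out`, `hg.conn`, `hg.co`), `out = univ.filter (enb c d.1 = o)`, `st d = d` if `enb c d.1 = o`, `eopp c d.1` otherwise (`eopp_corner`, `eopp_eopp`; an involution: `Function.Involutive.toPerm`),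
  `z d = zl d.1`, `z_st`: `eopp_eq`, `zl_rot`.
  `s'`: for `d` outer let `e = eopp c d ∈ corners c n o` (`eopp_corner`), `e'` with `es c e' = e` (`exists_pred`), `s' d = eopp c e'` (it is an outer edge of a class `≠ o`: `outer_corner`);
  injective (`es` is a function, `eopp` is injective on corners) and the type is finite; `eopp c (s' d) = e'`.
* the sums: `Finset.sum_bij` / `sum_nbij'` with `d ↦ d.1`; `out_sum`: `d ↦ eopp c d.1` maps `K.out` bijectively to `corners c n o` (`outer_corner`).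
* `bdy_iff`: from `out_iff`, `F_eq`.
-/

namespace Pool.Agent.Helper38.AS

open Finset Real Pool.Agent.Helper98.LC
open Pool.Agent.Helper98.LC3 (c0 et0 Face41 HH CoConn GMin)

variable {ι : Type} [DecidableEq ι] {c : V → ι} {o : ι} {n : ℕ}

/-- the corners of the classes other than `o` -/
noncomputable def DD [Fintype ι] (c : V → ι) (o : ι) (n : ℕ) : Finset (V × Fin 6) :=
  (univ.filter fun i => i ≠ o).biUnion (corners c n)

/-- the darts of the complex -/
abbrev Dt [Fintype ι] (c : V → ι) (o : ι) (n : ℕ) : Type := {d : V × Fin 6 // d ∈ DD c o n}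

/-- `K` is the complex of the labelling, `s'` the next outer edge -/
structure IsCx [Fintype ι] (G : Net) (c : V → ι) (o : ι) (n : ℕ) (K : RG.Cx (Dt c o n) ι)
    (s' : Equiv.Perm {d // d ∈ K.out}) : Prop where
  s_val : ∀ d, (K.s d).1 = es c d.1
  F_eq : ∀ d, K.F d = c d.1.1
  out_iff : ∀ d, d ∈ K.out ↔ enb c d.1 = o
  z_eq : ∀ d, K.z d = G.zl d.1
  s'_eq : ∀ d, eopp c d.1.1 = es c (eopp c (s' d).1.1)

theorem mem_DD [Fintype ι] (h : OutBox c o n) {d : V × Fin 6} :
    d ∈ DD c o n ↔ IsCorner c d ∧ c d.1 ≠ o := by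
  unfold DD
  simp only [mem_biUnion, mem_filter, mem_univ, true_and, mem_corners h]
  constructor
  · rintro ⟨i, hi, h1, h2⟩
    exact ⟨h1, by rw [h2]; exact hi⟩
  · rintro ⟨h1, h2⟩
    exact ⟨_, h2, h1, rfl⟩

private theorem cb_es_mem [Fintype ι] (h : OutBox c o n) {d : V × Fin 6} (hd : d ∈ DD c o n) :
    es c d ∈ DD c o n := by
  have h1 := (mem_DD h).1 hd
  have h2 := es_mem h ((mem_corners h (c d.1) d).2 ⟨h1.1, rfl⟩)
  have h3 := (mem_corners h (c d.1) _).1 h2
  exact (mem_DD h).2 ⟨h3.1, by rw [h3.2]; exact h1.2⟩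

private theorem cb_eopp_mem [Fintype ι] (h : OutBox c o n) {d : V × Fin 6} (hd : d ∈ DD c o n)
    (ho : enb c d ≠ o) : eopp c d ∈ DD c o n ∧ enb c (eopp c d) ≠ o := by
  have h1 := (mem_DD h).1 hd
  have h2 := eopp_corner h h1.1
  exact ⟨(mem_DD h).2 ⟨h2.1, by rw [h2.2.1]; exact ho⟩, by rw [h2.2.2.1]; exact h1.2⟩

/-- the next outer edge -/
private theorem cb_next [Fintype ι] (h : OutBox c o n) {d : V × Fin 6} (hd : d ∈ DD c o n)
    (ho : enb c d = o) :
    ∃ d' ∈ DD c o n, enb c d' = o ∧ eopp c d = es c (eopp c d') := by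
  have h1 := (mem_DD h).1 hd
  have h2 := eopp_corner h h1.1
  have h3 : eopp c d ∈ corners c n o := (mem_corners h o _).2 ⟨h2.1, by rw [h2.2.1]; exact ho⟩
  obtain ⟨e, he, hee⟩ := exists_pred h h3
  obtain ⟨h4, h5, h6⟩ := outer_corner h he
  have h7 := mem_filter.1 h4
  have h8 := (mem_corners h _ _).1 h7.1
  exact ⟨eopp c e, (mem_DD h).2 ⟨h8.1, by rw [h8.2]; exact h6⟩, h7.2, by rw [h5, hee]⟩

private theorem cb_eopp_inj [Fintype ι] (h : OutBox c o n) {d d' : V × Fin 6} (hd : d ∈ DD c o n)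
    (hd' : d' ∈ DD c o n) (he : eopp c d = eopp c d') : d = d' := by
  rw [← eopp_eopp h ((mem_DD h).1 hd).1, he, eopp_eopp h ((mem_DD h).1 hd').1]

/-- the next corner, as a permutation -/
private noncomputable def cbS [Fintype ι] (h : OutBox c o n) : Equiv.Perm (Dt c o n) :=
  Equiv.ofBijective (fun d => ⟨es c d.1, cb_es_mem h d.2⟩) (by
    rw [← Finite.injective_iff_bijective]
    intro d d' hdd
    have h1 : es c d.1 = es c d'.1 := congrArg Subtype.val hdd
    exact Subtype.ext (edge_es_inj' h ((mem_DD h).1 d.2).1 ((mem_DD h).1 d'.2).1 h1))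

private theorem cbS_val [Fintype ι] (h : OutBox c o n) (d : Dt c o n) :
    (cbS h d).1 = es c d.1 := rfl

private theorem cbS_pow [Fintype ι] (h : OutBox c o n) (d : Dt c o n) (m : ℕ) :
    ((cbS h ^ m) d).1 = (es c)^[m] d.1 := by
  induction m with
  | zero => rfl
  | succ m ih => rw [pow_succ', Equiv.Perm.mul_apply, cbS_val, ih, Function.iterate_succ_apply']

open Classical in
private noncomputable def cbStf [Fintype ι] (h : OutBox c o n) (d : Dt c o n) : Dt c o n :=
  if hd : enb c d.1 = o then d else ⟨eopp c d.1, (cb_eopp_mem h d.2 hd).1⟩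

private theorem cbStf_in [Fintype ι] (h : OutBox c o n) {d : Dt c o n} (hd : enb c d.1 ≠ o) :
    (cbStf h d).1 = eopp c d.1 := by
  unfold cbStf
  rw [dif_neg hd]

private theorem cbStf_out [Fintype ι] (h : OutBox c o n) {d : Dt c o n} (hd : enb c d.1 = o) :
    cbStf h d = d := by
  unfold cbStf
  rw [dif_pos hd]

private theorem cbStf_inv [Fintype ι] (h : OutBox c o n) :
    Function.Involutive (cbStf h) := by
  intro d
  by_cases hd : enb c d.1 = o
  · rw [cbStf_out h hd, cbStf_out h hd]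
  · apply Subtype.ext
    have h1 : enb c (cbStf h d).1 ≠ o := by
      rw [cbStf_in h hd]
      exact (cb_eopp_mem h d.2 hd).2
    rw [cbStf_in h h1, cbStf_in h hd, eopp_eopp h ((mem_DD h).1 d.2).1]

open Classical in
private noncomputable def cbK [Fintype ι] {G : Net} (hg : Good G c o n) : RG.Cx (Dt c o n) ι where
  s := cbS hg.out
  F d := c d.1.1
  F_s d := by
    show c (es c d.1).1 = c d.1.1
    have h1 := (mem_DD hg.out).1 d.2
    have h2 := es_mem hg.out ((mem_corners hg.out (c d.1.1) d.1).2 ⟨h1.1, rfl⟩)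
    exact ((mem_corners hg.out (c d.1.1) _).1 h2).2
  orb d d' hdd := by
    have h1 := (mem_DD hg.out).1 d.2
    have h2 := (mem_DD hg.out).1 d'.2
    obtain ⟨m, hm⟩ := Pool.Agent.Helper98.LC3.es_reach hg.out hg.conn h1.2 (hg.co _ h1.2)
      ((mem_corners hg.out (c d.1.1) d.1).2 ⟨h1.1, rfl⟩)
      ((mem_corners hg.out (c d.1.1) d'.1).2 ⟨h2.1, hdd.symm⟩)
    exact ⟨m, Subtype.ext (by rw [cbS_pow]; exact hm)⟩
  out := univ.filter fun d => enb c d.1 = o
  st := (cbStf_inv hg.out).toPerm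
  st_st d := cbStf_inv hg.out d
  st_mem d hd := by
    have h1 : enb c d.1 ≠ o := fun hh => hd (mem_filter.2 ⟨mem_univ _, hh⟩)
    intro h2
    have h3 : enb c (cbStf hg.out d).1 = o := (mem_filter.1 h2).2
    rw [cbStf_in hg.out h1] at h3
    exact (cb_eopp_mem hg.out d.2 h1).2 h3
  z d := G.zl d.1
  z_st d hd := by
    have h1 : enb c d.1 ≠ o := fun hh => hd (mem_filter.2 ⟨mem_univ _, hh⟩)
    show G.zl (cbStf hg.out d).1 = G.zl (es c d.1)
    rw [cbStf_in hg.out h1, eopp_eq hg.out ((mem_DD hg.out).1 d.2).1, zl_rot]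

theorem exists_cx [Fintype ι] {G : Net} (hg : Good G c o n) :
    ∃ (K : RG.Cx (Dt c o n) ι) (s' : Equiv.Perm {d // d ∈ K.out}), IsCx G c o n K s' := by
  have hout : ∀ d, d ∈ (cbK hg).out ↔ enb c d.1 = o := by
    intro d
    unfold cbK
    simp only [mem_filter, mem_univ, true_and]
  have key : ∀ d : {d // d ∈ (cbK hg).out}, ∃ d' : {d // d ∈ (cbK hg).out},
      eopp c d.1.1 = es c (eopp c d'.1.1) := by
    intro d
    obtain ⟨d', h1, h2, h3⟩ := cb_next hg.out d.1.2 ((hout _).1 d.2)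
    exact ⟨⟨⟨d', h1⟩, (hout _).2 h2⟩, h3⟩
  choose f hf using key
  have hinj : Function.Injective f := by
    intro d d' hdd
    have h1 : eopp c d.1.1 = eopp c d'.1.1 := by rw [hf d, hf d', hdd]
    exact Subtype.ext (Subtype.ext (cb_eopp_inj hg.out d.1.2 d'.1.2 h1))
  exact ⟨cbK hg, Equiv.ofBijective f (Finite.injective_iff_bijective.1 hinj),
    ⟨fun d => rfl, fun d => rfl, hout, fun d => rfl, fun d => hf d⟩⟩

theorem card_Dt [Fintype ι] (h : OutBox c o n) :
    Fintype.card (Dt c o n) = ∑ i ∈ univ.filter (fun i => i ≠ o), (corners c n i).card := by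
  rw [Fintype.card_coe]
  unfold DD
  rw [card_biUnion]
  intro i _ j _ hij
  refine Finset.disjoint_left.2 fun d hd hd' => ?_
  exact hij (((mem_corners h i d).1 hd).2.symm.trans ((mem_corners h j d).1 hd').2)

section

variable [Fintype ι] {G : Net} {K : RG.Cx (Dt c o n) ι} {s' : Equiv.Perm {d // d ∈ K.out}}

theorem v_eq (hK : IsCx G c o n K s') (d : Dt c o n) :
    K.v d = G.zl (es c d.1) - G.zl d.1 := by
  unfold RG.Cx.v
  rw [hK.z_eq, hK.z_eq, hK.s_val]

private theorem cb_mem_fd (hK : IsCx G c o n K s') {X : ι} {d : Dt c o n} :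
    d ∈ K.fd X ↔ c d.1.1 = X := by
  unfold RG.Cx.fd
  rw [mem_filter, hK.F_eq]
  exact ⟨fun h => h.2, fun h => ⟨mem_univ _, h⟩⟩

theorem fd_o (h : OutBox c o n) (hK : IsCx G c o n K s') : K.fd o = ∅ := by
  rw [Finset.eq_empty_iff_forall_notMem]
  intro d hd
  exact ((mem_DD h).1 d.2).2 ((cb_mem_fd hK).1 hd)

theorem fd_sum (h : OutBox c o n) (hK : IsCx G c o n K s') {X : ι} (hX : X ≠ o) {M : Type}
    [AddCommMonoid M] (f : V × Fin 6 → M) : ∑ d ∈ K.fd X, f d.1 = ∑ d ∈ corners c n X, f d := by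
  refine sum_bij' (fun d _ => d.1) (fun d hd => ⟨d, (mem_DD h).2
    ⟨((mem_corners h X d).1 hd).1, by rw [((mem_corners h X d).1 hd).2]; exact hX⟩⟩) ?_ ?_ ?_ ?_ ?_
  · intro d hd
    exact (mem_corners h X _).2 ⟨((mem_DD h).1 d.2).1, (cb_mem_fd hK).1 hd⟩
  · intro d hd
    exact (cb_mem_fd hK).2 ((mem_corners h X d).1 hd).2
  · intro d hd
    rfl
  · intro d hd
    rfl
  · intro d hd
    rfl

theorem fd_card (h : OutBox c o n) (hK : IsCx G c o n K s') {X : ι} (hX : X ≠ o) :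
    (K.fd X).card = (corners c n X).card := by
  rw [card_eq_sum_ones, card_eq_sum_ones]
  exact fd_sum h hK hX (fun _ => 1)

theorem fd_out_sum (h : OutBox c o n) (hK : IsCx G c o n K s') {X : ι} (hX : X ≠ o) {M : Type}
    [AddCommMonoid M] (f : V × Fin 6 → M) :
    ∑ d ∈ (K.fd X).filter (fun d => d ∈ K.out), f d.1 = ∑ d ∈ Oi c o n X, f d := by
  have h1 := fd_sum h hK hX (fun d => if enb c d = o then f d else 0)
  unfold Oi
  rw [sum_filter, sum_filter, ← h1]
  refine sum_congr rfl fun d _ => ?_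
  simp only [hK.out_iff]

theorem fd_in_sum (h : OutBox c o n) (hK : IsCx G c o n K s') {X : ι} (hX : X ≠ o) {M : Type}
    [AddCommMonoid M] (f : V × Fin 6 → M) :
    ∑ d ∈ (K.fd X).filter (fun d => d ∉ K.out), f d.1 =
      ∑ d ∈ corners c n X \ Oi c o n X, f d := by
  have h1 := fd_sum h hK hX (fun d => if ¬ enb c d = o then f d else 0)
  unfold Oi
  rw [← filter_not, sum_filter, sum_filter, ← h1]
  refine sum_congr rfl fun d _ => ?_
  simp only [hK.out_iff]

theorem out_sum (h : OutBox c o n) (hK : IsCx G c o n K s') {M : Type} [AddCommMonoid M]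
    (f : V × Fin 6 → M) : ∑ d ∈ K.out, f d.1 = ∑ e ∈ corners c n o, f (eopp c e) := by
  have hm : ∀ e, e ∈ corners c n o → eopp c e ∈ DD c o n ∧ enb c (eopp c e) = o := by
    intro e he
    obtain ⟨h4, h5, h6⟩ := outer_corner h he
    have h7 := mem_filter.1 h4
    have h8 := (mem_corners h _ _).1 h7.1
    exact ⟨(mem_DD h).2 ⟨h8.1, by rw [h8.2]; exact h6⟩, h7.2⟩
  refine sum_bij' (fun d _ => eopp c d.1) (fun e he => ⟨eopp c e, (hm e he).1⟩) ?_ ?_ ?_ ?_ ?_
  · intro d hd
    have h1 := eopp_corner h ((mem_DD h).1 d.2).1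
    exact (mem_corners h o _).2 ⟨h1.1, by rw [h1.2.1]; exact (hK.out_iff d).1 hd⟩
  · intro e he
    exact (hK.out_iff _).2 (hm e he).2
  · intro d hd
    exact Subtype.ext (eopp_eopp h ((mem_DD h).1 d.2).1)
  · intro e he
    exact eopp_eopp h ((mem_corners h o e).1 he).1
  · intro d hd
    rw [eopp_eopp h ((mem_DD h).1 d.2).1]

theorem out_card (h : OutBox c o n) (hK : IsCx G c o n K s') :
    K.out.card = (corners c n o).card := by
  rw [card_eq_sum_ones, card_eq_sum_ones]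
  exact out_sum h hK (fun _ => 1)

theorem bdy_iff (h : OutBox c o n) (hK : IsCx G c o n K s') (X : ι) :
    RG.Bdy K X ↔ X ≠ o ∧ (Oi c o n X).Nonempty := by
  constructor
  · rintro ⟨d, h1, h2⟩
    rw [hK.F_eq] at h1
    have h3 := (mem_DD h).1 d.2
    rw [← h1]
    exact ⟨h3.2, d.1, mem_filter.2 ⟨(mem_corners h _ _).2 ⟨h3.1, rfl⟩, (hK.out_iff d).1 h2⟩⟩
  · rintro ⟨hX, d, hd⟩
    have h1 := mem_filter.1 hd
    have h2 := (mem_corners h X d).1 h1.1
    refine ⟨⟨d, (mem_DD h).2 ⟨h2.1, by rw [h2.2]; exact hX⟩⟩, ?_, ?_⟩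
    · rw [hK.F_eq]
      exact h2.2
    · exact (hK.out_iff _).2 h1.2

end

end Pool.Agent.Helper38.AS
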