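import Pool.Agent.Helper38.AS.Curve3

/-!
# AS-15: the shifted outer polygon: length and area

`Lp` = the length of the shifted outer polygon, `elen e` = the length of the edge of `o`.
* `Lp_le`: termwise `‖zs (es e) - zs e‖ ≤ lam3 e`: if `ar (enb e) ≥ 2`, the class `i = enb e = c (third e)` (`enb_third`) is not of type `S`; `e = eopp d`, `d = eopp e ∈ Oi i` (`outer_corner`), `zs_nonTS`:
  `‖zs (es e) - zs e‖ = echd ≤ elen` (`faceFacts2`/`echd ≤ elen`; `elen_eopp`).
* `La_le`: `lam3 e - ‖zs (es e) - zs e‖ ≤ elen e` if `ar (enb e) ≥ 2`, `= 0` otherwise.  Regroup by classes (`sum_outer`): `∑_{i, ar i ≥ 2} ∑_{d ∈ Oi i} elen d ≤ ∑_i 200000 dfi i` (`locN`, `dfi_nonneg`;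
  classes with an outer edge are nonempty).
* `seg_le`: type `S`: `‖zs (es e) - zs e‖ ≤ echd + ‖TT‖ + ‖TT‖ ≤ 3.1 + .32` (`cap_sum`: `elen ≤ 3 min 1 a + a/20 ≤ 3.1`, `TT_norm`); otherwise `≤ elen ≤ 200000 dfi i ≤ 200000 SD` (`locN`, `dfi_nonneg`).
* `area_low`: `∑_{corners o} (cr zl zl'/2 + A0 ebul) = ∑ ∑ et = - A0 tot` (`sum_et_outer`, `sum_edges`, definition of `ebul`; as in `outer_curve`); `shift_area`; `A0 |ebul e| ≤ elen²/(2π)` (`edge_half` for
  the class `enb e`, `ebul_eopp`): `≤ elen e / 2` if `ar (enb e) < 2` (`elen ≤ 3.1`), and `∑_{ar ≥ 2} elen² ≤ (∑_{ar ≥ 2} elen)² ≤ (200000 SD)²`.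
  So `- (∑ cr (zs e) (zs (es e)))/2 ≥ A0 tot - Lo/2 - (200000 SD)²/6 - .16 Lo - .0128 (4 La + 10^6 SD)`, and `len_le`: `Lo ≤ 13 La + 10^7 SD`.
-/

namespace Pool.Agent.Helper38.AS

open Finset Real Pool.Agent.Helper98.LC
open Pool.Agent.Helper98.LC3 (c0 et0 Face41 HH CoConn GMin)

variable {ι : Type} [DecidableEq ι] {c : V → ι} {o : ι} {n : ℕ}

/-- the length of the shifted outer polygon -/
noncomputable def Lp (G : Net) (c : V → ι) (o : ι) (n : ℕ) : ℝ :=
  ∑ e ∈ corners c n o, ‖zs G c o n (es c e) - zs G c o n e‖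

private theorem cl_A0 : 0 < A0 := by
  unfold A0
  positivity

/-- the path of the edge which starts at the corner `d` -/
private noncomputable def clp (G : Net) (c : V → ι) (d : V × Fin 6) (t : ℕ) : ℂ :=
  if t % 2 = 0 then G.zl (edart c d (t / 2))
  else G.q (edart c d (t / 2 + 1)).1 (edart c d (t / 2 + 1)).2

private theorem clp_even (G : Net) (c : V → ι) (d : V × Fin 6) (j : ℕ) :
    clp G c d (2 * j) = G.zl (edart c d j) := by
  unfold clp
  rw [if_pos (by omega), show 2 * j / 2 = j by omega]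

private theorem clp_odd (G : Net) (c : V → ι) (d : V × Fin 6) (j : ℕ) :
    clp G c d (2 * j + 1) = G.q (edart c d (j + 1)).1 (edart c d (j + 1)).2 := by
  unfold clp
  rw [if_neg (by omega), show (2 * j + 1) / 2 = j by omega]

private theorem cl_succ (c : V → ι) (d : V × Fin 6) (j : ℕ) :
    edart c d (j + 1) = next c (edart c d j) := by
  unfold edart
  rw [Function.iterate_succ_apply']

private theorem cl_zr (G : Net) (c : V → ι) (d : V × Fin 6) (j : ℕ) :
    G.z (edart c d (j + 1)).1 ((edart c d (j + 1)).2 - 1) = G.zl (edart c d j) := by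
  rw [cl_succ]
  exact zr_next G c _

private theorem cl_plen (G : Net) (c : V → ι) (d : V × Fin 6) (m : ℕ) :
    plen (clp G c d) (2 * m) = ∑ j ∈ Icc 1 m, G.w (edart c d j) := by
  induction m with
  | zero => simp [plen]
  | succ m ih =>
    rw [sum_Icc_succ_top (by omega), ← ih]
    unfold plen
    rw [show 2 * (m + 1) = 2 * m + 1 + 1 by ring, sum_range_succ, sum_range_succ, clp_even,
      clp_odd, show 2 * m + 1 + 1 = 2 * (m + 1) by ring, clp_even]
    unfold Net.w
    rw [cl_zr, add_assoc]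
    rfl

private theorem cl_chd_le (G : Net) (c : V → ι) (d : V × Fin 6) :
    ‖G.zl (es c d) - G.zl d‖ ≤ elen G c d := by
  have h1 := chord_le (clp G c d) (2 * emul c d)
  have h2 : clp G c d (2 * emul c d) = G.zl (es c d) := clp_even G c d (emul c d)
  have h3 : clp G c d 0 = G.zl d := clp_even G c d 0
  have h4 : plen (clp G c d) (2 * emul c d) = elen G c d := cl_plen G c d _
  rw [h2, h3, h4] at h1
  exact h1

private theorem cl_elen (G : Net) (c : V → ι) (d : V × Fin 6) : 0 ≤ elen G c d := by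
  unfold elen
  exact sum_nonneg fun j _ => w_nonneg G _

/-- the corner is not shifted at both ends of an edge if the class is not of type `S` -/
private theorem cl_zs (G : Net) (h : OutBox c o n) {d : V × Fin 6} (hd : IsCorner c d)
    (hb : ¬ TS G c o n (enb c d)) :
    zs G c o n d = G.zl d ∧ zs G c o n (es c d) = G.zl (es c d) := by
  constructor
  · unfold zs TT
    rw [if_neg, sub_zero]
    intro hh
    refine hb ?_
    rw [enb_third hd]
    exact hh.2
  · unfold zs TT
    rw [if_neg, sub_zero]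
    intro hh
    refine hb ?_
    rw [← tip_es h hd]
    exact hh.1

private theorem cl_seg (G : Net) (h : OutBox c o n) {e : V × Fin 6} (he : e ∈ corners c n o)
    (hb : ¬ TS G c o n (enb c e)) :
    ‖zs G c o n (es c e) - zs G c o n e‖ ≤ elen G c e := by
  obtain ⟨z1, z2⟩ := cl_zs G h ((mem_corners h o e).1 he).1 hb
  rw [z1, z2]
  exact cl_chd_le G c e

private theorem cl_SD [Fintype ι] {G : Net} (hg : Good G c o n) : 0 ≤ SD G c o n := by
  classical
  unfold SD
  refine sum_nonneg fun i hi => ?_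
  unfold NC at hi
  rw [mem_filter] at hi
  exact dfi_nonneg hg hi.2.1 hi.2.2

private theorem cl_dfi_le [Fintype ι] {G : Net} (hg : Good G c o n) {i : ι} (hi : i ≠ o)
    (hx : ∃ x, c x = i) : dfi G c o n i ≤ SD G c o n := by
  classical
  unfold SD
  have h1 : i ∈ NC c o := by
    unfold NC
    exact mem_filter.2 ⟨mem_univ _, hi, hx⟩
  refine single_le_sum (f := fun j => dfi G c o n j) (fun j hj => ?_) h1
  unfold NC at hj
  rw [mem_filter] at hj
  exact dfi_nonneg hg hj.2.1 hj.2.2

theorem Lp_le [Fintype ι] {G : Net} (hg : Good G c o n) : Lp G c o n ≤ La G c o n := by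
  unfold Lp La
  refine sum_le_sum fun e he => ?_
  unfold lam3
  split_ifs with h1
  · exact le_rfl
  · exact cl_seg G hg.out he fun h2 => h1 h2.2.2.2

/-- the edges of the large classes -/
private theorem cl_big [Fintype ι] {G : Net} (hg : Good G c o n) :
    ∑ e ∈ corners c n o, (if ar G c n (enb c e) < 2 then 0 else elen G c e) ≤
      200000 * SD G c o n := by
  classical
  have h1 : ∑ e ∈ corners c n o, (if ar G c n (enb c e) < 2 then 0 else elen G c e) =
      ∑ i ∈ univ.filter (fun i => i ≠ o), ∑ d ∈ Oi c o n i,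
        (if ar G c n (enb c (eopp c d)) < 2 then 0 else elen G c (eopp c d)) :=
    (sum_outer hg.out (fun e => if ar G c n (enb c e) < 2 then 0 else elen G c e)).symm
  have h6 : SD G c o n = ∑ i ∈ univ.filter (fun i => i ≠ o),
      if ∃ x, c x = i then dfi G c o n i else 0 := by
    unfold SD NC
    rw [← sum_filter, filter_filter]
  rw [h1, h6, mul_sum]
  refine sum_le_sum fun i hi => ?_
  have hi' : i ≠ o := (mem_filter.1 hi).2
  have h2 : ∑ d ∈ Oi c o n i,
        (if ar G c n (enb c (eopp c d)) < 2 then 0 else elen G c (eopp c d)) =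
      ∑ d ∈ Oi c o n i, (if ar G c n i < 2 then 0 else elen G c d) := by
    refine sum_congr rfl fun d hd => ?_
    have hd' := (mem_corners hg.out i d).1 (mem_filter.1 hd).1
    rw [elen_eopp G hg.out hd'.1, (eopp_corner hg.out hd'.1).2.2.1, hd'.2]
  rw [h2]
  by_cases hx : ∃ x, c x = i
  · rw [if_pos hx]
    have hdf := dfi_nonneg hg hi' hx
    by_cases h3 : ar G c n i < 2
    · rw [sum_congr rfl fun d _ => if_pos h3, sum_const_zero]
      linarith
    · rw [sum_congr rfl fun d _ => if_neg h3]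
      by_cases hO : 1 ≤ (Oi c o n i).card
      · have h7 := locN hg hi' hx (fun h8 => h3 h8.2.2.2) hO
        have h8 : (0 : ℝ) ≤ ((corners c n i).card : ℝ) := Nat.cast_nonneg _
        linarith
      · have h7 : Oi c o n i = ∅ := by
          rw [← Finset.card_eq_zero]
          omega
        rw [h7, sum_empty]
        linarith
  · rw [if_neg hx]
    have h7 : Oi c o n i = ∅ := by
      rw [Finset.eq_empty_iff_forall_notMem]
      intro d hd
      exact hx ⟨d.1, ((mem_corners hg.out i d).1 (mem_filter.1 hd).1).2⟩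
    rw [h7, sum_empty]
    norm_num

theorem La_le [Fintype ι] {G : Net} (hg : Good G c o n) :
    La G c o n ≤ Lp G c o n + 200000 * SD G c o n := by
  refine le_trans ?_ (add_le_add_right (cl_big hg) (Lp G c o n))
  unfold La Lp
  rw [← sum_add_distrib]
  refine sum_le_sum fun e he => ?_
  unfold lam3
  split_ifs with h1
  · rw [add_zero]
  · have := norm_nonneg (zs G c o n (es c e) - zs G c o n e)
    linarith

/-- the length of an outer edge of a small class -/
private theorem cl_small [Fintype ι] {G : Net} (hg : Good G c o n) {d : V × Fin 6}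
    (hd : d ∈ corners c n o) (hsm : ar G c n (enb c d) < 2) :
    elen G c d ≤ 3.1 := by
  obtain ⟨hc, hco⟩ := (mem_corners hg.out o d).1 hd
  obtain ⟨e1, e2, e3, _⟩ := eopp_corner hg.out hc
  have hi : enb c d ≠ o := by
    rw [← hco]
    exact enb_ne hc
  have hd' : eopp c d ∈ corners c n (enb c d) := (mem_corners hg.out _ _).2 ⟨e1, e2⟩
  have hdO : eopp c d ∈ Oi c o n (enb c d) := by
    unfold Oi
    exact mem_filter.2 ⟨hd', e3.trans hco⟩
  have h1 : elen G c (eopp c d) ≤ ∑ x ∈ Oi c o n (enb c d), elen G c x :=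
    single_le_sum (f := fun x => elen G c x) (fun x _ => cl_elen G c x) hdO
  have h1' := hg.cap_sum _ hi
  rw [elen_eopp G hg.out hc] at h1
  have h5 : min 1 (ar G c n (enb c d)) ≤ 1 := min_le_left _ _
  linarith

theorem seg_le [Fintype ι] {G : Net} (hg : Good G c o n) {e : V × Fin 6}
    (he : e ∈ corners c n o) :
    ‖zs G c o n (es c e) - zs G c o n e‖ ≤ 4 + 200000 * SD G c o n := by
  have hSD := cl_SD hg
  by_cases hT : TS G c o n (enb c e)
  · have h1 := cl_small hg he hT.2.2.2
    have h2 := cl_chd_le G c e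
    have a1 := TT_norm hg he
    have a2 := TT_norm hg (es_mem hg.out he)
    have h3 : zs G c o n (es c e) - zs G c o n e =
        (G.zl (es c e) - G.zl e) - (TT G c o n (es c e) - TT G c o n e) := by
      unfold zs
      ring
    have h4 := norm_sub_le (G.zl (es c e) - G.zl e) (TT G c o n (es c e) - TT G c o n e)
    have h5 := norm_sub_le (TT G c o n (es c e)) (TT G c o n e)
    rw [h3]
    linarith
  · have h1 := cl_seg G hg.out he hT
    obtain ⟨hc, hco⟩ := (mem_corners hg.out o e).1 he
    obtain ⟨e1, e2, e3, _⟩ := eopp_corner hg.out hc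
    have hi : enb c e ≠ o := by
      rw [← hco]
      exact enb_ne hc
    have hd' : eopp c e ∈ corners c n (enb c e) := (mem_corners hg.out _ _).2 ⟨e1, e2⟩
    have hdO : eopp c e ∈ Oi c o n (enb c e) := by
      unfold Oi
      exact mem_filter.2 ⟨hd', e3.trans hco⟩
    have h2 : elen G c (eopp c e) ≤ ∑ x ∈ Oi c o n (enb c e), elen G c x :=
      single_le_sum (f := fun x => elen G c x) (fun x _ => cl_elen G c x) hdO
    rw [elen_eopp G hg.out hc] at h2
    have hO : 1 ≤ (Oi c o n (enb c e)).card := Finset.card_pos.2 ⟨_, hdO⟩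
    have h3 := locN hg hi ⟨_, e2⟩ hT hO
    have h4 := cl_dfi_le hg hi ⟨_, e2⟩
    have h5 : (0 : ℝ) ≤ ((corners c n (enb c e)).card : ℝ) := Nat.cast_nonneg _
    linarith

private theorem cl_const : (6 : ℝ) ≤ 2 * π := by
  have h1 : (3.14 : ℝ) < π := Real.pi_gt_d2
  linarith

/-- the bulge of an outer edge -/
private theorem cl_bul [Fintype ι] {G : Net} (hg : Good G c o n) {d : V × Fin 6}
    (hd : d ∈ corners c n o) : 6.2 * (A0 * |ebul G c d|) ≤ elen G c d ^ 2 := by
  obtain ⟨hc, hco⟩ := (mem_corners hg.out o d).1 hd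
  obtain ⟨e1, e2, e3, _⟩ := eopp_corner hg.out hc
  have hi : enb c d ≠ o := by
    rw [← hco]
    exact enb_ne hc
  have hd' : eopp c d ∈ corners c n (enb c d) := (mem_corners hg.out _ _).2 ⟨e1, e2⟩
  have h2 := (faceFacts G hg.out hg.loop hi).dido _ hd' 2 le_rfl
  rw [elen_eopp G hg.out hc, ebul_eopp G hg.out hc, abs_neg] at h2
  have h7 : ((2 : ℕ) : ℝ) = 2 := by norm_num
  rw [h7, Real.cos_pi_div_two, zero_div, mul_zero, zero_mul, zero_add] at h2
  have h1 : (3.14 : ℝ) < π := Real.pi_gt_d2
  have h3 : 0 ≤ A0 * |ebul G c d| := mul_nonneg cl_A0.le (abs_nonneg _)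
  have h4 : 6.2 * (A0 * |ebul G c d|) ≤ 4 * π / 2 * (A0 * |ebul G c d|) :=
    mul_le_mul_of_nonneg_right (by linarith) h3
  linarith

theorem area_low [Fintype ι] {G : Net} (hg : Good G c o n) :
    A0 * tot G c o n - 14 * La G c o n - 10 ^ 8 * SD G c o n - 10 ^ 10 * SD G c o n ^ 2 ≤
      -(∑ e ∈ corners c n o, cr (zs G c o n e) (zs G c o n (es c e))) / 2 := by
  have h1 : ∑ e ∈ corners c n o, (cr (G.zl e) (G.zl (es c e)) / 2 + A0 * ebul G c e) =
      -(A0 * tot G c o n) := by
    refine Eq.trans ?_ (sum_et_outer G hg.out)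
    rw [← sum_edges hg.out hg.loop o]
    refine sum_congr rfl fun e he => ?_
    unfold ebul
    rw [mul_div_cancel₀ _ cl_A0.ne']
    ring
  rw [sum_add_distrib, ← sum_div, ← mul_sum] at h1
  have h2 := abs_le.1 (shift_area hg)
  rw [sum_sub_distrib] at h2
  have h3 : ∑ e ∈ corners c n o, A0 * |ebul G c e| ≤
      Lo G c o n / 2 + (200000 * SD G c o n) ^ 2 / 6 := by
    have h4 : ∀ e ∈ corners c n o, A0 * |ebul G c e| ≤ elen G c e / 2 +
        (if ar G c n (enb c e) < 2 then 0 else elen G c e) ^ 2 / 6 := by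
      intro e he
      have h5 := cl_bul hg he
      have h6 := cl_elen G c e
      have h6' : 0 ≤ A0 * |ebul G c e| := mul_nonneg cl_A0.le (abs_nonneg _)
      split_ifs with h7
      · have h8 := cl_small hg he h7
        nlinarith
      · linarith
    refine (sum_le_sum h4).trans ?_
    rw [sum_add_distrib, ← sum_div, ← sum_div]
    have h9 : ∑ e ∈ corners c n o, (if ar G c n (enb c e) < 2 then 0 else elen G c e) ^ 2 ≤
        (∑ e ∈ corners c n o, (if ar G c n (enb c e) < 2 then 0 else elen G c e)) ^ 2 := by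
      refine sum_sq_le_sq_sum_of_nonneg ?_
      intro e _
      split_ifs
      · exact le_rfl
      · exact cl_elen G c e
    have h10 : (∑ e ∈ corners c n o, (if ar G c n (enb c e) < 2 then 0 else elen G c e)) ^ 2 ≤
        (200000 * SD G c o n) ^ 2 := by
      refine pow_le_pow_left₀ (sum_nonneg fun e _ => ?_) (cl_big hg) 2
      split_ifs
      · exact le_rfl
      · exact cl_elen G c e
    unfold Lo
    linarith
  have h11 : -(∑ e ∈ corners c n o, A0 * |ebul G c e|) ≤ A0 * ∑ e ∈ corners c n o, ebul G c e := by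
    rw [mul_sum, ← sum_neg_distrib]
    refine sum_le_sum fun e _ => ?_
    have h12 : A0 * (-|ebul G c e|) ≤ A0 * ebul G c e :=
      mul_le_mul_of_nonneg_left (neg_abs_le _) cl_A0.le
    linarith
  have h12 := len_le hg
  have h13 := cl_SD hg
  have h14 : 0 ≤ La G c o n := by
    unfold La
    exact sum_nonneg fun e _ => lam3_nonneg G c o n e
  nlinarith [h2.1, h2.2, sq_nonneg (SD G c o n)]

end Pool.Agent.Helper38.AS
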