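import Pool.Agent.Helper38.RG.Final
import Pool.Agent.Helper38.IS.Final

/-!
# AS-13: rigidity and the isoperimetric stability together

`HypL` = the hypothesis `RG.HypF` in terms of the length `L` of the outer polygon.
* `no_cx`: `γ` from `RG.rigid (64 * C)`; given `C'`: `δ1 ≤ 1`, `R0` from `RG.rigid`; `ε` from `IS.iso_stab (δ1)`; `δ = min ε (δ1 / 8)`, `L0 = max 8 (8 * R0) ...` (so that `1 ≤ R`, `R0 ≤ R`).
  `iso_stab` for `O = {d // d ∈ K.out}`, `s = s'`, `z = fun d => za d.1` (`z (s d) = zb d.1`), `L` (`Finset.sum_coe_sort` / `sum_attach`), gives `O1' : Finset O`, `z0`, `R` with `|L - 2πR| ≤ δ1 R`; so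
  `L ≤ (2π + 1) R ≤ 8 R`.  `O1 = O1'.map (Embedding.subtype _)`; sums over `O1` and `K.out \ O1` are sums over `O1'` and `univ \ O1'`.
  `HypF K (64 C) δ1 R df`: `∑ df ≤ δ L ≤ 8 δ R ≤ δ1 R`, `card ≤ C L² ≤ 64 C R²`, `C L ≤ 8 C R`, the others: `C df ≤ 64 C df`.
  `HypM` is literally the hypothesis.  `HypB`: from `iso_stab`.
-/

namespace Pool.Agent.Helper38.AS

open Finset Real Pool.Agent.Helper98.LC Pool.Agent.Helper38.LC2

/-- the hypotheses on the faces in terms of the length `L` -/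
structure HypL {D Fc : Type} [Fintype D] [DecidableEq D] [Fintype Fc] [DecidableEq Fc]
    (K : RG.Cx D Fc) (C δ L : ℝ) (df : Fc → ℝ) : Prop where
  δ_nonneg : 0 ≤ δ
  df_nonneg : ∀ X, 0 ≤ df X
  df_sum : ∑ X, df X ≤ δ * L
  cardD : (Fintype.card D : ℝ) ≤ C * L ^ 2
  cardO : (K.out.card : ℝ) ≤ C * L
  v_le : ∀ d, d ∉ K.out → ‖K.v d‖ ≤ 3
  in_ne : ∀ X, ¬ RG.Bdy K X → (K.fd X).card ≠ 6 → ((K.fd X).card : ℝ) ≤ C * df X
  in_six : ∀ X, ¬ RG.Bdy K X → (K.fd X).card = 6 → ∀ d, K.F d = X →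
    ‖K.v (K.s d) - RG.om * K.v d‖ ^ 2 ≤ C * df X ∧ (‖K.v d‖ - 1) ^ 2 ≤ C * df X
  bd_card : ∀ X, RG.Bdy K X → ((K.fd X).card : ℝ) ≤ 6 + C * df X
  bd_len : ∀ X, RG.Bdy K X →
    ∑ d ∈ (K.fd X).filter (fun d => d ∈ K.out), ‖K.v d‖ ≤ 7 + C * df X

theorem no_cx (C : ℝ) (hC : 1 ≤ C) : ∃ γ > 0, ∀ C' : ℝ, 1 ≤ C' → ∃ δ > 0, ∃ L0 : ℝ,
    ∀ (D Fc : Type) [Fintype D] [DecidableEq D] [Fintype Fc] [DecidableEq Fc] (K : RG.Cx D Fc)
      (L : ℝ) (df : Fc → ℝ) (za zb : D → ℂ) (s' : Equiv.Perm {d // d ∈ K.out}),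
      L0 ≤ L → HypL K C δ L df → RG.HypM K C' γ za zb df →
      (∀ d, zb d.1 = za (s' d).1) → L = ∑ d ∈ K.out, ‖zb d - za d‖ →
      (∀ d ∈ K.out, ‖zb d - za d‖ ≤ δ * L) →
      (1 - δ) * L ^ 2 ≤ 4 * π * ((∑ d ∈ K.out, cr (za d) (zb d)) / 2) → False := by
  obtain ⟨γ, hγ, hr⟩ := RG.rigid (64 * C) (by linarith)
  refine ⟨γ, hγ, fun C' hC' => ?_⟩
  obtain ⟨δ1, hδ1, hδ11, R0, hR⟩ := hr C' hC'
  obtain ⟨ε, hε, hi⟩ := IS.iso_stab δ1 hδ1
  refine ⟨min ε (δ1 / 8), by positivity, max 8 (8 * R0), ?_⟩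
  intro D Fc _ _ _ _ K L df za zb s' hL hH hM hs' hLs hsm hiso
  have hC0 : 0 < C := by linarith
  have hL8 : 8 ≤ L := (le_max_left _ _).trans hL
  have hL0 : 0 < L := by linarith
  have hLR0 : 8 * R0 ≤ L := (le_max_right _ _).trans hL
  have hd1 : min ε (δ1 / 8) ≤ ε := min_le_left _ _
  have hd2 : min ε (δ1 / 8) ≤ δ1 / 8 := min_le_right _ _
  generalize min ε (δ1 / 8) = δ at hd1 hd2 hH hsm hiso
  have e1 : L = ∑ d : {d // d ∈ K.out}, ‖za (s' d) - za d.1‖ := by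
    rw [hLs, ← Finset.sum_coe_sort K.out (fun d => ‖zb d - za d‖)]
    exact Finset.sum_congr rfl fun d _ => by rw [hs' d]
  have e2 : ∑ d ∈ K.out, cr (za d) (zb d) = ∑ d : {d // d ∈ K.out}, cr (za d.1) (za (s' d)) := by
    rw [← Finset.sum_coe_sort K.out (fun d => cr (za d) (zb d))]
    exact Finset.sum_congr rfl fun d _ => by rw [hs' d]
  obtain ⟨O1, z0, R, hRp, hLR, hcl, hnear, htan, hlen, hrest⟩ :=
    hi {d // d ∈ K.out} s' (fun d => za d.1) L e1 hL0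
      (fun d => by
        have := hsm d.1 d.2
        rw [hs' d] at this
        exact this.trans (mul_le_mul_of_nonneg_right hd1 hL0.le))
      (by
        rw [← e2]
        refine le_trans ?_ hiso
        exact mul_le_mul_of_nonneg_right (by linarith) (by positivity))
  have hpi : π < 3.15 := pi_lt_d2
  have hL8R : L ≤ 8 * R := by
    have h1 := (abs_le.1 hLR).2
    nlinarith
  have hR1 : 1 ≤ R := by linarith
  have hRR0 : R0 ≤ R := by linarith
  have hinj : ∀ g : D → ℝ, ∑ d ∈ O1.map (Function.Embedding.subtype _), g d = ∑ d ∈ O1, g d.1 :=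
    fun g => by rw [Finset.sum_map]; rfl
  have hinjc : ∀ g : D → ℂ, ∑ d ∈ O1.map (Function.Embedding.subtype _), g d = ∑ d ∈ O1, g d.1 :=
    fun g => by rw [Finset.sum_map]; rfl
  have hsub : O1.map (Function.Embedding.subtype _) ⊆ K.out := by
    intro d hd
    obtain ⟨e, -, rfl⟩ := Finset.mem_map.1 hd
    exact e.2
  have hL2 : L ^ 2 ≤ 64 * R ^ 2 := by nlinarith
  refine hR D Fc K R z0 df za zb (O1.map (Function.Embedding.subtype _)) hRR0 ?_ hM ?_ hsub ?_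
  · refine ⟨by linarith, hδ1.le, hδ11, hR1, hH.df_nonneg, ?_, ?_, ?_, hH.v_le, ?_, ?_, ?_, ?_⟩
    · calc ∑ X, df X ≤ δ * L := hH.df_sum
        _ ≤ δ1 / 8 * (8 * R) := mul_le_mul hd2 hL8R hL0.le (by positivity)
        _ = δ1 * R := by ring
    · calc (Fintype.card D : ℝ) ≤ C * L ^ 2 := hH.cardD
        _ ≤ C * (64 * R ^ 2) := mul_le_mul_of_nonneg_left hL2 hC0.le
        _ = 64 * C * R ^ 2 := by ring
    · calc (K.out.card : ℝ) ≤ C * L := hH.cardO
        _ ≤ C * (8 * R) := mul_le_mul_of_nonneg_left hL8R hC0.le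
        _ ≤ 64 * C * R := by nlinarith [mul_pos hC0 hRp]
    · intro X h1 h2
      have h3 := hH.in_ne X h1 h2
      nlinarith [mul_nonneg hC0.le (hH.df_nonneg X)]
    · intro X h1 h2 d hd
      have h3 := hH.in_six X h1 h2 d hd
      have h4 := mul_nonneg hC0.le (hH.df_nonneg X)
      exact ⟨h3.1.trans (by nlinarith), h3.2.trans (by nlinarith)⟩
    · intro X h1
      have h3 := hH.bd_card X h1
      nlinarith [mul_nonneg hC0.le (hH.df_nonneg X)]
    · intro X h1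
      have h3 := hH.bd_len X h1
      nlinarith [mul_nonneg hC0.le (hH.df_nonneg X)]
  · refine ⟨hδ1.le, hδ11, hR1, ?_, ?_, ?_, ?_⟩
    · intro g
      rw [hinjc (fun d => g (zb d) - g (za d)), ← hcl g]
      exact Finset.sum_congr rfl fun d _ => by rw [hs' d]
    · intro d hd
      obtain ⟨e, he, rfl⟩ := Finset.mem_map.1 hd
      have := hnear e he
      refine ⟨this.1, ?_⟩
      have h2 := this.2
      rw [← hs' e] at h2
      exact h2
    · rw [hinj (fun d => ‖zb d - za d‖ *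
        ‖RG.dirn (zb d - za d) - Complex.I * ((za d - z0) / R)‖ ^ 2)]
      refine le_trans (le_of_eq ?_) htan
      exact Finset.sum_congr rfl fun d _ => by rw [hs' d]
    · rw [hinj (fun d => ‖zb d - za d‖)]
      refine le_trans (le_of_eq ?_) hlen
      congr 2
      exact Finset.sum_congr rfl fun d _ => by rw [hs' d]
  · refine le_trans (le_of_eq ?_) hrest
    have h5 : ∑ d ∈ K.out \ O1.map (Function.Embedding.subtype _), ‖zb d - za d‖ =
        ∑ d ∈ K.out, ‖zb d - za d‖ - ∑ d ∈ O1.map (Function.Embedding.subtype _), ‖zb d - za d‖ := by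
      rw [eq_sub_iff_add_eq]
      exact Finset.sum_sdiff hsub
    have h6 : ∑ d ∈ univ \ O1, ‖za (s' d) - za d.1‖ =
        ∑ d : {d // d ∈ K.out}, ‖za (s' d) - za d.1‖ - ∑ d ∈ O1, ‖za (s' d) - za d.1‖ := by
      rw [eq_sub_iff_add_eq]
      exact Finset.sum_sdiff (Finset.subset_univ _)
    rw [h5, h6, ← e1, ← hLs, hinj (fun d => ‖zb d - za d‖)]
    congr 1
    exact Finset.sum_congr rfl fun d _ => by rw [hs' d]

end Pool.Agent.Helper38.AS
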