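import Pool.Agent.Helper38.AS.CxB
import Pool.Agent.Helper38.AS.CxL
import Pool.Agent.Helper38.AS.NoCx

/-!
# AS-16: the hypotheses on the faces

`dfo X = dfi X` for the nonempty classes `X ≠ o`, `0` otherwise; `∑ dfo = SD`.  An empty class has no corners.
* `cardO`: `out_card`, `card (corners o) = ∑_{i ≠ o} card (Oi i)` (`card_outer`); type `S`: `1`; otherwise `card (Oi i) ≤ card (corners i) ≤ 200000 dfi i` (`locN`):
  `≤ 4 La + 10^6 SD + 200000 SD` (`count_TS`), `La ≤ L + 200000 SD` (`La_le`), `SD ≤ L`.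
* `cardD`: `card_Dt`; classes without outer edges: `6` corners: `6 ≤ 60 ar i` (`locI_six`: `ar ≥ .1`); otherwise `≤ 100000 dfi i` (`locI_ne`); type `S`: `5`; otherwise `≤ 200000 dfi i` (`locN`).
  Sum `≤ 60 tot + 5 (4 La + 10^6 SD) + 200000 SD`.  `curve3` (`4 π A0 ≥ 32`, `La ≤ 200001 L`, `1 ≤ L`): `tot ≤ La²/32 + 14 La + 10^8 SD ≤ 2 * 10^9 L²`.
* `v_le`: `v_eq`, `echd ≤ elen`, `cap_in`.
* `in_ne`, `in_six`: `bdy_iff` (`X = o`: `fd_o`; empty classes have no corners: `fd_card`), `locI_ne`, `locI_six`.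
* `bd_card`, `bd_len`: type `S`: `card = 5`, `∑_{Oi} echd ≤ ∑ elen ≤ 3.1` (`cap_sum`); otherwise `locN`.
-/

namespace Pool.Agent.Helper38.AS

open Finset Real Pool.Agent.Helper98.LC
open Pool.Agent.Helper98.LC3 (c0 et0 Face41 HH CoConn GMin)

variable {ι : Type} [DecidableEq ι] {c : V → ι} {o : ι} {n : ℕ}

open Classical in
/-- the deficits, zero for the empty classes and for `o` -/
noncomputable def dfo (G : Net) (c : V → ι) (o : ι) (n : ℕ) (X : ι) : ℝ :=
  if X ≠ o ∧ ∃ x, c x = X then dfi G c o n X else 0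

/-- the path of the edge which starts at the corner `d` -/
private noncomputable def cxp (G : Net) (c : V → ι) (d : V × Fin 6) (t : ℕ) : ℂ :=
  if t % 2 = 0 then G.zl (edart c d (t / 2))
  else G.q (edart c d (t / 2 + 1)).1 (edart c d (t / 2 + 1)).2

private theorem cxp_even (G : Net) (c : V → ι) (d : V × Fin 6) (j : ℕ) :
    cxp G c d (2 * j) = G.zl (edart c d j) := by
  unfold cxp
  rw [if_pos (by omega), show 2 * j / 2 = j by omega]

private theorem cxp_odd (G : Net) (c : V → ι) (d : V × Fin 6) (j : ℕ) :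
    cxp G c d (2 * j + 1) = G.q (edart c d (j + 1)).1 (edart c d (j + 1)).2 := by
  unfold cxp
  rw [if_neg (by omega), show (2 * j + 1) / 2 = j by omega]

private theorem cx_succ (c : V → ι) (d : V × Fin 6) (j : ℕ) :
    edart c d (j + 1) = next c (edart c d j) := by
  unfold edart
  rw [Function.iterate_succ_apply']

private theorem cx_zr (G : Net) (c : V → ι) (d : V × Fin 6) (j : ℕ) :
    G.z (edart c d (j + 1)).1 ((edart c d (j + 1)).2 - 1) = G.zl (edart c d j) := by
  rw [cx_succ]
  exact zr_next G c _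

private theorem cx_plen (G : Net) (c : V → ι) (d : V × Fin 6) (m : ℕ) :
    plen (cxp G c d) (2 * m) = ∑ j ∈ Icc 1 m, G.w (edart c d j) := by
  induction m with
  | zero => simp [plen]
  | succ m ih =>
    rw [sum_Icc_succ_top (by omega), ← ih]
    unfold plen
    rw [show 2 * (m + 1) = 2 * m + 1 + 1 by ring, sum_range_succ, sum_range_succ, cxp_even,
      cxp_odd, show 2 * m + 1 + 1 = 2 * (m + 1) by ring, cxp_even]
    unfold Net.w
    rw [cx_zr, add_assoc]
    rfl

private theorem cx_zero (G : Net) (c : V → ι) (d : V × Fin 6) : cxp G c d 0 = G.zl d :=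
  cxp_even G c d 0

private theorem cx_end (G : Net) (c : V → ι) (d : V × Fin 6) :
    cxp G c d (2 * emul c d) = G.zl (es c d) := cxp_even G c d (emul c d)

private theorem cx_len (G : Net) (c : V → ι) (d : V × Fin 6) :
    plen (cxp G c d) (2 * emul c d) = elen G c d := cx_plen G c d _

private theorem cx_chd_le (G : Net) (c : V → ι) (d : V × Fin 6) :
    ‖G.zl (es c d) - G.zl d‖ ≤ elen G c d := by
  have h1 := chord_le (cxp G c d) (2 * emul c d)
  rw [cx_end, cx_zero, cx_len] at h1
  exact h1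


private theorem cx_elen_nonneg (G : Net) (c : V → ι) (d : V × Fin 6) : 0 ≤ elen G c d := by
  unfold elen
  exact sum_nonneg fun j _ => w_nonneg G _

private theorem cx_echd_le (G : Net) (c : V → ι) (d : V × Fin 6) : echd G c d ≤ elen G c d :=
  cx_chd_le G c d

private theorem cx_ex (h : OutBox c o n) {X : ι} (hx : (corners c n X).Nonempty) :
    ∃ x, c x = X := by
  obtain ⟨d, hd⟩ := hx
  exact ⟨d.1, ((mem_corners h X d).1 hd).2⟩

private theorem cx_exO (h : OutBox c o n) {X : ι} (hx : (Oi c o n X).Nonempty) :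
    ∃ x, c x = X := by
  obtain ⟨d, hd⟩ := hx
  exact cx_ex h ⟨d, (mem_filter.1 hd).1⟩

private theorem cx_ar [Fintype ι] {G : Net} (hg : Good G c o n) {X : ι} (hX : X ≠ o) :
    0 ≤ ar G c n X := by
  by_cases hx : ∃ x, c x = X
  · exact (hg.pos X hX hx).le
  · have h1 : (box n).filter (fun x => c x = X) = ∅ := by
      rw [Finset.filter_eq_empty_iff]
      intro x _ h2
      exact hx ⟨x, h2⟩
    unfold ar
    rw [h1, sum_empty, zero_div]

theorem dfo_nonneg [Fintype ι] {G : Net} (hg : Good G c o n) (X : ι) : 0 ≤ dfo G c o n X := by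
  unfold dfo
  split_ifs with h
  · exact dfi_nonneg hg h.1 h.2
  · exact le_refl _

theorem dfo_sum [Fintype ι] (G : Net) (c : V → ι) (o : ι) (n : ℕ) :
    ∑ X, dfo G c o n X = SD G c o n := by
  classical
  unfold dfo SD NC
  rw [Finset.sum_filter]

theorem dfo_eq (G : Net) {X : ι} (hX : X ≠ o) (hx : (corners c n X).Nonempty) :
    dfo G c o n X = dfi G c o n X := by
  unfold dfo
  rw [if_pos]
  refine ⟨hX, ?_⟩
  obtain ⟨d, hd⟩ := hx
  exact ⟨d.1, (mem_filter.1 hd).2.2⟩

private theorem cx_dfo {G : Net} {X : ι} (hX : X ≠ o) (hx : ∃ x, c x = X) :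
    dfo G c o n X = dfi G c o n X := by
  unfold dfo
  rw [if_pos ⟨hX, hx⟩]

open Classical in
private theorem cx_Oi_card [Fintype ι] {G : Net} (hg : Good G c o n) {X : ι} (hX : X ≠ o) :
    ((Oi c o n X).card : ℝ) ≤ (if TS G c o n X then 1 else 0) + 200000 * dfo G c o n X := by
  have h0 := dfo_nonneg hg X
  rcases Finset.eq_empty_or_nonempty (Oi c o n X) with h1 | h1
  · rw [h1, card_empty, Nat.cast_zero]
    split_ifs <;> linarith
  · have hx := cx_exO hg.out h1
    by_cases hT : TS G c o n X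
    · rw [if_pos hT, hT.2.2.1, Nat.cast_one]
      linarith
    · rw [if_neg hT, cx_dfo hX hx]
      have h2 := locN hg hX hx hT (Finset.card_pos.2 h1)
      have h3 : (0 : ℝ) ≤ ∑ d ∈ Oi c o n X, elen G c d :=
        sum_nonneg fun d _ => cx_elen_nonneg G c d
      have h4 : ((Oi c o n X).card : ℝ) ≤ ((corners c n X).card : ℝ) := by
        exact_mod_cast card_le_card (filter_subset _ _)
      linarith

open Classical in
private theorem cx_card [Fintype ι] {G : Net} (hg : Good G c o n) {X : ι} (hX : X ≠ o) :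
    ((corners c n X).card : ℝ) ≤ 60 * ar G c n X + 5 * (if TS G c o n X then 1 else 0) +
      200000 * dfo G c o n X := by
  have h0 := dfo_nonneg hg X
  have ha := cx_ar hg hX
  have hT0 : (0 : ℝ) ≤ if TS G c o n X then 1 else 0 := by
    split_ifs <;> norm_num
  rcases Finset.eq_empty_or_nonempty (corners c n X) with h1 | h1
  · rw [h1, card_empty, Nat.cast_zero]
    linarith
  · have hx := cx_ex hg.out h1
    have hdf := cx_dfo (G := G) (n := n) hX hx
    rcases Finset.eq_empty_or_nonempty (Oi c o n X) with h2 | h2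
    · by_cases h6 : (corners c n X).card = 6
      · have h3 := (locI_six hg hX h2 h6).2.1
        rw [h6]
        push_cast
        linarith
      · have h3 := locI_ne hg hX hx h2 h6
        rw [← hdf] at h3
        linarith
    · by_cases hT : TS G c o n X
      · rw [if_pos hT, hT.2.1]
        push_cast
        linarith
      · have h3 := locN hg hX hx hT (Finset.card_pos.2 h2)
        have h4 : (0 : ℝ) ≤ ∑ d ∈ Oi c o n X, elen G c d :=
          sum_nonneg fun d _ => cx_elen_nonneg G c d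
        rw [← hdf] at h3
        linarith

private theorem cx_le_SD [Fintype ι] {G : Net} (hg : Good G c o n) :
    ∑ X ∈ univ.filter (fun i => i ≠ o), dfo G c o n X ≤ SD G c o n := by
  rw [← dfo_sum]
  exact sum_le_sum_of_subset_of_nonneg (filter_subset _ _) fun X _ _ => dfo_nonneg hg X

open Classical in
private theorem cx_TS_sum [Fintype ι] {G : Net} (hg : Good G c o n) :
    ∑ X ∈ univ.filter (fun i => i ≠ o), (if TS G c o n X then (1 : ℝ) else 0) ≤
      4 * La G c o n + 10 ^ 6 * SD G c o n := by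
  refine le_trans ?_ (count_TS hg)
  rw [← sum_filter, sum_const, nsmul_eq_mul, mul_one]
  have h1 : (univ.filter (fun i => i ≠ o)).filter (fun i => TS G c o n i) ⊆
      univ.filter fun i => TS G c o n i := by
    intro i hi
    exact mem_filter.2 ⟨mem_univ _, (mem_filter.1 hi).2⟩
  exact_mod_cast card_le_card h1

private theorem cx_mem [Fintype ι] {G : Net} (hg : Good G c o n) {K : RG.Cx (Dt c o n) ι}
    {s' : Equiv.Perm {d // d ∈ K.out}} (hK : IsCx G c o n K s') (d : Dt c o n) :
    d.1 ∈ corners c n (K.F d) ∧ K.F d ≠ o := by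
  have h1 := (mem_DD hg.out).1 d.2
  rw [hK.F_eq]
  exact ⟨(mem_corners hg.out _ _).2 ⟨h1.1, rfl⟩, h1.2⟩

theorem hypL [Fintype ι] {G : Net} (hg : Good G c o n) {K : RG.Cx (Dt c o n) ι}
    {s' : Equiv.Perm {d // d ∈ K.out}} (hK : IsCx G c o n K s') {δ : ℝ} (hδ : 0 ≤ δ)
    (hδ1 : δ ≤ 1) (hL : 1 ≤ Lp G c o n) (hS : SD G c o n ≤ δ * Lp G c o n) :
    HypL K (10 ^ 14) δ (Lp G c o n) (dfo G c o n) := by
  classical
  have h := hg.out
  have hS0 : 0 ≤ SD G c o n := by
    rw [← dfo_sum]
    exact sum_nonneg fun X _ => dfo_nonneg hg X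
  set L := Lp G c o n with hLdef
  set S := SD G c o n with hSdef
  have hSL : S ≤ L := hS.trans (by nlinarith)
  have hLa : La G c o n ≤ 200001 * L := by
    have := La_le hg
    linarith
  have hLa0 : 0 ≤ La G c o n := sum_nonneg fun e _ => lam3_nonneg G c o n e
  have hL2 : L ≤ L ^ 2 := by nlinarith
  have hvn : ∀ d, ‖K.v d‖ = echd G c d.1 := fun d => by
    rw [v_eq hK d]
    rfl
  refine ⟨hδ, dfo_nonneg hg, ?_, ?_, ?_, ?_, ?_, ?_, ?_, ?_⟩
  · rw [dfo_sum]
    exact hS
  · rw [card_Dt h, Nat.cast_sum]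
    have h1 : ∑ i ∈ univ.filter (fun i => i ≠ o), ((corners c n i).card : ℝ) ≤
        ∑ i ∈ univ.filter (fun i => i ≠ o), (60 * ar G c n i +
          5 * (if TS G c o n i then 1 else 0) + 200000 * dfo G c o n i) :=
      sum_le_sum fun i hi => cx_card hg (mem_filter.1 hi).2
    rw [sum_add_distrib, sum_add_distrib, ← mul_sum, ← mul_sum, ← mul_sum] at h1
    have h2 := cx_le_SD hg
    have h3 := cx_TS_sum hg
    have h4 : ∑ i ∈ univ.filter (fun i => i ≠ o), ar G c n i = tot G c o n := rfl
    rw [h4] at h1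
    have h5 := curve3 hg
    have h6 : (32 : ℝ) ≤ 4 * π * A0 := by
      unfold A0
      have h7 : (3.14 : ℝ) < π := Real.pi_gt_d2
      have h8 : (1.73 : ℝ) ≤ √3 := by
        refine Real.le_sqrt_of_sq_le ?_
        norm_num
      nlinarith
    have h7 : 32 * (tot G c o n - 14 * La G c o n - 10 ^ 8 * SD G c o n) ≤ La G c o n ^ 2 := by
      rcases le_or_gt 0 (tot G c o n - 14 * La G c o n - 10 ^ 8 * SD G c o n) with h8 | h8
      · refine le_trans ?_ h5
        rw [← mul_assoc]
        exact mul_le_mul_of_nonneg_right h6 h8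
      · have := sq_nonneg (La G c o n)
        linarith
    have h8 : La G c o n ^ 2 ≤ 200001 ^ 2 * L ^ 2 := by
      rw [← mul_pow]
      exact pow_le_pow_left₀ hLa0 hLa 2
    have h9 : SD G c o n ≤ L ^ 2 := hSL.trans hL2
    have h10 : La G c o n ≤ 200001 * L ^ 2 := hLa.trans (by nlinarith)
    norm_num at h7 h8 ⊢
    nlinarith
  · rw [out_card h hK, ← card_outer h, Nat.cast_sum]
    have h1 : ∑ i ∈ univ.filter (fun i => i ≠ o),
        (((corners c n i).filter (fun d => enb c d = o)).card : ℝ) ≤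
        ∑ i ∈ univ.filter (fun i => i ≠ o), ((if TS G c o n i then 1 else 0) +
          200000 * dfo G c o n i) :=
      sum_le_sum fun i hi => cx_Oi_card hg (mem_filter.1 hi).2
    rw [sum_add_distrib, ← mul_sum] at h1
    have h2 := cx_le_SD hg
    have h3 := cx_TS_sum hg
    refine h1.trans ?_
    norm_num at h3 ⊢
    linarith
  · intro d hd
    have h1 := cx_mem hg hK d
    have h2 : enb c d.1 ≠ o := fun h3 => hd ((hK.out_iff d).2 h3)
    have h3 := hg.cap_in _ h1.2 _ h1.1 h2
    rw [hvn]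
    refine (cx_echd_le G c d.1).trans (h3.trans ?_)
    have := min_le_left 1 (ar G c n (K.F d))
    linarith
  · intro X hX h6
    have h0 := dfo_nonneg hg X
    by_cases hXo : X = o
    · rw [hXo, fd_o h hK, card_empty, Nat.cast_zero]
      exact mul_nonneg (by norm_num) (dfo_nonneg hg o)
    · have hO : Oi c o n X = ∅ := by
        by_contra h1
        exact hX ((bdy_iff h hK X).2 ⟨hXo, Finset.nonempty_iff_ne_empty.2 h1⟩)
      rw [fd_card h hK hXo] at h6 ⊢
      rcases Finset.eq_empty_or_nonempty (corners c n X) with h1 | h1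
      · rw [h1, card_empty, Nat.cast_zero]
        exact mul_nonneg (by norm_num) h0
      · have h3 := locI_ne hg hXo (cx_ex h h1) hO h6
        rw [← dfo_eq G hXo h1] at h3
        nlinarith
  · intro X hX h6 d hd
    by_cases hXo : X = o
    · rw [hXo, fd_o h hK, card_empty] at h6
      omega
    · have hO : Oi c o n X = ∅ := by
        by_contra h1
        exact hX ((bdy_iff h hK X).2 ⟨hXo, Finset.nonempty_iff_ne_empty.2 h1⟩)
      rw [fd_card h hK hXo] at h6
      have h1 := (cx_mem hg hK d).1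
      rw [hd] at h1
      have h2 := locI_six hg hXo hO h6
      obtain ⟨h3, h4⟩ := h2.2.2 _ h1
      rw [← dfo_eq G hXo ⟨_, h1⟩] at h3 h4
      have h0 := dfo_nonneg hg X
      have e1 : K.v (K.s d) = G.zl (es c (es c d.1)) - G.zl (es c d.1) := by
        rw [v_eq hK, hK.s_val]
      have e2 : K.v d = G.zl (es c d.1) - G.zl d.1 := v_eq hK d
      rw [e1, e2]
      exact ⟨h3.trans (by nlinarith), h4.trans (by nlinarith)⟩
  · intro X hX
    obtain ⟨hXo, hO⟩ := (bdy_iff h hK X).1 hX
    have hx := cx_exO h hO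
    rw [fd_card h hK hXo]
    have h0 := dfo_nonneg hg X
    by_cases hT : TS G c o n X
    · rw [hT.2.1]
      norm_num at h0 ⊢
      linarith
    · have h2 := locN hg hXo hx hT (Finset.card_pos.2 hO)
      rw [← cx_dfo hXo hx] at h2
      have h3 : (0 : ℝ) ≤ ∑ d ∈ Oi c o n X, elen G c d :=
        sum_nonneg fun d _ => cx_elen_nonneg G c d
      nlinarith
  · intro X hX
    obtain ⟨hXo, hO⟩ := (bdy_iff h hK X).1 hX
    have hx := cx_exO h hO
    have h0 := dfo_nonneg hg X
    have e1 : ∑ d ∈ (K.fd X).filter (fun d => d ∈ K.out), ‖K.v d‖ =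
        ∑ d ∈ Oi c o n X, echd G c d := by
      rw [← fd_out_sum h hK hXo (fun d => echd G c d)]
      exact sum_congr rfl fun d _ => hvn d
    rw [e1]
    have e2 : ∑ d ∈ Oi c o n X, echd G c d ≤ ∑ d ∈ Oi c o n X, elen G c d :=
      sum_le_sum fun d _ => cx_echd_le G c d
    refine e2.trans ?_
    by_cases hT : TS G c o n X
    · have h2 := hg.cap_sum X hXo
      have h3 := min_le_left 1 (ar G c n X)
      have h4 := hT.2.2.2
      nlinarith
    · have h2 := locN hg hXo hx hT (Finset.card_pos.2 hO)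
      rw [← cx_dfo hXo hx] at h2
      have h3 : (0 : ℝ) ≤ ((corners c n X).card : ℝ) := Nat.cast_nonneg _
      nlinarith

end Pool.Agent.Helper38.AS
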