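import Pool.Agent.Helper38.AS.SLem
import Pool.Agent.Helper38.RG.Defs
import Pool.Agent.Helper98.LC3.S.Arc
import Pool.Agent.Helper98.LC3.S.Star

/-!
# AS-12: soft stability of the sharp inequality for type `S`

`V = -(b1 + b2)`, `W = (b1 - b2)/2`, `x = W - I V/(2 √3) = (b1 - b2)/2 + I (b1 + b2)/(2 √3)`.
* `tri_stab`: `v = ‖V‖ ≥ √3 - 2t > 0`, `e = V/v`, `p1 = e (-√3/2 + I/2)`, `p2 = e (-√3/2 - I/2)` (unit vectors).  `cr b1 b2 = cr V W = v * ip (I e) W`;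
  `ip p1 b1 + ip p2 b2 = √3 v/2 + ip (I e) W` (`b1 = -V/2 + W`, `b2 = -V/2 - W`, `p1 + p2 = -√3 e`, `p1 - p2 = I e`).
  `‖b‖ - ip p b ≥ (cr p b)²/(2 ‖b‖) ≥ (cr p b)²/6` (`‖b‖² = (ip p b)² + (cr p b)²`; clear if `ip p b ≤ 0`...).  `cr p1 b1 = cr p1 x`, `cr p2 b2 = - cr p2 x` (`-V/2 + I V/(2√3) = (v/√3) p1`), and
  `(cr p1 x)² + (cr p2 x)² ≥ ‖x‖²/2`.  So the left side of the claim is `≤`: `√3/2 (‖b1‖ + ‖b2‖) - v ip (I e) W/2 ≥ √3/2 (√3 v/2) + (√3 - v)/2 ip (I e) W + √3/24 ‖x‖²`,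
  `|ip (I e) W| ≤ ‖W‖ ≤ 3`, `3v/4 ≥ 3√3/4 - 3t/2`, `√3/24 ≥ 1/15`.
* `s_slack`: `master1` with `τ = √3`: `rr √3 = √3`, `√3/2 * τ² = 3√3/2`, `pent_eq` (`LC3/S/Geom.lean`): `pent = cr N M + cr b1 b2/2`, `N = (D - (b1 + b2))/2 = D + U`, `U = (s1 + s2)/2`, `M = (s1 - s2)/2`.
  `cr N M ≤ ‖N‖ ‖M‖ ≤ (√3 + t) ‖M‖`, `2 ‖M‖ ≤ ‖s1‖ + ‖s2‖`, `‖M‖ ≤ 3`.  `V = N + U`, `D = N - U`.
  `√3 L - A0 yO ≥ π/2 + 3√3/4 - 3.2 t`: `arc_six` (`‖D‖ ≤ √3`) or `arc_cub` (`√3 ≤ ‖D‖ ≤ √3 + 2t`) with `r = √3` (`L ≤ 3.1`), `g0 = 1/√3 - π/6`.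
  `D' = D - et0 s1 - et0 s2 = N - (1 + 2 et0) U`, `‖D'‖ ≤ √3 + 2.11 t`, `c0 = π/6 ≤ .5236`.  Sum: `‖x‖²/15 ≤ 15 t`.
* `s_stab`: `Δ` = the slack, `t = √(1000 Δ)` (`sL2`; `Δ ≤ t` if `t ≤ 1000`).  If `t ≤ t0` (small, depending on `γ`): `‖x‖² ≤ 400 t`.
  Sum: `s1 + b1 + b2 + s2 + D' = -D + D' = - 2 et0 U`.  Seventh powers: `q1 = -1/2 + I/(2√3)`, `q2 = -1/2 - I/(2√3)`, `q1^7 + q2^7 = 1/27`, `b1 = V q1 + x`, `b2 = V q2 - x`, all norms `≤ 3`: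
  `‖a^7 - b^7‖ ≤ 7 * 3^6 ‖a - b‖` for `‖a‖, ‖b‖ ≤ 3`; `‖s1^7 + s2^7‖ ≤ 7 * 3^6 * 2t` (`s1 - (-s2) = 2U`); `dirn D'^6 * D' = D'^7/‖D'‖^6`, `‖V - D'‖ ≤ 2.11 t`.
  Altogether `≤ 10^6 √t`.  If `t > t0`: everything is bounded by `10^5` and `Δ = t²/1000 ≥ t0²/1000`.
-/

namespace Pool.Agent.Helper38.AS

open Finset Real Pool.Agent.Helper98.LC
open Pool.Agent.Helper98.LC3 (c0 et0 Face41 HH CoConn GMin)

private lemma ss_s3 : √3 * √3 = 3 := Real.mul_self_sqrt (by norm_num)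

private lemma ss_s3_lb : 1.73 < √3 := by
  rw [Real.lt_sqrt (by norm_num)]
  norm_num

private lemma ss_s3_ub : √3 < 1.733 := by
  rw [Real.sqrt_lt' (by norm_num)]
  norm_num

private lemma ss_norm_sq (a : ℂ) : ‖a‖ ^ 2 = a.re * a.re + a.im * a.im := by
  rw [Complex.sq_norm, Complex.normSq_apply]

/-- a lower bound for the length by a projection -/
private lemma len_low {n A B : ℝ} (h0 : 0 ≤ n) (h1 : n ≤ 3) (h : n ^ 2 = A ^ 2 + B ^ 2) :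
    A + B ^ 2 / 6 ≤ n := by
  have h2 : A ^ 2 ≤ n ^ 2 := by nlinarith
  have h3 := abs_le.1 (abs_le_of_sq_le_sq h2 h0)
  have h4 : (n - A) * (n + A) = B ^ 2 := by linear_combination h
  nlinarith [h3.1, h3.2]

private lemma tri_real {u s v t n1 n2 : ℝ} (ht : 0 ≤ t) (hv : |v - √3| ≤ 2 * t)
    (h1 : n1 ^ 2 = (u - v / 2) ^ 2 + s ^ 2) (h2 : n2 ^ 2 = (u + v / 2) ^ 2 + s ^ 2)
    (h10 : 0 ≤ n1) (h13 : n1 ≤ 3) (h20 : 0 ≤ n2) (h23 : n2 ≤ 3) :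
    3 * √3 / 4 - 5 * t + 1 / 15 * (u ^ 2 + (s - v * √3 / 6) ^ 2) ≤
      √3 * (n1 + n2) / 2 - v * s / 2 := by
  have hs3 := ss_s3
  have hlb := ss_s3_lb
  have hub := ss_s3_ub
  have a1 := len_low (A := (-(√3 * (u - v / 2)) + s) / 2) (B := (√3 * s + (u - v / 2)) / 2) h10 h13
    (by linear_combination h1 - ((u - v / 2) ^ 2 + s ^ 2) / 4 * hs3)
  have a2 := len_low (A := (√3 * (u + v / 2) + s) / 2) (B := (√3 * s - (u + v / 2)) / 2) h20 h23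
    (by linear_combination h2 - ((u + v / 2) ^ 2 + s ^ 2) / 4 * hs3)
  have hsum : √3 * v / 2 + s + (3 * (s - v * √3 / 6) ^ 2 + u ^ 2) / 12 ≤ n1 + n2 := by
    have e1 : (-(√3 * (u - v / 2)) + s) / 2 + (√3 * (u + v / 2) + s) / 2 = √3 * v / 2 + s := by
      ring
    have e2 : ((√3 * s + (u - v / 2)) / 2) ^ 2 / 6 + ((√3 * s - (u + v / 2)) / 2) ^ 2 / 6 =
        (3 * (s - v * √3 / 6) ^ 2 + u ^ 2) / 12 := by
      linear_combination (s ^ 2 / 12 - v ^ 2 / 144) * hs3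
    linarith
  have hs : |s| ≤ 3 := by
    refine abs_le_of_sq_le_sq ?_ (by norm_num)
    nlinarith [sq_nonneg (u - v / 2)]
  have hvs : |(√3 - v) * s| ≤ 6 * t := by
    rw [abs_mul, abs_sub_comm]
    calc |v - √3| * |s| ≤ 2 * t * 3 := mul_le_mul hv hs (abs_nonneg _) (by linarith)
      _ = 6 * t := by ring
  have hvs' := (abs_le.1 hvs).1
  have hv' := (abs_le.1 hv).1
  have hX : 0 ≤ u ^ 2 + (s - v * √3 / 6) ^ 2 := by positivity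
  have hle : (u ^ 2 + (s - v * √3 / 6) ^ 2) / 12 ≤ (3 * (s - v * √3 / 6) ^ 2 + u ^ 2) / 12 := by
    nlinarith [sq_nonneg (s - v * √3 / 6)]
  generalize u ^ 2 + (s - v * √3 / 6) ^ 2 = X at hX hle ⊢
  have hsum2 : √3 * v / 2 + s + X / 12 ≤ n1 + n2 := by linarith
  have h5 : √3 / 2 * (√3 * v / 2 + s + X / 12) ≤ √3 / 2 * (n1 + n2) :=
    mul_le_mul_of_nonneg_left hsum2 (by positivity)
  have h6 : √3 / 2 * (√3 * v / 2 + s + X / 12) = 3 * v / 4 + √3 * s / 2 + √3 / 24 * X := by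
    linear_combination v / 4 * hs3
  have h7 : 1 / 15 * X ≤ √3 / 24 * X := mul_le_mul_of_nonneg_right (by linarith) hX
  nlinarith

private lemma ss_cr_le (a b : ℂ) : cr a b ≤ ‖a‖ * ‖b‖ := by
  have h1 : cr a b = ((starRingEnd ℂ) a * b).im := by
    unfold cr
    simp [Complex.mul_im]
    ring
  rw [h1]
  refine (Complex.im_le_norm _).trans ?_
  rw [norm_mul, Complex.norm_conj]

private lemma ss_cap {a : ℝ} {D s1 b1 b2 s2 : ℂ} {L l1 l2 l3 l4 yO y1 y2 y3 y4 : ℝ}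
    (h : Face41 a D s1 b1 b2 s2 L l1 l2 l3 l4 yO y1 y2 y3 y4) :
    ‖s1‖ ≤ 3 ∧ ‖b1‖ ≤ 3 ∧ ‖b2‖ ≤ 3 ∧ ‖s2‖ ≤ 3 ∧ L ≤ 3.1 ∧ ‖D‖ ≤ L := by
  have hm : min 1 a ≤ 1 := min_le_left _ _
  have h1 := h.e1.le
  have h2 := h.e2.le
  have h3 := h.e3.le
  have h4 := h.e4.le
  have c0 := h.capO
  have c1 := h.cap1
  have c2 := h.cap2
  have c3 := h.cap3
  have c4 := h.cap4
  have hlt := h.lt
  refine ⟨by linarith, by linarith, by linarith, by linarith, by linarith, h.eO.le⟩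

private lemma ss_arc {a : ℝ} {D s1 b1 b2 s2 : ℂ} {L l1 l2 l3 l4 yO y1 y2 y3 y4 : ℝ}
    (h : Face41 a D s1 b1 b2 s2 L l1 l2 l3 l4 yO y1 y2 y3 y4) {t : ℝ} (ht : 0 ≤ t)
    (ht1 : t ≤ 1 / 100) (hD : |‖D‖ - √3| ≤ 2 * t) :
    π / 2 + 3 * √3 / 4 - 3.2 * t ≤ √3 * L - A0 * yO := by
  have hs3 := ss_s3
  have hlb := ss_s3_lb
  have hub := ss_s3_ub
  obtain ⟨-, -, -, -, hL, -⟩ := ss_cap h
  have hD' := abs_le.1 hD
  have hg : 3 * Pool.Agent.Helper98.LC3.g0 = √3 - π / 2 := by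
    have h1 : 1 / √3 = √3 / 3 := by
      rw [div_eq_div_iff (by positivity) (by norm_num)]
      linarith
    unfold Pool.Agent.Helper98.LC3.g0
    rw [h1]
    ring
  have e1 : ∀ d : ℝ, 2 / √3 * √3 * d = 2 * d := by
    intro d
    rw [div_mul_cancel₀ _ (by positivity)]
  have e2 : ∀ d : ℝ, d ^ 2 / (4 * √3) = d ^ 2 * √3 / 12 := by
    intro d
    rw [div_eq_div_iff (by positivity) (by norm_num)]
    linear_combination (-(4 * d ^ 2)) * hs3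
  have e3 : ∀ d : ℝ, d ^ 2 * √3 / 12 = √3 / 4 + (d - √3) / 2 + (d - √3) ^ 2 * √3 / 12 := by
    intro d
    linear_combination (d / 6 - √3 / 12) * hs3
  rcases le_total ‖D‖ √3 with hc | hc
  · have h1 := Pool.Agent.Helper98.LC3.arc_six h.eO (r := √3) (by linarith) hc (by linarith)
    rw [e1, e2, e3] at h1
    have h2 : (‖D‖ - √3) ^ 2 * √3 / 12 ≤ 0.1 * t := by
      have h3 : (‖D‖ - √3) ^ 2 ≤ (2 * t) ^ 2 := by
        rw [← sq_abs]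
        exact pow_le_pow_left₀ (abs_nonneg _) hD 2
      have h4 : (‖D‖ - √3) ^ 2 * √3 ≤ (2 * t) ^ 2 * 1.733 :=
        mul_le_mul h3 hub.le (by positivity) (by positivity)
      nlinarith
    have h5 : -Pool.Agent.Helper98.LC3.g0 * √3 ^ 2 = -(3 * Pool.Agent.Helper98.LC3.g0) := by
      linear_combination (-Pool.Agent.Helper98.LC3.g0) * hs3
    rw [h5, hg] at h1
    linarith
  · have h1 := Pool.Agent.Helper98.LC3.arc_cub h.eO (r := √3) (by linarith) hc (by linarith)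
      (by linarith)
    rw [e1, e2, e3] at h1
    have h2 : (‖D‖ - √3) ^ 2 * √3 / 12 ≤ 0.1 * (‖D‖ - √3) := by
      have h3 : (‖D‖ - √3) ^ 2 ≤ 0.02 * (‖D‖ - √3) := by nlinarith
      have h4 : (‖D‖ - √3) ^ 2 * √3 ≤ 0.02 * (‖D‖ - √3) * 1.733 :=
        mul_le_mul h3 hub.le (by positivity) (by nlinarith)
      linarith
    have h6 : (‖D‖ - √3) ^ 3 / (12 * √3) ≤ 0.1 * (‖D‖ - √3) := by
      rw [div_le_iff₀ (by positivity)]
      have h3 : (‖D‖ - √3) ^ 2 ≤ 1 := by nlinarith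
      have h4 : (‖D‖ - √3) ^ 3 ≤ 1 * (‖D‖ - √3) := by
        have := mul_le_mul_of_nonneg_right h3 (sub_nonneg.2 hc)
        calc (‖D‖ - √3) ^ 3 = (‖D‖ - √3) ^ 2 * (‖D‖ - √3) := by ring
          _ ≤ _ := this
      nlinarith
    have h5 : -Pool.Agent.Helper98.LC3.g0 * √3 ^ 2 = -(3 * Pool.Agent.Helper98.LC3.g0) := by
      linear_combination (-Pool.Agent.Helper98.LC3.g0) * hs3
    rw [h5, hg] at h1
    linarith

/-- the shifted outer side -/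
private lemma ss_D' (D s1 s2 : ℂ) {t : ℝ} (ht : 0 ≤ t)
    (hU : ‖(s1 + s2) / 2‖ ≤ t) (hN : |‖D + (s1 + s2) / 2‖ - √3| ≤ t) :
    |‖D - (et0 : ℂ) * s1 - (et0 : ℂ) * s2‖ - √3| ≤ 2.11 * t ∧
    ‖(D + (s1 + s2)) - (D - (et0 : ℂ) * s1 - (et0 : ℂ) * s2)‖ ≤ 2.11 * t ∧
    |‖D‖ - √3| ≤ 2 * t ∧ |‖D + (s1 + s2)‖ - √3| ≤ 2 * t := by
  have het := Pool.Agent.Helper98.LC3.et0_num
  have hN' := abs_le.1 hN
  have hcoef : ∀ (z w : ℂ) (c : ℝ), 0 ≤ c → z - w = (c : ℂ) * ((s1 + s2) / 2) →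
      ‖z - w‖ ≤ c * t := by
    intro z w c hc hzw
    rw [hzw, norm_mul, Complex.norm_real, Real.norm_eq_abs, abs_of_nonneg hc]
    exact mul_le_mul_of_nonneg_left hU hc
  have hdist : ∀ (z w : ℂ) (c : ℝ), 0 ≤ c → z - w = (c : ℂ) * ((s1 + s2) / 2) →
      |‖z‖ - ‖w‖| ≤ c * t := fun z w c hc hzw =>
    (abs_norm_sub_norm_le z w).trans (hcoef z w c hc hzw)
  have h1 := hdist (D + (s1 + s2) / 2) (D - (et0 : ℂ) * s1 - (et0 : ℂ) * s2) (1 + 2 * et0)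
    (by linarith) (by push_cast; ring)
  have h2 := hcoef (D + (s1 + s2)) (D - (et0 : ℂ) * s1 - (et0 : ℂ) * s2) (2 + 2 * et0)
    (by linarith) (by push_cast; ring)
  have h3 := hdist (D + (s1 + s2) / 2) D 1 (by norm_num) (by push_cast; ring)
  have h4 := hdist (D + (s1 + s2)) (D + (s1 + s2) / 2) 1 (by norm_num) (by push_cast; ring)
  have k1 := abs_le.1 h1
  have k3 := abs_le.1 h3
  have k4 := abs_le.1 h4
  have m1 : (1 + 2 * et0) * t ≤ 1.11 * t := mul_le_mul_of_nonneg_right (by linarith) ht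
  have m2 : (2 + 2 * et0) * t ≤ 2.11 * t := mul_le_mul_of_nonneg_right (by linarith) ht
  refine ⟨abs_le.2 ⟨by linarith, by linarith⟩, by linarith, abs_le.2 ⟨by linarith, by linarith⟩,
    abs_le.2 ⟨by linarith, by linarith⟩⟩

theorem tri_stab (b1 b2 : ℂ) (h1 : ‖b1‖ ≤ 3) (h2 : ‖b2‖ ≤ 3) {t : ℝ} (ht : 0 ≤ t)
    (ht1 : t ≤ 1 / 100) (hV : |‖b1 + b2‖ - √3| ≤ 2 * t) :
    3 * √3 / 4 - 5 * t +
      1 / 15 * ‖(b1 - b2) / 2 + Complex.I * (b1 + b2) / (2 * (√3 : ℂ))‖ ^ 2 ≤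
      √3 * (‖b1‖ + ‖b2‖) / 2 - cr b1 b2 / 2 := by
  have hs3 := ss_s3
  have hlb := ss_s3_lb
  set V : ℂ := -(b1 + b2) with hVdef
  have hVn : ‖V‖ = ‖b1 + b2‖ := by rw [hVdef, norm_neg]
  rw [← hVn] at hV
  have hv0 : 0 < ‖V‖ := by
    have := (abs_le.1 hV).1
    linarith
  obtain ⟨v, hv⟩ : ∃ v : ℝ, v = ‖V‖ := ⟨_, rfl⟩
  rw [← hv] at hV hv0
  have hVsq : v ^ 2 = V.re * V.re + V.im * V.im := by rw [hv]; exact ss_norm_sq V
  obtain ⟨er, her⟩ : ∃ er : ℝ, er = V.re / v := ⟨_, rfl⟩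
  obtain ⟨ei, hei⟩ : ∃ ei : ℝ, ei = V.im / v := ⟨_, rfl⟩
  have hre : V.re = v * er := by rw [her]; field_simp
  have him : V.im = v * ei := by rw [hei]; field_simp
  have hunit : er ^ 2 + ei ^ 2 = 1 := by
    have h3 : v ^ 2 * (er ^ 2 + ei ^ 2) = v ^ 2 * 1 := by
      rw [mul_one]
      nth_rewrite 2 [hVsq]
      rw [hre, him]
      ring
    exact mul_left_cancel₀ (by positivity) h3
  have hb1r : b1.re = (b1.re - b2.re) / 2 - v * er / 2 := by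
    rw [← hre, hVdef, Complex.neg_re, Complex.add_re]
    ring
  have hb1i : b1.im = (b1.im - b2.im) / 2 - v * ei / 2 := by
    rw [← him, hVdef, Complex.neg_im, Complex.add_im]
    ring
  have hb2r : b2.re = -((b1.re - b2.re) / 2) - v * er / 2 := by
    rw [← hre, hVdef, Complex.neg_re, Complex.add_re]
    ring
  have hb2i : b2.im = -((b1.im - b2.im) / 2) - v * ei / 2 := by
    rw [← him, hVdef, Complex.neg_im, Complex.add_im]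
    ring
  have hn1 := ss_norm_sq b1
  have hn2 := ss_norm_sq b2
  have hx : ‖(b1 - b2) / 2 + Complex.I * (b1 + b2) / (2 * (√3 : ℂ))‖ ^ 2 =
      ((b1.re - b2.re) / 2 + v * ei * √3 / 6) ^ 2 +
        ((b1.im - b2.im) / 2 - v * er * √3 / 6) ^ 2 := by
    have e1 : (b1 - b2) / 2 + Complex.I * (b1 + b2) / (2 * (√3 : ℂ)) =
        ⟨(b1.re - b2.re) / 2 + v * ei * √3 / 6, (b1.im - b2.im) / 2 - v * er * √3 / 6⟩ := by
      have e2 : b1 + b2 = -V := by rw [hVdef, neg_neg]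
      have e3 : Complex.I * (b1 + b2) / (2 * (√3 : ℂ)) =
          Complex.I * (-V) * ((√3 / 6 : ℝ) : ℂ) := by
        rw [e2]
        have h4 : (2 * (√3 : ℂ)) ≠ 0 := by
          have : (√3 : ℂ) ≠ 0 := by
            have h5 : (√3 : ℝ) ≠ 0 := by positivity
            exact_mod_cast h5
          exact mul_ne_zero two_ne_zero this
        rw [div_eq_iff h4]
        have h5 : ((√3 / 6 : ℝ) : ℂ) * (2 * (√3 : ℂ)) = 1 := by
          have h6 : (√3 / 6) * (2 * √3) = 1 := by linear_combination hs3 / 3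
          exact_mod_cast h6
        rw [mul_assoc, h5, mul_one]
      rw [e3]
      apply Complex.ext
      · simp only [Complex.add_re, Complex.mul_re, Complex.mul_im, Complex.I_re, Complex.I_im,
          Complex.neg_re, Complex.neg_im, Complex.ofReal_re, Complex.ofReal_im,
          Complex.div_ofNat_re, Complex.sub_re, him]
        ring
      · simp only [Complex.add_im, Complex.mul_re, Complex.mul_im, Complex.I_re, Complex.I_im,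
          Complex.neg_re, Complex.neg_im, Complex.ofReal_re, Complex.ofReal_im,
          Complex.div_ofNat_im, Complex.sub_im, hre]
        ring
    rw [e1, ss_norm_sq]
    ring
  rw [hx]
  generalize (b1.re - b2.re) / 2 = wr at *
  generalize (b1.im - b2.im) / 2 = wi at *
  have key := tri_real (u := er * wr + ei * wi) (s := er * wi - ei * wr) (v := v) (t := t)
    (n1 := ‖b1‖) (n2 := ‖b2‖) ht hV ?_ ?_ (norm_nonneg _) h1 (norm_nonneg _) h2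
  · have e1 : (er * wr + ei * wi) ^ 2 + (er * wi - ei * wr - v * √3 / 6) ^ 2 =
        (wr + v * ei * √3 / 6) ^ 2 + (wi - v * er * √3 / 6) ^ 2 := by
      linear_combination (wr ^ 2 + wi ^ 2 - v ^ 2 * √3 ^ 2 / 36) * hunit
    rw [e1] at key
    have e2 : cr b1 b2 = v * (er * wi - ei * wr) := by
      unfold cr
      rw [hb1r, hb1i, hb2r, hb2i]
      ring
    rw [e2]
    exact key
  · rw [hn1, hb1r, hb1i]
    linear_combination (-(wr ^ 2 + wi ^ 2)) * hunit + v ^ 2 / 4 * hunit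
  · rw [hn2, hb2r, hb2i]
    linear_combination (-(wr ^ 2 + wi ^ 2)) * hunit + v ^ 2 / 4 * hunit

variable {a : ℝ} {D s1 b1 b2 s2 : ℂ} {L l1 l2 l3 l4 yO y1 y2 y3 y4 : ℝ}

theorem s_slack (h : Face41 a D s1 b1 b2 s2 L l1 l2 l3 l4 yO y1 y2 y3 y4) {t : ℝ} (ht : 0 ≤ t)
    (ht1 : t ≤ 1 / 100) (hU : ‖(s1 + s2) / 2‖ ≤ t) (hN : |‖D + (s1 + s2) / 2‖ - √3| ≤ t)
    (hs : HH l1 l2 l3 l4 y1 y2 y3 y4 + L - 3 * min 1 a -
      c0 * ‖D - (et0 : ℂ) * s1 - (et0 : ℂ) * s2‖ ≤ t) :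
    ‖(b1 - b2) / 2 + Complex.I * (b1 + b2) / (2 * (√3 : ℂ))‖ ^ 2 ≤ 400 * t := by
  have hs3 := ss_s3
  have hlb := ss_s3_lb
  have hub := ss_s3_ub
  obtain ⟨c1, c2, c3, c4, cL, cD⟩ := ss_cap h
  obtain ⟨d1, d2, d3, d4⟩ := ss_D' D s1 s2 ht hU hN
  have hbb : b1 + b2 = -(D + (s1 + s2)) := by linear_combination h.sum
  have hV : |‖b1 + b2‖ - √3| ≤ 2 * t := by
    rw [hbb, norm_neg]
    exact d4
  have htri := tri_stab b1 b2 c2 c3 ht ht1 hV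
  have harc := ss_arc h ht ht1 d3
  have hm := Pool.Agent.Helper98.LC3.master1 h (τ := √3) (by linarith)
  have hrr : Pool.Agent.Helper98.LC3.rr √3 = √3 := by
    unfold Pool.Agent.Helper98.LC3.rr
    rw [div_eq_iff (by positivity)]
    linear_combination (-1) * hs3
  have hpent := Pool.Agent.Helper98.LC3.pent_eq h.sum
  have hNN : (D - (b1 + b2)) / 2 = D + (s1 + s2) / 2 := by
    rw [hbb]
    ring
  rw [hNN] at hpent
  have hcr := ss_cr_le (D + (s1 + s2) / 2) ((s1 - s2) / 2)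
  have hM2 : 2 * ‖(s1 - s2) / 2‖ ≤ ‖s1‖ + ‖s2‖ := by
    have h1 := norm_sub_le s1 s2
    have h2 : ‖(s1 - s2) / 2‖ = ‖s1 - s2‖ / 2 := by
      rw [norm_div, Complex.norm_ofNat]
    rw [h2]
    linarith
  have hM3 : ‖(s1 - s2) / 2‖ ≤ 3 := by linarith
  have hM0 := norm_nonneg ((s1 - s2) / 2)
  have hN' := abs_le.1 hN
  have hcr2 : cr (D + (s1 + s2) / 2) ((s1 - s2) / 2) ≤ √3 * (‖s1‖ + ‖s2‖) / 2 + 3 * t := by
    have h1 : ‖D + (s1 + s2) / 2‖ * ‖(s1 - s2) / 2‖ ≤ (√3 + t) * ‖(s1 - s2) / 2‖ :=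
      mul_le_mul_of_nonneg_right (by linarith) hM0
    have h2 : √3 * (2 * ‖(s1 - s2) / 2‖) ≤ √3 * (‖s1‖ + ‖s2‖) :=
      mul_le_mul_of_nonneg_left hM2 (by linarith)
    have h3 : t * ‖(s1 - s2) / 2‖ ≤ t * 3 := mul_le_mul_of_nonneg_left hM3 ht
    linarith
  rw [hrr, hpent] at hm
  have hma : 0 ≤ A0 * (a - min 1 a) :=
    mul_nonneg Pool.Agent.Helper38.LC2.A0_pos.le (sub_nonneg.2 (min_le_right _ _))
  have hm1 : 0 ≤ √3 / 2 * √3 ^ 2 * (1 - min 1 a) :=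
    mul_nonneg (by positivity) (sub_nonneg.2 (min_le_left _ _))
  have hsq : √3 / 2 * √3 ^ 2 = 3 * √3 / 2 := by linear_combination √3 / 2 * hs3
  have hc0 := Pool.Agent.Helper98.LC3.c0_num
  have hc0π : c0 = π / 6 := rfl
  have hD'up : ‖D - (et0 : ℂ) * s1 - (et0 : ℂ) * s2‖ ≤ √3 + 2.11 * t := by
    have := (abs_le.1 d1).2
    linarith
  have p1 : √3 * (HH l1 l2 l3 l4 y1 y2 y3 y4 + L - 3 * min 1 a) ≤
      √3 * (t + c0 * (√3 + 2.11 * t)) := by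
    refine mul_le_mul_of_nonneg_left ?_ (by linarith)
    have := mul_le_mul_of_nonneg_left hD'up (by linarith : (0 : ℝ) ≤ c0)
    linarith
  have p2 : √3 * (t + c0 * (√3 + 2.11 * t)) = √3 * t + π / 2 + 2.11 * (√3 * c0) * t := by
    rw [hc0π]
    linear_combination π / 6 * hs3
  have p3 : √3 * c0 ≤ 0.91 := by
    have : √3 * c0 ≤ 1.733 * 0.5236 := mul_le_mul hub.le (by linarith) (by linarith) (by norm_num)
    linarith
  have p4 : 2.11 * (√3 * c0) * t ≤ 2.11 * 0.91 * t :=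
    mul_le_mul_of_nonneg_right (by linarith) ht
  have p5 : √3 * t ≤ 1.733 * t := mul_le_mul_of_nonneg_right hub.le ht
  rw [hsq] at hm
  have hm1' : 0 ≤ 3 * √3 / 2 * (1 - min 1 a) := by rw [← hsq]; exact hm1
  generalize ‖(b1 - b2) / 2 + Complex.I * (b1 + b2) / (2 * (√3 : ℂ))‖ ^ 2 = X at *
  linarith

private lemma pow_sub_le {𝕜 : Type*} [NormedField 𝕜] (n : ℕ) {x y : 𝕜} (hx : ‖x‖ ≤ 3)
    (hy : ‖y‖ ≤ 3) : ‖x ^ n - y ^ n‖ ≤ n * 3 ^ n / 3 * ‖x - y‖ := by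
  induction n with
  | zero => simp
  | succ n ih =>
    have h1 : x ^ (n + 1) - y ^ (n + 1) = x * (x ^ n - y ^ n) + y ^ n * (x - y) := by ring
    rw [h1]
    refine (norm_add_le _ _).trans ?_
    rw [norm_mul, norm_mul, norm_pow]
    have h2 : ‖y‖ ^ n ≤ 3 ^ n := pow_le_pow_left₀ (norm_nonneg _) hy n
    have h3 : ‖x‖ * ‖x ^ n - y ^ n‖ ≤ 3 * (n * 3 ^ n / 3 * ‖x - y‖) :=
      mul_le_mul hx ih (norm_nonneg _) (by norm_num)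
    have h4 : ‖y‖ ^ n * ‖x - y‖ ≤ 3 ^ n * ‖x - y‖ :=
      mul_le_mul_of_nonneg_right h2 (norm_nonneg _)
    push_cast
    rw [pow_succ]
    linarith

private lemma pow_seven {x y : ℂ} (hx : ‖x‖ ≤ 3) (hy : ‖y‖ ≤ 3) :
    ‖x ^ 7 - y ^ 7‖ ≤ 5103 * ‖x - y‖ := by
  refine (pow_sub_le 7 hx hy).trans (le_of_eq ?_)
  norm_num

private lemma seventh {κ : ℂ} (hk : κ ^ 2 = -1 / 12) :
    (-1 / 2 + κ) ^ 7 + (-1 / 2 - κ) ^ 7 = 1 / 27 := by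
  have h1 : (-1 / 2 + κ) ^ 7 + (-1 / 2 - κ) ^ 7 = 2 * ((-1 / 2) ^ 7 +
      21 * (-1 / 2) ^ 5 * κ ^ 2 + 35 * (-1 / 2) ^ 3 * (κ ^ 2) ^ 2 +
      7 * (-1 / 2) * (κ ^ 2) ^ 3) := by ring
  rw [h1, hk]
  norm_num

private lemma dirn_norm_le (v : ℂ) : ‖RG.dirn v‖ ≤ 1 := by
  unfold RG.dirn
  rw [norm_div, Complex.norm_real, norm_norm]
  exact div_self_le_one _

private lemma dirn_unit {v : ℂ} (hv : 0 < ‖v‖) : ‖RG.dirn v‖ = 1 := by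
  unfold RG.dirn
  rw [norm_div, Complex.norm_real, norm_norm]
  exact div_self hv.ne'

private lemma dirn_mul {v : ℂ} (hv : 0 < ‖v‖) : v = (‖v‖ : ℂ) * RG.dirn v := by
  unfold RG.dirn
  have : ((‖v‖ : ℝ) : ℂ) ≠ 0 := by exact_mod_cast hv.ne'
  field_simp

private lemma ss_sum {a : ℝ} {D s1 b1 b2 s2 : ℂ} {L l1 l2 l3 l4 yO y1 y2 y3 y4 : ℝ}
    (h : Face41 a D s1 b1 b2 s2 L l1 l2 l3 l4 yO y1 y2 y3 y4) :
    s1 + b1 + b2 + s2 + (D - (et0 : ℂ) * s1 - (et0 : ℂ) * s2) =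
      ((-(2 * et0) : ℝ) : ℂ) * ((s1 + s2) / 2) := by
  push_cast
  linear_combination h.sum

private lemma ss_small {a : ℝ} {D s1 b1 b2 s2 : ℂ} {L l1 l2 l3 l4 yO y1 y2 y3 y4 : ℝ}
    (h : Face41 a D s1 b1 b2 s2 L l1 l2 l3 l4 yO y1 y2 y3 y4) {t : ℝ} (ht : 0 ≤ t)
    (ht1 : t ≤ 1 / 100) (hU : ‖(s1 + s2) / 2‖ ≤ t) (hN : |‖D + (s1 + s2) / 2‖ - √3| ≤ t)
    (hs : HH l1 l2 l3 l4 y1 y2 y3 y4 + L - 3 * min 1 a -
      c0 * ‖D - (et0 : ℂ) * s1 - (et0 : ℂ) * s2‖ ≤ t) {D' : ℂ}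
    (hD' : D' = D - (et0 : ℂ) * s1 - (et0 : ℂ) * s2) :
    ‖s1 + b1 + b2 + s2 + D'‖ ≤ 10 ^ 6 * √t ∧
    ‖s1 ^ 7 + b1 ^ 7 + b2 ^ 7 + s2 ^ 7 - RG.dirn D' ^ 6 * D'‖ ≤ 10 ^ 6 * √t := by
  have hs3 := ss_s3
  have hlb := ss_s3_lb
  have hub := ss_s3_ub
  obtain ⟨c1, c2, c3, c4, cL, cD⟩ := ss_cap h
  obtain ⟨d1, d2, d3, d4⟩ := ss_D' D s1 s2 ht hU hN
  have hx := s_slack h ht ht1 hU hN hs
  have hsum := ss_sum h
  have het := Pool.Agent.Helper98.LC3.et0_num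
  rw [← hD'] at d1 d2 hsum
  have hbb : b1 + b2 = -(D + (s1 + s2)) := by linear_combination h.sum
  obtain ⟨q, hq⟩ : ∃ q : ℝ, q = √t := ⟨_, rfl⟩
  rw [← hq]
  have hq0 : 0 ≤ q := by rw [hq]; exact Real.sqrt_nonneg t
  have hq2 : q ^ 2 = t := by rw [hq]; exact Real.sq_sqrt ht
  have hq1 : q ≤ 1 := by nlinarith
  have htq : t ≤ q := by nlinarith
  refine ⟨?_, ?_⟩
  · rw [hsum, norm_mul, Complex.norm_real, Real.norm_eq_abs, abs_neg,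
      abs_of_nonneg (by linarith)]
    have h1 : 2 * et0 * ‖(s1 + s2) / 2‖ ≤ 1 * t :=
      mul_le_mul (by linarith) hU (norm_nonneg _) (by norm_num)
    linarith
  · obtain ⟨κ, hκ⟩ : ∃ κ : ℂ, κ = Complex.I / (2 * (√3 : ℂ)) := ⟨_, rfl⟩
    have h3c : ((√3 : ℝ) : ℂ) ^ 2 = 3 := by
      have : (√3 : ℝ) ^ 2 = 3 := by nlinarith
      exact_mod_cast this
    have hk2 : κ ^ 2 = -1 / 12 := by
      rw [hκ, div_pow, mul_pow, Complex.I_sq, h3c]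
      norm_num
    have hkn : ‖κ‖ ≤ 1 / 2 := by
      have h1 : ‖κ‖ ^ 2 = 1 / 12 := by
        rw [← norm_pow, hk2]
        norm_num
      nlinarith [norm_nonneg κ]
    obtain ⟨x, hxd⟩ : ∃ x : ℂ, x = (b1 - b2) / 2 + Complex.I * (b1 + b2) / (2 * (√3 : ℂ)) :=
      ⟨_, rfl⟩
    rw [← hxd] at hx
    have hxn : ‖x‖ ≤ 20 * q := by
      refine (abs_le_of_sq_le_sq' (b := 20 * q) ?_ (by linarith)).2
      rw [mul_pow, hq2]
      linarith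
    have hxk : x = (b1 - b2) / 2 + κ * (b1 + b2) := by
      rw [hxd, hκ]
      ring
    obtain ⟨V, hV⟩ : ∃ V : ℂ, V = D + (s1 + s2) := ⟨_, rfl⟩
    rw [← hV] at hbb d2 d4
    have hVn : ‖V‖ ≤ 3 := by
      have := (abs_le.1 d4).2
      linarith
    have e1 : b1 - V * (-1 / 2 + κ) = x := by
      rw [hxk]
      linear_combination (1 / 2 - κ) * hbb
    have e2 : b2 - V * (-1 / 2 - κ) = -x := by
      rw [hxk]
      linear_combination (1 / 2 + κ) * hbb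
    have hV1 : ‖V * (-1 / 2 + κ)‖ ≤ 3 := by
      rw [norm_mul]
      have h1 : ‖(-1 / 2 : ℂ) + κ‖ ≤ 1 := by
        refine (norm_add_le _ _).trans ?_
        have : ‖(-1 / 2 : ℂ)‖ = 1 / 2 := by norm_num
        linarith
      calc ‖V‖ * ‖(-1 / 2 : ℂ) + κ‖ ≤ 3 * 1 := mul_le_mul hVn h1 (norm_nonneg _) (by norm_num)
        _ = 3 := by norm_num
    have hV2 : ‖V * (-1 / 2 - κ)‖ ≤ 3 := by
      rw [norm_mul]
      have h1 : ‖(-1 / 2 : ℂ) - κ‖ ≤ 1 := by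
        refine (norm_sub_le _ _).trans ?_
        have : ‖(-1 / 2 : ℂ)‖ = 1 / 2 := by norm_num
        linarith
      calc ‖V‖ * ‖(-1 / 2 : ℂ) - κ‖ ≤ 3 * 1 := mul_le_mul hVn h1 (norm_nonneg _) (by norm_num)
        _ = 3 := by norm_num
    have hr1 := (abs_le.1 d1).1
    have hr2 := (abs_le.1 d1).2
    have hr0 : 0 < ‖D'‖ := by linarith
    have hr3 : ‖D'‖ ≤ 3 := by linarith
    -- the five parts
    have T1 : ‖s1 ^ 7 + s2 ^ 7‖ ≤ 10206 * q := by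
      have h1 : s1 ^ 7 + s2 ^ 7 = s1 ^ 7 - (-s2) ^ 7 := by ring
      rw [h1]
      refine (pow_seven c1 (by rw [norm_neg]; exact c4)).trans ?_
      have h2 : s1 - -s2 = 2 * ((s1 + s2) / 2) := by ring
      rw [h2, norm_mul, Complex.norm_ofNat]
      linarith
    have T2 : ‖b1 ^ 7 - (V * (-1 / 2 + κ)) ^ 7‖ ≤ 102060 * q := by
      refine (pow_seven c2 hV1).trans ?_
      rw [e1]
      linarith
    have T3 : ‖b2 ^ 7 - (V * (-1 / 2 - κ)) ^ 7‖ ≤ 102060 * q := by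
      refine (pow_seven c3 hV2).trans ?_
      rw [e2, norm_neg]
      linarith
    have T4 : ‖(V ^ 7 - D' ^ 7) / 27‖ ≤ 1000 * q := by
      rw [norm_div]
      have h1 := pow_seven hVn hr3
      have h2 : ‖(27 : ℂ)‖ = 27 := by norm_num
      rw [h2, div_le_iff₀ (by norm_num)]
      refine h1.trans ?_
      linarith
    have T5 : ‖D' ^ 7 / 27 - RG.dirn D' ^ 6 * D'‖ ≤ 1000 * q := by
      have hu := dirn_unit hr0
      have hd := dirn_mul hr0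
      have h1 : D' ^ 7 / 27 - RG.dirn D' ^ 6 * D' =
          ((‖D'‖ * (‖D'‖ ^ 6 - √3 ^ 6) / 27 : ℝ) : ℂ) * RG.dirn D' ^ 7 := by
        have h36 : (√3 : ℝ) ^ 6 = 27 := by
          have : (√3 : ℝ) ^ 2 = 3 := by nlinarith
          calc (√3 : ℝ) ^ 6 = ((√3 : ℝ) ^ 2) ^ 3 := by ring
            _ = 27 := by rw [this]; norm_num
        rw [h36]
        generalize RG.dirn D' = u at *
        generalize ‖D'‖ = r at *
        rw [hd]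
        push_cast
        ring
      rw [h1, norm_mul, norm_pow, hu, one_pow, mul_one, Complex.norm_real, norm_div, norm_mul,
        norm_norm]
      have h2 := pow_sub_le (𝕜 := ℝ) 6 (x := ‖D'‖) (y := √3) (by rw [norm_norm]; exact hr3)
        (by rw [Real.norm_eq_abs, abs_of_nonneg (by linarith)]; linarith)
      have h3 : ‖(27 : ℝ)‖ = 27 := by norm_num
      rw [h3, div_le_iff₀ (by norm_num)]
      have h4 : ‖‖D'‖ - √3‖ ≤ 2.11 * t := d1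
      have h5 : ‖‖D'‖ ^ 6 - √3 ^ 6‖ ≤ 1458 * (2.11 * t) := by
        have h7 : ((6 : ℕ) : ℝ) * 3 ^ 6 / 3 = 1458 := by norm_num
        rw [h7] at h2
        linarith
      have h6 : ‖D'‖ * ‖‖D'‖ ^ 6 - √3 ^ 6‖ ≤ 3 * (1458 * (2.11 * t)) :=
        mul_le_mul hr3 h5 (norm_nonneg _) (by norm_num)
      linarith
    have hdec : s1 ^ 7 + b1 ^ 7 + b2 ^ 7 + s2 ^ 7 - RG.dirn D' ^ 6 * D' =
        (s1 ^ 7 + s2 ^ 7) + (b1 ^ 7 - (V * (-1 / 2 + κ)) ^ 7) +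
          (b2 ^ 7 - (V * (-1 / 2 - κ)) ^ 7) + (V ^ 7 - D' ^ 7) / 27 +
          (D' ^ 7 / 27 - RG.dirn D' ^ 6 * D') := by
      have h7 := seventh hk2
      rw [mul_pow, mul_pow]
      linear_combination V ^ 7 * h7
    rw [hdec]
    refine (norm_add_le _ _).trans ?_
    have g1 := norm_add_le ((s1 ^ 7 + s2 ^ 7) + (b1 ^ 7 - (V * (-1 / 2 + κ)) ^ 7) +
          (b2 ^ 7 - (V * (-1 / 2 - κ)) ^ 7)) ((V ^ 7 - D' ^ 7) / 27)
    have g2 := norm_add_le ((s1 ^ 7 + s2 ^ 7) + (b1 ^ 7 - (V * (-1 / 2 + κ)) ^ 7))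
          (b2 ^ 7 - (V * (-1 / 2 - κ)) ^ 7)
    have g3 := norm_add_le (s1 ^ 7 + s2 ^ 7) (b1 ^ 7 - (V * (-1 / 2 + κ)) ^ 7)
    norm_num
    linarith

private lemma ss_large {a : ℝ} {D s1 b1 b2 s2 : ℂ} {L l1 l2 l3 l4 yO y1 y2 y3 y4 : ℝ}
    (h : Face41 a D s1 b1 b2 s2 L l1 l2 l3 l4 yO y1 y2 y3 y4) {D' : ℂ}
    (hD' : D' = D - (et0 : ℂ) * s1 - (et0 : ℂ) * s2) :
    ‖s1 + b1 + b2 + s2 + D'‖ ≤ 10 ^ 4 ∧
    ‖s1 ^ 7 + b1 ^ 7 + b2 ^ 7 + s2 ^ 7 - RG.dirn D' ^ 6 * D'‖ ≤ 10 ^ 4 := by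
  obtain ⟨c1, c2, c3, c4, cL, cD⟩ := ss_cap h
  have het := Pool.Agent.Helper98.LC3.et0_num
  have hsc : ∀ z : ℂ, ‖z‖ ≤ 3 → ‖(et0 : ℂ) * z‖ ≤ 1 := by
    intro z hz
    rw [norm_mul, Complex.norm_real, Real.norm_eq_abs, abs_of_nonneg (by linarith)]
    nlinarith [norm_nonneg z]
  have hDn : ‖D'‖ ≤ 6 := by
    rw [hD']
    have h1 := norm_sub_le (D - (et0 : ℂ) * s1) ((et0 : ℂ) * s2)
    have h2 := norm_sub_le D ((et0 : ℂ) * s1)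
    have h3 := hsc s1 c1
    have h4 := hsc s2 c4
    linarith
  refine ⟨?_, ?_⟩
  · have g1 := norm_add_le (s1 + b1 + b2 + s2) D'
    have g2 := norm_add_le (s1 + b1 + b2) s2
    have g3 := norm_add_le (s1 + b1) b2
    have g4 := norm_add_le s1 b1
    norm_num
    linarith
  · have hp : ∀ z : ℂ, ‖z‖ ≤ 3 → ‖z ^ 7‖ ≤ 2187 := by
      intro z hz
      rw [norm_pow]
      calc ‖z‖ ^ 7 ≤ 3 ^ 7 := pow_le_pow_left₀ (norm_nonneg _) hz 7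
        _ = 2187 := by norm_num
    have hd : ‖RG.dirn D' ^ 6 * D'‖ ≤ 6 := by
      rw [norm_mul, norm_pow]
      have h1 : ‖RG.dirn D'‖ ^ 6 ≤ 1 := pow_le_one₀ (norm_nonneg _) (dirn_norm_le D')
      calc ‖RG.dirn D'‖ ^ 6 * ‖D'‖ ≤ 1 * 6 := mul_le_mul h1 hDn (norm_nonneg _) (by norm_num)
        _ = 6 := by norm_num
    have g0 := norm_sub_le (s1 ^ 7 + b1 ^ 7 + b2 ^ 7 + s2 ^ 7) (RG.dirn D' ^ 6 * D')
    have g2 := norm_add_le (s1 ^ 7 + b1 ^ 7 + b2 ^ 7) (s2 ^ 7)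
    have g3 := norm_add_le (s1 ^ 7 + b1 ^ 7) (b2 ^ 7)
    have g4 := norm_add_le (s1 ^ 7) (b1 ^ 7)
    have p1 := hp s1 c1
    have p2 := hp b1 c2
    have p3 := hp b2 c3
    have p4 := hp s2 c4
    norm_num
    linarith

theorem s_stab (γ : ℝ) (hγ : 0 < γ) : ∃ C' : ℝ, 1 ≤ C' ∧
    ∀ (a : ℝ) (D s1 b1 b2 s2 : ℂ) (L l1 l2 l3 l4 yO y1 y2 y3 y4 : ℝ),
    Face41 a D s1 b1 b2 s2 L l1 l2 l3 l4 yO y1 y2 y3 y4 → ∀ D' : ℂ,
    D' = D - (et0 : ℂ) * s1 - (et0 : ℂ) * s2 → ∀ Δ : ℝ,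
    Δ = HH l1 l2 l3 l4 y1 y2 y3 y4 + L - 3 * min 1 a - c0 * ‖D'‖ →
    ‖s1 + b1 + b2 + s2 + D'‖ ≤ γ + C' * Δ ∧
    ‖s1 ^ 7 + b1 ^ 7 + b2 ^ 7 + s2 ^ 7 - RG.dirn D' ^ 6 * D'‖ ≤ γ + C' * Δ := by
  obtain ⟨t0, ht0⟩ : ∃ t0 : ℝ, t0 = min (1 / 100) ((γ / 10 ^ 6) ^ 2) := ⟨_, rfl⟩
  have ht0pos : 0 < t0 := by
    rw [ht0]
    exact lt_min (by norm_num) (by positivity)
  have ht01 : t0 ≤ 1 / 100 := by rw [ht0]; exact min_le_left _ _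
  have ht02 : t0 ≤ (γ / 10 ^ 6) ^ 2 := by rw [ht0]; exact min_le_right _ _
  have hC1 : 1 ≤ 10 ^ 10 / t0 ^ 2 := by
    rw [le_div_iff₀ (by positivity)]
    nlinarith
  refine ⟨10 ^ 10 / t0 ^ 2, hC1, ?_⟩
  intro a D s1 b1 b2 s2 L l1 l2 l3 l4 yO y1 y2 y3 y4 h D' hD' Δ hΔ
  have hsl := sL2 h
  rw [← hD'] at hsl
  have hΔ1 : 1 / 1000000 * (‖(s1 + s2) / 2‖ ^ 2 + (‖D + (s1 + s2) / 2‖ - √3) ^ 2) ≤ Δ := by
    rw [hΔ]
    linarith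
  have hΔ0 : 0 ≤ Δ := le_trans (by positivity) hΔ1
  obtain ⟨t, ht⟩ : ∃ t : ℝ, t = √(1000000 * Δ) := ⟨_, rfl⟩
  have htn : 0 ≤ t := by rw [ht]; exact Real.sqrt_nonneg _
  have htsq : t ^ 2 = 1000000 * Δ := by rw [ht]; exact Real.sq_sqrt (by linarith)
  have hU : ‖(s1 + s2) / 2‖ ≤ t := by
    refine (abs_le_of_sq_le_sq' (b := t) ?_ htn).2
    nlinarith [sq_nonneg (‖D + (s1 + s2) / 2‖ - √3)]
  have hN : |‖D + (s1 + s2) / 2‖ - √3| ≤ t := by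
    refine abs_le_of_sq_le_sq ?_ htn
    nlinarith [sq_nonneg ‖(s1 + s2) / 2‖]
  have hCΔ : 0 ≤ 10 ^ 10 / t0 ^ 2 * Δ := mul_nonneg (by positivity) hΔ0
  rcases le_total t t0 with hc | hc
  · have hsm : √t ≤ γ / 10 ^ 6 := by
      rw [Real.sqrt_le_iff]
      exact ⟨by positivity, hc.trans ht02⟩
    have hsm2 : 10 ^ 6 * √t ≤ γ := by
      have := mul_le_mul_of_nonneg_left hsm (by norm_num : (0 : ℝ) ≤ 10 ^ 6)
      rwa [mul_div_cancel₀ γ (by norm_num : (10 : ℝ) ^ 6 ≠ 0)] at this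
    obtain ⟨r1, r2⟩ := ss_small h htn (hc.trans ht01) hU hN (by
      rw [← hD', ← hΔ]
      nlinarith) hD'
    exact ⟨by linarith, by linarith⟩
  · obtain ⟨r1, r2⟩ := ss_large h hD'
    have hbig : 10 ^ 4 ≤ 10 ^ 10 / t0 ^ 2 * Δ := by
      have h1 : t0 ^ 2 ≤ 1000000 * Δ := by
        rw [← htsq]
        exact pow_le_pow_left₀ ht0pos.le hc 2
      have h2 : 10 ^ 10 / t0 ^ 2 * Δ = 10 ^ 4 * (1000000 * Δ / t0 ^ 2) := by ring
      rw [h2]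
      have h3 : 1 ≤ 1000000 * Δ / t0 ^ 2 := by
        rw [le_div_iff₀ (by positivity)]
        linarith
      linarith
    exact ⟨by linarith, by linarith⟩

end Pool.Agent.Helper38.AS
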