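import Pool.Agent.Helper38.AS.CxF
import Pool.Agent.Helper38.AS.SStab

/-!
# AS-17: the hypotheses on the boundary faces

`pa d = zs (es (eopp d))`, `pb d = zs (eopp d)` (start and end of the shifted outer edge).
* `shift`: `za d - z d = - TT (es (eopp d))` (`es_eopp`, `zl_rot`: `zl (es (eopp d)) = zl d`), `zb d - z (s d) = - TT (eopp d)` (`eopp_eq`, `zl_rot`), `TT_norm`.
* `bd_M`: `X ≠ o` with an outer edge (`bdy_iff`), sums with `fd_in_sum`, `fd_out_sum`.  `‖dirn w‖ ≤ 1`.
  - Not of type `S`: `‖∑ v^(6κ+1)‖ ≤ 3^7 card` (`‖v‖ ≤ elen ≤ 3`, `cap_in`), `‖∑_{out}‖ ≤ ∑ ‖zb - za‖ = ∑ echd ≤ ∑ elen` (`zs_nonTS`), both `≤ C' dfi` (`locN`).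
  - Type `S`, one neighbour not of type `S`: `locS_one`: `dfi ≥ 10^(-6)`; everything is bounded by `10^4`.
  - Type `S`, both neighbours of type `S`: `five`, `locS_two`, `s_stab γ`: with `Δ = dfi/2`; `Oi = {d}`, the inner corners are `(es c)^[k] d`, `k = 1..4` (`Five.sum`, `Five.inner`); `κ = 0`: `v` and `(-1)^1`,
    `κ = 1`: `v^7` and `(-1)^2`.
  `C' = max (10^10) (C' of s_stab)`.
-/

namespace Pool.Agent.Helper38.AS

open Finset Real Pool.Agent.Helper98.LC
open Pool.Agent.Helper98.LC3 (c0 et0 Face41 HH CoConn GMin)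

/-- start of the shifted outer edge -/
noncomputable def pa {ι : Type} [DecidableEq ι] [Fintype ι] (G : Net) (c : V → ι) (o : ι) (n : ℕ)
    (d : Dt c o n) : ℂ := zs G c o n (es c (eopp c d.1))

/-- end of the shifted outer edge -/
noncomputable def pb {ι : Type} [DecidableEq ι] [Fintype ι] (G : Net) (c : V → ι) (o : ι) (n : ℕ)
    (d : Dt c o n) : ℂ := zs G c o n (eopp c d.1)

private theorem cm_v {κ : ℕ} (hκ : κ ≤ 1) {v : ℂ} (hv : ‖v‖ ≤ 3) :
    ‖v ^ (6 * κ + 1)‖ ≤ 2187 := by
  rw [norm_pow]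
  interval_cases κ
  · norm_num
    linarith
  · have h : ‖v‖ ^ 7 ≤ 3 ^ 7 := pow_le_pow_left₀ (norm_nonneg _) hv 7
    norm_num at h ⊢
    exact h

private theorem cm_dirn (w : ℂ) : ‖RG.dirn w‖ ≤ 1 := by
  unfold RG.dirn
  rw [norm_div, Complex.norm_real, norm_norm]
  exact div_self_le_one _

private theorem cm_out (κ : ℕ) (w : ℂ) : ‖RG.dirn w ^ (6 * κ) * w‖ ≤ ‖w‖ := by
  rw [norm_mul, norm_pow]
  exact mul_le_of_le_one_left (norm_nonneg _) (pow_le_one₀ (norm_nonneg _) (cm_dirn w))

section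

variable {ι : Type} [DecidableEq ι] [Fintype ι] {G : Net} {c : V → ι} {o : ι} {n : ℕ}

private theorem cm_mem (h : OutBox c o n) {i : ι} {d : V × Fin 6} (hd : d ∈ Oi c o n i) :
    d ∈ corners c n i ∧ IsCorner c d ∧ c d.1 = i ∧ enb c d = o := by
  have h1 := mem_filter.1 hd
  exact ⟨h1.1, ((mem_corners h i d).1 h1.1).1, ((mem_corners h i d).1 h1.1).2, h1.2⟩

private theorem cm_inner (hg : Good G c o n) {X : ι} (hX : X ≠ o) {d : V × Fin 6}
    (hd : d ∈ corners c n X \ Oi c o n X) : ‖G.zl (es c d) - G.zl d‖ ≤ 3 := by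
  rw [mem_sdiff] at hd
  have hen : enb c d ≠ o := fun h => hd.2 (mem_filter.2 ⟨hd.1, h⟩)
  have h1 := hg.cap_in X hX d hd.1 hen
  have h2 := (faceFacts G hg.out hg.loop hX).ch_le d hd.1
  have h3 : min 1 (ar G c n X) ≤ 1 := min_le_left _ _
  have h4 : echd G c d = ‖G.zl (es c d) - G.zl d‖ := rfl
  rw [← h4]
  linarith

private theorem cm_inner_sum (hg : Good G c o n) {X : ι} (hX : X ≠ o) {κ : ℕ} (hκ : κ ≤ 1) :
    ‖∑ d ∈ corners c n X \ Oi c o n X, (G.zl (es c d) - G.zl d) ^ (6 * κ + 1)‖ ≤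
      2187 * ((corners c n X).card : ℝ) := by
  refine (norm_sum_le _ _).trans ?_
  have h1 : ∑ d ∈ corners c n X \ Oi c o n X, ‖(G.zl (es c d) - G.zl d) ^ (6 * κ + 1)‖ ≤
      ∑ d ∈ corners c n X \ Oi c o n X, (2187 : ℝ) :=
    sum_le_sum fun d hd => cm_v hκ (cm_inner hg hX hd)
  refine h1.trans ?_
  rw [sum_const, nsmul_eq_mul, mul_comm]
  refine mul_le_mul_of_nonneg_left ?_ (by norm_num)
  exact_mod_cast card_le_card sdiff_subset

private theorem cm_z (h : OutBox c o n) {d : V × Fin 6} (hd : IsCorner c d) :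
    G.zl (eopp c d) = G.zl (es c d) ∧ G.zl (es c (eopp c d)) = G.zl d := by
  constructor
  · rw [eopp_eq h hd, zl_rot]
  · rw [es_eopp h hd, zl_rot, zl_rot]

private theorem cm_o (h : OutBox c o n) {d : V × Fin 6} (hd : IsCorner c d)
    (ho : enb c d = o) : eopp c d ∈ corners c n o := by
  obtain ⟨e1, e2, -, -⟩ := eopp_corner h hd
  exact (mem_corners h _ _).2 ⟨e1, e2.trans ho⟩

private theorem cm_five (_hg : Good G c o n) {i : ι} {d : V × Fin 6} (hd : Five G c o n i d)
    (f : V × Fin 6 → ℂ) : ∑ x ∈ corners c n i \ Oi c o n i, f x =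
      f (es c d) + f ((es c)^[2] d) + f ((es c)^[3] d) + f ((es c)^[4] d) := by
  have hsub : Oi c o n i ⊆ corners c n i := filter_subset _ _
  have hr := hd.sum (fun x => (f x).re)
  have hi := hd.sum (fun x => (f x).im)
  have h1 : ∑ x ∈ corners c n i, f x =
      f d + f (es c d) + f ((es c)^[2] d) + f ((es c)^[3] d) + f ((es c)^[4] d) := by
    apply Complex.ext
    · rw [Complex.re_sum, hr]
      simp only [Complex.add_re]
    · rw [Complex.im_sum, hi]
      simp only [Complex.add_im]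
  have h2 := sum_sdiff hsub (f := f)
  rw [hd.Oeq, sum_singleton, h1] at h2
  rw [hd.Oeq]
  linear_combination h2

end

theorem hypM (γ : ℝ) (hγ : 0 < γ) : ∃ C' : ℝ, 1 ≤ C' ∧
    ∀ (ι : Type) [DecidableEq ι] [Fintype ι] (G : Net) (c : V → ι) (o : ι) (n : ℕ)
      (K : RG.Cx (Dt c o n) ι) (s' : Equiv.Perm {d // d ∈ K.out}),
      Good G c o n → IsCx G c o n K s' →
      RG.HypM K C' γ (pa G c o n) (pb G c o n) (dfo G c o n) := by
  obtain ⟨C1, hC1, hst⟩ := s_stab γ hγ
  refine ⟨max (10 ^ 11) C1, hC1.trans (le_max_right _ _), ?_⟩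
  intro ι _ _ G c o n K s' hg hK
  set C' := max ((10 : ℝ) ^ 11) C1 with hC'
  have hCa : (10 : ℝ) ^ 11 ≤ C' := le_max_left _ _
  have hCb : C1 ≤ C' := le_max_right _ _
  refine ⟨hC1.trans hCb, hγ.le, ?_, ?_⟩
  · intro d hd
    have hdo : enb c d.1 = o := (hK.out_iff d).1 hd
    have hdI : IsCorner c d.1 := ((mem_DD hg.out).1 d.2).1
    have hz := cm_z (G := G) hg.out hdI
    have ho := cm_o hg.out hdI hdo
    have ho' : es c (eopp c d.1) ∈ corners c n o := es_mem hg.out ho
    constructor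
    · rw [hK.z_eq]
      unfold pa zs
      rw [hz.2, show G.zl d.1 - TT G c o n (es c (eopp c d.1)) - G.zl d.1 =
        -TT G c o n (es c (eopp c d.1)) by ring, norm_neg]
      exact (TT_norm hg ho').trans (by norm_num)
    · rw [hK.z_eq, hK.s_val]
      unfold pb zs
      rw [hz.1, show G.zl (es c d.1) - TT G c o n (eopp c d.1) - G.zl (es c d.1) =
        -TT G c o n (eopp c d.1) by ring, norm_neg]
      exact (TT_norm hg ho).trans (by norm_num)
  · intro X hX κ hκ
    rw [bdy_iff hg.out hK] at hX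
    obtain ⟨hXo, hne⟩ := hX
    obtain ⟨d0, hd0⟩ := hne
    have hcn : (corners c n X).Nonempty := ⟨d0, (cm_mem hg.out hd0).1⟩
    have hXx : ∃ x, c x = X := ⟨d0.1, (cm_mem hg.out hd0).2.2.1⟩
    have hin : ∑ d ∈ (K.fd X).filter (fun d => d ∉ K.out), K.v d ^ (6 * κ + 1) =
        ∑ d ∈ corners c n X \ Oi c o n X, (G.zl (es c d) - G.zl d) ^ (6 * κ + 1) := by
      rw [← fd_in_sum hg.out hK hXo (fun d => (G.zl (es c d) - G.zl d) ^ (6 * κ + 1))]
      exact sum_congr rfl fun d _ => by rw [v_eq hK]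
    have hout : ∑ d ∈ (K.fd X).filter (fun d => d ∈ K.out),
        RG.dirn (pb G c o n d - pa G c o n d) ^ (6 * κ) * (pb G c o n d - pa G c o n d) =
        ∑ d ∈ Oi c o n X, RG.dirn (zs G c o n (eopp c d) - zs G c o n (es c (eopp c d))) ^ (6 * κ) *
          (zs G c o n (eopp c d) - zs G c o n (es c (eopp c d))) :=
      fd_out_sum hg.out hK hXo (fun d =>
        RG.dirn (zs G c o n (eopp c d) - zs G c o n (es c (eopp c d))) ^ (6 * κ) *
          (zs G c o n (eopp c d) - zs G c o n (es c (eopp c d))))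
    rw [hin, hout, dfo_eq G hXo hcn]
    have hsub : ∀ A B : ℂ, ‖A - (-1) ^ (κ + 1) * B‖ ≤ ‖A‖ + ‖B‖ := by
      intro A B
      refine (norm_sub_le _ _).trans ?_
      rw [norm_mul, norm_pow, norm_neg, norm_one, one_pow, one_mul]
    have hinb := cm_inner_sum hg hXo hκ
    have hdfi := dfi_nonneg hg hXo hXx
    by_cases hT : TS G c o n X
    · obtain ⟨d, hd⟩ := five hg hT
      have hdc : d ∈ corners c n X := hd.mem 0
      have hdO : d ∈ Oi c o n X := by
        rw [hd.Oeq]
        exact mem_singleton_self d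
      have hdI := (cm_mem hg.out hdO).2.1
      have hdo := (cm_mem hg.out hdO).2.2.2
      by_cases h12 : TS G c o n (enb c (es c d)) ∧ TS G c o n (enb c ((es c)^[4] d))
      · obtain ⟨e1, e2, e3⟩ := locS_two hg hT hd h12.1 h12.2
        have hk := hst _ _ _ _ _ _ _ _ _ _ _ _ _ _ _ _ hd.face _ rfl _ rfl
        have hpred : es c ((es c)^[4] d) = d := by
          have h := hd.cyc
          rwa [Function.iterate_succ_apply'] at h
        have hsum : ∑ x ∈ corners c n X \ Oi c o n X, (G.zl (es c x) - G.zl x) ^ (6 * κ + 1) =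
            (G.zl ((es c)^[2] d) - G.zl (es c d)) ^ (6 * κ + 1) +
            (G.zl ((es c)^[3] d) - G.zl ((es c)^[2] d)) ^ (6 * κ + 1) +
            (G.zl ((es c)^[4] d) - G.zl ((es c)^[3] d)) ^ (6 * κ + 1) +
            (G.zl d - G.zl ((es c)^[4] d)) ^ (6 * κ + 1) := by
          have hq := cm_five hg hd (fun x => (G.zl (es c x) - G.zl x) ^ (6 * κ + 1))
          rw [hq, hpred]
          rfl
        have hvv : zs G c o n (eopp c d) - zs G c o n (es c (eopp c d)) =
            (G.zl (es c d) - G.zl d) - (et0 : ℂ) * (G.zl ((es c)^[2] d) - G.zl (es c d)) -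
              (et0 : ℂ) * (G.zl d - G.zl ((es c)^[4] d)) := by
          rw [e1, e2]
          ring
        rw [hsum, hd.Oeq, sum_singleton, hvv]
        have hDl : C1 * (dfi G c o n X / 2) ≤ C' * dfi G c o n X := by
          have h1 : C1 * (dfi G c o n X / 2) ≤ C' * (dfi G c o n X / 2) :=
            mul_le_mul_of_nonneg_right hCb (by linarith)
          have h2 : 0 ≤ C' * dfi G c o n X := mul_nonneg (by linarith) hdfi
          linarith
        rw [e3] at hDl ⊢
        rw [mul_div_cancel_left₀ _ (two_ne_zero)] at hDl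
        interval_cases κ
        · refine le_trans (le_of_eq ?_) (hk.1.trans ?_)
          · congr 1
            ring
          · linarith
        · refine le_trans (le_of_eq ?_) (hk.2.trans ?_)
          · congr 1
            ring
          · linarith
      · have h1 := locS_one hg hT hd h12
        rw [hT.2.1] at hinb
        refine (hsub _ _).trans ?_
        have h2 : ‖∑ x ∈ Oi c o n X,
            RG.dirn (zs G c o n (eopp c x) - zs G c o n (es c (eopp c x))) ^ (6 * κ) *
              (zs G c o n (eopp c x) - zs G c o n (es c (eopp c x)))‖ ≤ 4 := by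
          rw [hd.Oeq, sum_singleton]
          refine (cm_out κ _).trans ?_
          have hz := cm_z (G := G) hg.out hdI
          have ho := cm_o hg.out hdI hdo
          have ho' : es c (eopp c d) ∈ corners c n o := es_mem hg.out ho
          have h3 := TT_norm hg ho
          have h4 := TT_norm hg ho'
          have h5 : echd G c d = ‖G.zl (es c d) - G.zl d‖ := rfl
          have h6 := (faceFacts G hg.out hg.loop hXo).ch_le d hdc
          have h7 := hg.cap_sum X hXo
          rw [hd.Oeq, sum_singleton] at h7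
          have h8 : min 1 (ar G c n X) ≤ 1 := min_le_left _ _
          have h9 := hT.2.2.2
          unfold zs
          rw [hz.1, hz.2, show G.zl (es c d) - TT G c o n (eopp c d) -
            (G.zl d - TT G c o n (es c (eopp c d))) = (G.zl (es c d) - G.zl d) -
              TT G c o n (eopp c d) + TT G c o n (es c (eopp c d)) by ring]
          refine (norm_add_le _ _).trans ?_
          have h10 := norm_sub_le (G.zl (es c d) - G.zl d) (TT G c o n (eopp c d))
          rw [← h5] at h10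
          linarith
        have h3 : (10 : ℝ) ^ 11 * dfi G c o n X ≤ C' * dfi G c o n X :=
          mul_le_mul_of_nonneg_right hCa hdfi
        push_cast at hinb
        norm_num at hinb h3
        linarith
    · have hO : 1 ≤ (Oi c o n X).card := Finset.card_pos.2 ⟨d0, hd0⟩
      have h1 := locN hg hXo hXx hT hO
      refine (hsub _ _).trans ?_
      have h2 : ‖∑ x ∈ Oi c o n X,
          RG.dirn (zs G c o n (eopp c x) - zs G c o n (es c (eopp c x))) ^ (6 * κ) *
            (zs G c o n (eopp c x) - zs G c o n (es c (eopp c x)))‖ ≤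
            ∑ d ∈ Oi c o n X, elen G c d := by
        refine (norm_sum_le _ _).trans (sum_le_sum fun x hx => ?_)
        refine (cm_out κ _).trans ?_
        obtain ⟨e1, e2⟩ := zs_nonTS G hg.out hT hx
        rw [e1, e2]
        exact (faceFacts G hg.out hg.loop hXo).ch_le x (cm_mem hg.out hx).1
      have h3 : (10 : ℝ) ^ 11 * dfi G c o n X ≤ C' * dfi G c o n X :=
        mul_le_mul_of_nonneg_right hCa hdfi
      have h4 : (0 : ℝ) ≤ ((corners c n X).card : ℝ) := Nat.cast_nonneg _
      have h5 : 0 ≤ ∑ d ∈ Oi c o n X, elen G c d :=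
        (norm_nonneg _).trans h2
      norm_num at h3
      linarith

end Pool.Agent.Helper38.AS
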