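import Pool.Agent.Helper98.LC.F.Curve
import Pool.Agent.Helper98.LC3.P.Cyc
import Pool.Agent.Helper98.LC3.P.Gmin
import Pool.Agent.Helper98.LC3.P.NoLoop10
import Pool.Agent.Helper98.LC3.P.Coconn
import Pool.Agent.Helper98.LC3.S.Base
import Pool.Agent.Helper38.LC3.Strip2
import Pool.Agent.Helper38.LC3.Inter0

/-!
# Project LC3, block AS (MP_0e6ba8_gt): the shifted outer polygon, the deficits of the classes

Type `S`: five edges, one of them outer, area `< 2`.  At every corner `e` of the outer class `o` two classes `c (tip e)`, `c (third e)`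
meet; they are separated by a wall which starts there with the corner `rot (rot e)`.  If both are of type `S`, the corner is shifted by
`- et0 * (chord of the wall)`.
-/

namespace Pool.Agent.Helper38.AS

open Finset Real Pool.Agent.Helper98.LC
open Pool.Agent.Helper98.LC3 (c0 et0 Face41 HH CoConn GMin)

variable {ι : Type} [DecidableEq ι]

/-- rotation of the triangle on the left side of a dart -/
def rot (d : V × Fin 6) : V × Fin 6 := (tip d, d.2 + 2)

/-- the outer edges of a class -/
noncomputable def Oi (c : V → ι) (o : ι) (n : ℕ) (i : ι) : Finset (V × Fin 6) :=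
  (corners c n i).filter fun d => enb c d = o

/-- the classes of type `S` -/
def TS (G : Net) (c : V → ι) (o : ι) (n : ℕ) (i : ι) : Prop :=
  i ≠ o ∧ (corners c n i).card = 5 ∧ (Oi c o n i).card = 1 ∧ ar G c n i < 2

open Classical in
/-- the shift at the corner `e` of the class `o` -/
noncomputable def TT (G : Net) (c : V → ι) (o : ι) (n : ℕ) (e : V × Fin 6) : ℂ :=
  if TS G c o n (c (tip e)) ∧ TS G c o n (c (third e)) then
    (et0 : ℂ) * (G.zl (es c (rot (rot e))) - G.zl e) else 0

/-- the shifted corner -/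
noncomputable def zs (G : Net) (c : V → ι) (o : ι) (n : ℕ) (e : V × Fin 6) : ℂ :=
  G.zl e - TT G c o n e

/-- the length of the (shifted) outer edge -/
noncomputable def lam3 (G : Net) (c : V → ι) (o : ι) (n : ℕ) (e : V × Fin 6) : ℝ :=
  if ar G c n (enb c e) < 2 then ‖zs G c o n (es c e) - zs G c o n e‖ else elen G c e

/-- the payment at a corner -/
noncomputable def pp : ℝ := 7002 / 1000000

open Classical in
/-- what the class `B` pays to the class `A` at a common outer corner -/
noncomputable def flc (G : Net) (c : V → ι) (o : ι) (n : ℕ) (B A : ι) : ℝ :=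
  if TS G c o n B ∧ ¬ TS G c o n A then -pp
  else if ¬ TS G c o n B ∧ TS G c o n A then pp else 0

/-- the payment at the corner `e` of the class `o` -/
noncomputable def fl (G : Net) (c : V → ι) (o : ι) (n : ℕ) (e : V × Fin 6) : ℝ :=
  flc G c o n (c (third e)) (c (tip e))

/-- the price of an edge -/
noncomputable def ep : ℝ := 142 / 1000

/-- the deficit of a class -/
noncomputable def dfi (G : Net) (c : V → ι) (o : ι) (n : ℕ) (i : ι) : ℝ :=
  ∑ d ∈ corners c n i, elen G c d + ∑ d ∈ Oi c o n i, elen G c d +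
    3 * ∑ d ∈ corners c n i \ Oi c o n i, ebul G c d - 6 * min 1 (ar G c n i) -
    ep * (6 - ((corners c n i).card : ℝ) - ((Oi c o n i).card : ℝ)) -
    2 * c0 * ∑ d ∈ Oi c o n i, lam3 G c o n (eopp c d) -
    ∑ d ∈ Oi c o n i, (fl G c o n (eopp c d) - fl G c o n (es c (eopp c d)))

/-- what is used about the labelling -/
structure Good [Fintype ι] (G : Net) (c : V → ι) (o : ι) (n : ℕ) : Prop where
  out : OutBox c o n
  conn : Conn c
  loop : NoLoop c
  co : ∀ i, i ≠ o → CoConn c i
  pos : ∀ i, i ≠ o → (∃ x, c x = i) → 0 < ar G c n i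
  cap_in : ∀ i, i ≠ o → ∀ d ∈ corners c n i, enb c d ≠ o → elen G c d ≤ 3 * min 1 (ar G c n i)
  cap_sum : ∀ i, i ≠ o → ∑ d ∈ Oi c o n i, elen G c d ≤ 3 * min 1 (ar G c n i) + ar G c n i / 20
  ne : ∃ x, c x ≠ o

/-- the corners of a class of type `S`: `d` is the outer edge -/
structure Five (G : Net) (c : V → ι) (o : ι) (n : ℕ) (i : ι) (d : V × Fin 6) : Prop where
  Oeq : Oi c o n i = {d}
  mem : ∀ k, (es c)^[k] d ∈ corners c n i
  cyc : (es c)^[5] d = d
  sum : ∀ f : V × Fin 6 → ℝ, ∑ x ∈ corners c n i, f x =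
    f d + f (es c d) + f ((es c)^[2] d) + f ((es c)^[3] d) + f ((es c)^[4] d)
  all : ∀ x ∈ corners c n i, x = d ∨ x = es c d ∨ x = (es c)^[2] d ∨ x = (es c)^[3] d ∨
    x = (es c)^[4] d
  inner : ∀ k, 1 ≤ k → k ≤ 4 → enb c ((es c)^[k] d) ≠ o
  face : Face41 (ar G c n i) (G.zl (es c d) - G.zl d) (G.zl ((es c)^[2] d) - G.zl (es c d))
    (G.zl ((es c)^[3] d) - G.zl ((es c)^[2] d)) (G.zl ((es c)^[4] d) - G.zl ((es c)^[3] d))
    (G.zl d - G.zl ((es c)^[4] d)) (elen G c d) (elen G c (es c d)) (elen G c ((es c)^[2] d))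
    (elen G c ((es c)^[3] d)) (elen G c ((es c)^[4] d)) (ebul G c d) (ebul G c (es c d))
    (ebul G c ((es c)^[2] d)) (ebul G c ((es c)^[3] d)) (ebul G c ((es c)^[4] d))

end Pool.Agent.Helper38.AS
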