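import Pool.Agent.Helper38.AS.Shift

/-!
# AS-04: the five corners of a class of type `S`

Let `d` be the only element of `Oi i`.  `corners_eq` (`Helper98/LC3/P/Cyc.lean`, uses `hg.co`): the corners are `(es c)^[k] d`, `k < 5`, injective; `es_card`: `(es c)^[5] d = d`.
`face`: `faceFacts2` (`LC2/Face.lean`): `EdgeOK.le` = `ch_le`, `EdgeOK.dido` = `dido` (`echd G c x = ‖zl (es c x) - zl x‖`); `iso` = `face_iso'`; caps: `cap_in`, `cap_sum` (the sum has one term);
`area`: `area_class` below and `pent` = half of the sum of `cr` over the closed pentagon (`sum = 0`; unfold `pent`, `cr`; `ring`).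
* `area_class`: `A0 * ar i = ∑ (cr (zl d) (zl (es d))/2 + A0 * ebul d)`: by definition `A0 * ebul d = ∑_{Icc 1 (emul d)} et - cr (zl d) (zl (es d))/2`; `sum_edges` (for `Net.et`), `sum_et_class`, def of `ar`.
-/

namespace Pool.Agent.Helper38.AS

open Finset Real Pool.Agent.Helper98.LC
open Pool.Agent.Helper98.LC3 (c0 et0 Face41 HH CoConn GMin)

variable {ι : Type} [DecidableEq ι] {c : V → ι} {o : ι} {n : ℕ}

theorem area_class (G : Net) (h : OutBox c o n) (hl : NoLoop c) {i : ι} (hi : i ≠ o) :
    A0 * ar G c n i =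
      ∑ d ∈ corners c n i, (cr (G.zl d) (G.zl (es c d)) / 2 + A0 * ebul G c d) := by
  have hA : A0 ≠ 0 := by
    unfold A0
    positivity
  have h1 : ∀ d ∈ corners c n i, cr (G.zl d) (G.zl (es c d)) / 2 + A0 * ebul G c d =
      ∑ j ∈ Icc 1 (emul c d), G.et (edart c d j) := by
    intro d _
    unfold ebul
    rw [mul_div_cancel₀ _ hA]
    ring
  rw [sum_congr rfl h1, sum_edges h hl i, sum_et_class G h hi]
  unfold ar
  rw [mul_div_cancel₀ _ hA]

theorem five [Fintype ι] {G : Net} (hg : Good G c o n) {i : ι} (h : TS G c o n i) :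
    ∃ d, Five G c o n i d := by
  obtain ⟨hi, h5, h1, h2⟩ := h
  obtain ⟨d, hd⟩ := card_eq_one.1 h1
  have hdO : d ∈ Oi c o n i := by
    rw [hd]
    exact mem_singleton_self d
  have hdC : d ∈ corners c n i := (mem_filter.1 hdO).1
  have hmem : ∀ k, (es c)^[k] d ∈ corners c n i := by
    intro k
    induction k with
    | zero => exact hdC
    | succ k ih =>
      rw [Function.iterate_succ_apply']
      exact es_mem hg.out ih
  have hco := hg.co i hi
  obtain ⟨hcyc, hne⟩ := Pool.Agent.Helper98.LC3.es_card hg.out hg.conn hi hco hdC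
  obtain ⟨heq, hinj⟩ := Pool.Agent.Helper98.LC3.corners_eq hg.out hg.conn hi hco hdC
  rw [h5] at hcyc hne heq hinj
  have hsum : ∀ f : V × Fin 6 → ℝ, ∑ x ∈ corners c n i, f x =
      f d + f (es c d) + f ((es c)^[2] d) + f ((es c)^[3] d) + f ((es c)^[4] d) := by
    intro f
    rw [heq, sum_image hinj]
    simp only [sum_range_succ, sum_range_zero, zero_add, Function.iterate_zero, id_eq,
      Function.iterate_one]
  have hex : ∃ x, c x = i := ⟨d.1, ((mem_corners hg.out i d).1 hdC).2⟩
  have hinner : ∀ k, 1 ≤ k → k ≤ 4 → enb c ((es c)^[k] d) ≠ o := by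
    intro k hk1 hk4 he
    have h3 : (es c)^[k] d ∈ Oi c o n i := mem_filter.2 ⟨hmem k, he⟩
    rw [hd, mem_singleton] at h3
    exact hne k (by omega) (by omega) h3
  have hff := Pool.Agent.Helper38.LC2.faceFacts2 G hg.out hg.loop hi
  have hedge : ∀ x ∈ corners c n i,
      Pool.Agent.Helper98.LC3.EdgeOK (G.zl (es c x) - G.zl x) (elen G c x) (ebul G c x) :=
    fun x hx => ⟨hff.ch_le x hx, hff.dido x hx⟩
  have e2 : es c (es c d) = (es c)^[2] d := rfl
  have e3 : es c ((es c)^[2] d) = (es c)^[3] d := (Function.iterate_succ_apply' (es c) 2 d).symm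
  have e4 : es c ((es c)^[3] d) = (es c)^[4] d := (Function.iterate_succ_apply' (es c) 3 d).symm
  have e5 : es c ((es c)^[4] d) = d := by
    rw [← Function.iterate_succ_apply' (es c) 4 d]
    exact hcyc
  have m1 : es c d ∈ corners c n i := hmem 1
  have hcap : ∀ k, 1 ≤ k → k ≤ 4 → elen G c ((es c)^[k] d) ≤ 3 * min 1 (ar G c n i) :=
    fun k hk1 hk4 => hg.cap_in i hi _ (hmem k) (hinner k hk1 hk4)
  refine ⟨d, hd, hmem, hcyc, hsum, ?_, hinner, ?_⟩
  · intro x hx
    rw [heq, mem_image] at hx
    obtain ⟨k, hk, rfl⟩ := hx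
    rw [mem_range] at hk
    interval_cases k
    · left; rfl
    · right; left; rfl
    · right; right; left; rfl
    · right; right; right; left; rfl
    · right; right; right; right; rfl
  · refine ⟨hg.pos i hi hex, h2, by ring, hedge d hdC, ?_, ?_, ?_, ?_, ?_, ?_, ?_, hcap 1 le_rfl (by norm_num),
      hcap 2 (by norm_num) (by norm_num), hcap 3 (by norm_num) (by norm_num),
      hcap 4 (by norm_num) le_rfl⟩
    · have := hedge _ m1
      rwa [e2] at this
    · have := hedge _ (hmem 2)
      rwa [e3] at this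
    · have := hedge _ (hmem 3)
      rwa [e4] at this
    · have := hedge _ (hmem 4)
      rwa [e5] at this
    · rw [area_class G hg.out hg.loop hi, hsum, e2, e3, e4, e5]
      unfold Pool.Agent.Helper98.LC3.pent cr
      simp only [Complex.sub_re, Complex.sub_im, Complex.add_re, Complex.add_im]
      ring
    · have h3 := Pool.Agent.Helper38.LC2.face_iso' hff
      rw [hsum] at h3
      exact h3
    · have h3 := hg.cap_sum i hi
      rw [hd, sum_singleton] at h3
      exact h3

end Pool.Agent.Helper38.AS
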