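import Pool.Agent.Helper38.AS.Corner

/-!
# AS-02: a global minimiser is good

* `cut_outer`: `cut G c n i o = ∑ d ∈ Oi i, elen d`: as in `per_eq` (`Helper98/LC/C/Conseq.lean`): `cut` sums `w` over the darts with `c d.1 = i`, `c (tip d) = o`; `sum_edges` for
  `f d = if c (tip d) = o then w d else 0`, and along the edge of the corner `d` all darts have `c (tip ·) = enb c d` (`tip_class`).
* `good`: `gmin_minimal`, `no_loop10`, `coconn`, `ar_pos`, `elen_le_inner`; `cap_sum`: if there is an outer edge, `Touch c i o` and `Minimal.outer`: `2 cut < 6 min 1 a + η a`; if not the sum is `0`.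
-/

namespace Pool.Agent.Helper38.AS

open Finset Real Pool.Agent.Helper98.LC
open Pool.Agent.Helper98.LC3 (c0 et0 Face41 HH CoConn GMin)

variable {ι : Type} [DecidableEq ι] {c : V → ι} {o : ι} {n : ℕ}

theorem cut_outer [Fintype ι] (G : Net) (h : OutBox c o n) (hl : NoLoop c) (i : ι) :
    cut G c n i o = ∑ d ∈ Oi c o n i, elen G c d := by
  have h1 := sum_edges h hl i (fun d => if c (tip d) = o then G.w d else 0)
  rw [← sum_filter, filter_filter] at h1
  unfold cut Oi
  rw [← h1, sum_filter]
  refine sum_congr rfl fun d hd => ?_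
  have hd' := ((mem_corners h i d).1 hd).1
  unfold elen
  by_cases he : enb c d = o
  · rw [if_pos he]
    refine sum_congr rfl fun j hj => ?_
    rw [mem_Icc] at hj
    rw [tip_class h hd' hj.1 hj.2, if_pos he]
  · rw [if_neg he]
    refine sum_eq_zero fun j hj => ?_
    rw [mem_Icc] at hj
    rw [tip_class h hd' hj.1 hj.2, if_neg he]

theorem good [Fintype ι] {G : Net} {η T : ℝ} (h : GMin G c o n η) (hη : 0 ≤ η)
    (hη1 : η ≤ 1 / 10) (hη2 : η * √T ≤ 10) (hT : tot G c o n ≤ T) (hx : ∃ x, c x ≠ o) :
    Good G c o n := by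
  have hm := Pool.Agent.Helper98.LC3.gmin_minimal h
  have hl : NoLoop c := Pool.Agent.Helper98.LC3.no_loop10 hη hη1 hη2 hm hT
  have har : ∀ i, 0 ≤ ar G c n i := by
    intro i
    unfold ar
    refine div_nonneg (sum_nonneg fun x _ => G.area_nonneg x) ?_
    unfold A0
    positivity
  refine ⟨h.out, h.conn, hl, ?_, ?_, ?_, ?_, hx⟩
  · intro i hi
    exact Pool.Agent.Helper98.LC3.coconn hη hη1 hη2 h hT hi
  · intro i hi hxi
    exact ar_pos hm hi hxi
  · intro i hi d hd hnb
    exact elen_le_inner hm hi hd hnb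
  · intro i hi
    rw [← cut_outer G h.out hl i]
    have ha := har i
    by_cases ht : Touch c i o
    · have h2 := hm.outer i hi ht
      have h3 : η * ar G c n i ≤ 1 / 10 * ar G c n i := mul_le_mul_of_nonneg_right hη1 ha
      linarith
    · have h2 : cut G c n i o = 0 := by
        unfold cut
        refine sum_eq_zero fun d hd => ?_
        rw [mem_filter, mem_darts h.out] at hd
        exact absurd ⟨d, hd.1, hd.2.1, hd.2.2⟩ ht
      rw [h2]
      have h4 : 0 ≤ min 1 (ar G c n i) := le_min zero_le_one ha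
      linarith

end Pool.Agent.Helper38.AS
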