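import Pool.Agent.Helper38.AS.Mixed
import Pool.Agent.Helper38.HS.Final

/-!
# AS-08: the deficit of a class without outer edges

`Oi i = ∅`: `dfi i = ∑ elen + 3 ∑ ebul - 6 min 1 a - ep (6 - card)`.
* `locI_ne`: `interior0` (`LC3/Inter0.lean`) with `e = ep = .142 ∈ [283/2000, 285/2000]`.
* `hex_class`: if `card = 6` and `d ∈ corners i`: `P k = zl ((es c)^[k] d)`, `l k = elen ((es c)^[k] d)`, `y k = ebul ((es c)^[k] d)` satisfy `HS.Hex (ar i) P l y` (`es_card`, `corners_eq`; sums over `corners i`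
  are sums over `range 6`; `FaceFacts2` for `range 6` from `faceFacts2`: for `poly` transport the angles with the bijection; `area`: `area_class`), and `dfc = dfi`.
* `locI_six`: `HS.hex_stab`: `‖(P 2 - P 1) - om (P 1 - P 0)‖² ≤ 10^13 dfc`; `m_low`.
-/

namespace Pool.Agent.Helper38.AS

open Finset Real Pool.Agent.Helper98.LC
open Pool.Agent.Helper98.LC3 (c0 et0 Face41 HH CoConn GMin)

variable {ι : Type} [DecidableEq ι] {c : V → ι} {o : ι} {n : ℕ}

private theorem li_dfi (G : Net) {i : ι} (hO : Oi c o n i = ∅) :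
    dfi G c o n i = ∑ d ∈ corners c n i, elen G c d + 3 * ∑ d ∈ corners c n i, ebul G c d -
      6 * min 1 (ar G c n i) - ep * (6 - ((corners c n i).card : ℝ)) := by
  unfold dfi
  rw [hO, sdiff_empty, card_empty]
  simp only [sum_empty]
  push_cast
  ring

private theorem li_cap [Fintype ι] {G : Net} (hg : Good G c o n) {i : ι} (hi : i ≠ o)
    (hO : Oi c o n i = ∅) {d : V × Fin 6} (hd : d ∈ corners c n i) :
    elen G c d ≤ 3 * min 1 (ar G c n i) := by
  refine hg.cap_in i hi d hd fun h3 => ?_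
  have h4 : d ∈ Oi c o n i := mem_filter.2 ⟨hd, h3⟩
  rw [hO] at h4
  exact notMem_empty _ h4

theorem locI_ne [Fintype ι] {G : Net} (hg : Good G c o n) {i : ι} (hi : i ≠ o)
    (hx : ∃ x, c x = i) (hO : Oi c o n i = ∅) (h6 : (corners c n i).card ≠ 6) :
    1 / 100000 * ((corners c n i).card : ℝ) ≤ dfi G c o n i := by
  have hff := Helper38.LC2.faceFacts2 G hg.out hg.loop hi
  have ha := hg.pos i hi hx
  have h2 := two_le_card' hg.out hg.loop hi hx
  have h1 := Helper38.LC3.interior0 hff ha h2 h6 (fun e he => li_cap hg hi hO he) (e := ep)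
    (by unfold ep; norm_num) (by unfold ep; norm_num)
  have hsq : 0 ≤ √(ar G c n i) := Real.sqrt_nonneg _
  rw [li_dfi G hO]
  linarith

theorem hex_class [Fintype ι] {G : Net} (hg : Good G c o n) {i : ι} (hi : i ≠ o)
    (hO : Oi c o n i = ∅) (h6 : (corners c n i).card = 6) {d : V × Fin 6}
    (hd : d ∈ corners c n i) :
    HS.Hex (ar G c n i) (fun k => G.zl ((es c)^[k] d)) (fun k => elen G c ((es c)^[k] d))
      (fun k => ebul G c ((es c)^[k] d)) ∧
    dfi G c o n i = HS.dfc (ar G c n i) (fun k => elen G c ((es c)^[k] d))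
      (fun k => ebul G c ((es c)^[k] d)) := by
  have hco := hg.co i hi
  obtain ⟨hcyc, -⟩ := Helper98.LC3.es_card hg.out hg.conn hi hco hd
  obtain ⟨heq, hinj⟩ := Helper98.LC3.corners_eq hg.out hg.conn hi hco hd
  rw [h6] at hcyc heq hinj
  have hmem : ∀ k, (es c)^[k] d ∈ corners c n i := by
    intro k
    induction k with
    | zero => exact hd
    | succ k ih =>
      rw [Function.iterate_succ_apply']
      exact es_mem hg.out ih
  have hsum : ∀ f : V × Fin 6 → ℝ, ∑ x ∈ corners c n i, f x =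
      ∑ k ∈ range 6, f ((es c)^[k] d) := by
    intro f
    rw [heq, sum_image hinj]
  have hx : ∃ x, c x = i := ⟨d.1, ((mem_corners hg.out i d).1 hd).2⟩
  have hff := Helper38.LC2.faceFacts2 G hg.out hg.loop hi
  have hsd : ∀ k, HS.sd (fun k => G.zl ((es c)^[k] d)) k = echd G c ((es c)^[k] d) := by
    intro k
    show ‖G.zl ((es c)^[k + 1] d) - G.zl ((es c)^[k] d)‖ = _
    rw [Function.iterate_succ_apply']
    rfl
  refine ⟨⟨?_, hg.pos i hi hx, ⟨?_, ?_, ?_, ?_⟩, ?_, ?_⟩, ?_⟩
  · show G.zl ((es c)^[6] d) = G.zl ((es c)^[0] d)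
    rw [hcyc]
    rfl
  · intro k _
    rw [hsd]
    exact hff.ch_nonneg _ (hmem k)
  · intro k _
    rw [hsd]
    exact hff.ch_le _ (hmem k)
  · intro k _ θ h0 h1
    rw [hsd]
    exact hff.dido _ (hmem k) θ h0 h1
  · intro φ hφ hs
    have hinv : ∀ k ∈ range 6, Function.invFunOn (fun m => (es c)^[m] d)
        (range 6 : Set ℕ) ((es c)^[k] d) = k := by
      intro k hk
      have hk' : k ∈ (range 6 : Set ℕ) := hk
      exact hinj.leftInvOn_invFunOn hk'
    have hp := hff.poly (fun x => φ (Function.invFunOn (fun m => (es c)^[m] d)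
        (range 6 : Set ℕ) x)) (by
          intro x hx
          rw [heq, mem_image] at hx
          obtain ⟨k, hk, rfl⟩ := hx
          rw [hinv k hk]
          exact hφ k hk) (by
          rw [hsum]
          refine lt_of_le_of_lt (le_of_eq ?_) hs
          exact sum_congr rfl fun k hk => by rw [hinv k hk])
    rw [hsum, hsum] at hp
    refine hp.trans (le_of_eq ?_)
    refine sum_congr rfl fun k hk => ?_
    rw [hinv k hk, hsd]
  · have h1 := area_class G hg.out hg.loop hi
    rw [hsum, sum_add_distrib, ← mul_sum] at h1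
    have h2 : HS.pa (fun k => G.zl ((es c)^[k] d)) =
        ∑ k ∈ range 6, cr (G.zl ((es c)^[k] d)) (G.zl (es c ((es c)^[k] d))) / 2 := by
      unfold HS.pa
      rw [sum_div]
      refine sum_congr rfl fun k _ => ?_
      show cr (G.zl ((es c)^[k] d)) (G.zl ((es c)^[k + 1] d)) / 2 = _
      rw [Function.iterate_succ_apply']
    rw [h2, mul_sub, h1]
    ring
  · intro k _
    exact li_cap hg hi hO (hmem k)
  · rw [li_dfi G hO, h6, hsum, hsum]
    unfold HS.dfc
    push_cast
    ring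

theorem locI_six [Fintype ι] {G : Net} (hg : Good G c o n) {i : ι} (hi : i ≠ o)
    (hO : Oi c o n i = ∅) (h6 : (corners c n i).card = 6) :
    0 ≤ dfi G c o n i ∧ 0.1 ≤ ar G c n i ∧ ∀ d ∈ corners c n i,
      ‖(G.zl (es c (es c d)) - G.zl (es c d)) - RG.om * (G.zl (es c d) - G.zl d)‖ ^ 2 ≤
        10 ^ 13 * dfi G c o n i ∧
      (‖G.zl (es c d) - G.zl d‖ - 1) ^ 2 ≤ 10 ^ 13 * dfi G c o n i := by
  obtain ⟨d0, hd0⟩ : (corners c n i).Nonempty := by
    rw [← card_pos, h6]
    norm_num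
  obtain ⟨hx, he⟩ := hex_class hg hi hO h6 hd0
  refine ⟨?_, ?_, fun d hd => ?_⟩
  · rw [he]
    exact HS.df_nonneg hx
  · exact (HS.m_low hx).trans (min_le_right _ _)
  · obtain ⟨hy, he'⟩ := hex_class hg hi hO h6 hd
    have h1 := HS.hex_stab hy
    rw [he']
    exact h1

end Pool.Agent.Helper38.AS
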