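import Pool.Agent.Helper38.AS.Mixed

/-!
# AS-07: the deficit of a boundary class which is not of type `S`

* `zs_nonTS`: the ends of the outer edges of a class which is not of type `S` are not shifted (`zs_end`, `zs_start`), so `lam3 (eopp d) = echd d` if `ar i < 2`, `= elen d` otherwise (`enb (eopp d) = i`, `elen_eopp`).
* `locN`: `F = corners i`, `O = Oi i`, `faceFacts2`, `two_outer_le`, caps (`cap_in`, `cap_sum`: every `elen e ≤ ∑ ≤ 3 min 1 a + a/20`).
  Type (4,2) with `a < 2`: `bdry22p` (`LC3/Strip2.lean`): `dfi ≥ .032 - 4 pp ≥ .003` (`pay_le`), and `∑ elen ≤ 3.1`.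
  Otherwise `bdry0` (`LC3/Bdry.lean`) with `e = ep`; type (5,1), `a < 2` is excluded (`¬ TS`).  Let `q` = the payment.  If `F.card = 5` and `O.card = 2`: `q ≤ 2 pp = .014004`, use `pay = .014`.
  Otherwise `q ≤ 2 pp * O.card = .014004 O.card`, use `pay = .014 * O.card`.  The excess is `≤ 4e-6 * O.card ≤ 2e-6 * F.card`.  `5236/10000 ≥ c0`, `lam3 ≥ 0`.
-/

namespace Pool.Agent.Helper38.AS

open Finset Real Pool.Agent.Helper98.LC
open Pool.Agent.Helper98.LC3 (c0 et0 Face41 HH CoConn GMin)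

variable {ι : Type} [DecidableEq ι] {c : V → ι} {o : ι} {n : ℕ}

private theorem ln_mem (h : OutBox c o n) {i : ι} {d : V × Fin 6} (hd : d ∈ Oi c o n i) :
    d ∈ corners c n i ∧ IsCorner c d ∧ c d.1 = i ∧ enb c d = o := by
  have h1 := mem_filter.1 hd
  exact ⟨h1.1, ((mem_corners h i d).1 h1.1).1, ((mem_corners h i d).1 h1.1).2, h1.2⟩

theorem zs_nonTS (G : Net) (h : OutBox c o n) {i : ι} (hi : ¬ TS G c o n i) {d : V × Fin 6}
    (hd : d ∈ Oi c o n i) :
    zs G c o n (eopp c d) = G.zl (es c d) ∧ zs G c o n (es c (eopp c d)) = G.zl d := by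
  obtain ⟨p, hp, hpd⟩ := exists_pred h (ln_mem h hd).1
  constructor
  · rw [zs_end G h hd, if_neg (fun h1 => hi h1.2), sub_zero]
  · rw [zs_start G h hd hp hpd, if_neg (fun h1 => hi h1.1), sub_zero]

theorem lam3_nonTS (G : Net) (h : OutBox c o n) {i : ι} (hi : ¬ TS G c o n i) {d : V × Fin 6}
    (hd : d ∈ Oi c o n i) :
    lam3 G c o n (eopp c d) = if ar G c n i < 2 then echd G c d else elen G c d := by
  obtain ⟨h1, h2, h3, h4⟩ := ln_mem h hd
  have henb : enb c (eopp c d) = i := (eopp_corner h h2).2.2.1.trans h3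
  obtain ⟨z1, z2⟩ := zs_nonTS G h hi hd
  unfold lam3
  rw [henb, elen_eopp G h h2, z1, z2]
  have e1 : ‖G.zl d - G.zl (es c d)‖ = echd G c d := by
    unfold echd
    rw [norm_sub_rev]
  rw [e1]

private theorem ln_elen (G : Net) (c : V → ι) (d : V × Fin 6) : 0 ≤ elen G c d := by
  unfold elen
  exact sum_nonneg fun j _ => w_nonneg G _

theorem locN [Fintype ι] {G : Net} (hg : Good G c o n) {i : ι} (hi : i ≠ o) (hx : ∃ x, c x = i)
    (hTS : ¬ TS G c o n i) (hO : 1 ≤ (Oi c o n i).card) :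
    1 / 200000 * (((corners c n i).card : ℝ) + ∑ d ∈ Oi c o n i, elen G c d) ≤
      dfi G c o n i := by
  have hff := Helper38.LC2.faceFacts2 G hg.out hg.loop hi
  have ha := hg.pos i hi hx
  have hsub : Oi c o n i ⊆ corners c n i := filter_subset _ _
  have hO2 : 2 * (Oi c o n i).card ≤ (corners c n i).card := two_outer_le hg.out i
  have hin : ∀ e ∈ corners c n i \ Oi c o n i, elen G c e ≤ 3 * min 1 (ar G c n i) := by
    intro e he
    rw [mem_sdiff] at he
    exact hg.cap_in i hi e he.1 fun h3 => he.2 (mem_filter.2 ⟨he.1, h3⟩)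
  have hsum := hg.cap_sum i hi
  have hout : ∀ e ∈ Oi c o n i, elen G c e ≤ 3 * min 1 (ar G c n i) + ar G c n i / 20 := by
    intro e he
    exact (single_le_sum (f := elen G c) (fun d _ => ln_elen G c d) he).trans hsum
  have hlam : ∑ d ∈ Oi c o n i, lam3 G c o n (eopp c d) =
      ∑ d ∈ Oi c o n i, (if ar G c n i < 2 then echd G c d else elen G c d) :=
    sum_congr rfl fun d hd => lam3_nonTS G hg.out hTS hd
  have hpay := pay_le G hg.out i
  have hpp : pp = 7002 / 1000000 := rfl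
  have hep : ep = 142 / 1000 := rfl
  have hc0 : c0 ≤ 5236 / 10000 := by
    unfold c0
    have := Real.pi_lt_d4
    linarith
  have hl0 : 0 ≤ ∑ d ∈ Oi c o n i, elen G c d := sum_nonneg fun d _ => ln_elen G c d
  by_cases h22 : (corners c n i).card = 4 ∧ (Oi c o n i).card = 2 ∧ ar G c n i < 2
  · obtain ⟨h4, h2, ha2⟩ := h22
    have hb := Helper38.LC3.bdry22p hff ha ha2 (Oi c o n i) hsub h2 h4 hin hsum
    have hlam' : ∑ d ∈ Oi c o n i, (if ar G c n i < 2 then echd G c d else elen G c d) =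
        ∑ d ∈ Oi c o n i, echd G c d := sum_congr rfl fun d _ => if_pos ha2
    unfold dfi
    rw [hlam, hlam', h4, h2]
    rw [h2, hpp] at hpay
    have hm1 : min 1 (ar G c n i) ≤ 1 := min_le_left _ _
    have hc : 2 * c0 = π / 3 := by
      unfold c0
      ring
    rw [hc]
    push_cast at hpay ⊢
    norm_num at hb hpay ⊢
    linarith
  · obtain ⟨pay, hp⟩ : ∃ pay : ℝ, pay ≤ 14 / 1000 * ((Oi c o n i).card : ℝ) ∧
        ((corners c n i).card = 5 → (Oi c o n i).card = 2 → pay ≤ 14 / 1000) ∧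
        ∑ d ∈ Oi c o n i, (fl G c o n (eopp c d) - fl G c o n (es c (eopp c d))) ≤
          pay + 2 / 1000000 * ((corners c n i).card : ℝ) := by
      by_cases h52 : (corners c n i).card = 5 ∧ (Oi c o n i).card = 2
      · have h1 := pay52 hg hi h52.1 h52.2
        rw [hpp] at h1
        refine ⟨14 / 1000, ?_, fun _ _ => le_rfl, ?_⟩
        · rw [h52.2]
          norm_num
        · rw [h52.1]
          push_cast
          linarith
      · refine ⟨14 / 1000 * ((Oi c o n i).card : ℝ), le_rfl, fun h5 h2 => absurd ⟨h5, h2⟩ h52, ?_⟩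
        have h3 : 2 * ((Oi c o n i).card : ℝ) ≤ ((corners c n i).card : ℝ) := by exact_mod_cast hO2
        rw [hpp] at hpay
        linarith
    obtain ⟨hp1, hp2, hp3⟩ := hp
    have hb := Helper38.LC3.bdry0 hff ha (Oi c o n i) hsub hO hO2 hin hout
      (fun h1 => hTS ⟨hi, h1.1, h1.2.1, h1.2.2⟩) h22 (e := ep) (pay := pay)
      (by rw [hep]; norm_num) (by rw [hep]; norm_num) hp1 hp2
    have hs0 : 0 ≤ ∑ d ∈ Oi c o n i, (if ar G c n i < 2 then echd G c d else elen G c d) := by
      refine sum_nonneg fun d hd => ?_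
      split_ifs
      · exact norm_nonneg _
      · exact ln_elen G c d
    have hm := mul_le_mul_of_nonneg_right hc0 hs0
    have hsq : 0 ≤ √(ar G c n i) := Real.sqrt_nonneg _
    have hcard : (0 : ℝ) ≤ ((corners c n i).card : ℝ) := Nat.cast_nonneg _
    unfold dfi
    rw [hlam]
    linarith

end Pool.Agent.Helper38.AS
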