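import Pool.Agent.Helper38.AS.Defs
import Pool.Agent.Helper98.LC3.S.Sharp
import Pool.Agent.Helper98.LC3.S.OneSharp

/-!
# AS-S: the sharp inequalities for type `S` (helper98's S lemma)

`U = (s1 + s2)/2`, `N = D + U`.  `kp = 1/10^6`.
-/

namespace Pool.Agent.Helper38.AS

open Finset Real Pool.Agent.Helper98.LC
open Pool.Agent.Helper98.LC3 (c0 et0 Face41 HH CoConn GMin ip CenXY Cen41 sharp41_cases
  two_central two_t tri tri_nonneg cen_c2 one41_1 one41_2)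

variable {a : ℝ} {D s1 b1 b2 s2 : ℂ} {L l1 l2 l3 l4 yO y1 y2 y3 y4 : ℝ}

private theorem sl_nsq (z : ℂ) : ‖z‖ ^ 2 = z.re * z.re + z.im * z.im := by
  rw [Complex.sq_norm, Complex.normSq_apply]

private theorem sl_U (h : Face41 a D s1 b1 b2 s2 L l1 l2 l3 l4 yO y1 y2 y3 y4) :
    ‖(s1 + s2) / 2‖ ^ 2 = (‖D‖ ^ 2 + ‖b1 + b2‖ ^ 2 - 2 * ip D (-(b1 + b2))) / 4 := by
  have e : (s1 + s2) / 2 = (-(b1 + b2) - D) / 2 := by
    linear_combination (1 / 2) * h.sum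
  rw [e, sl_nsq, sl_nsq, sl_nsq]
  unfold ip
  simp only [Complex.div_ofNat_re, Complex.div_ofNat_im, Complex.sub_re, Complex.sub_im,
    Complex.neg_re, Complex.neg_im]
  ring

private theorem sl_N (h : Face41 a D s1 b1 b2 s2 L l1 l2 l3 l4 yO y1 y2 y3 y4) :
    ‖D + (s1 + s2) / 2‖ ^ 2 = (‖D‖ ^ 2 + ‖b1 + b2‖ ^ 2 + 2 * ip D (-(b1 + b2))) / 4 := by
  have e : D + (s1 + s2) / 2 = (-(b1 + b2) + D) / 2 := by
    linear_combination (1 / 2) * h.sum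
  rw [e, sl_nsq, sl_nsq, sl_nsq]
  unfold ip
  simp only [Complex.div_ofNat_re, Complex.div_ofNat_im, Complex.add_re, Complex.add_im,
    Complex.neg_re, Complex.neg_im]
  ring

private theorem sl_far (h : Face41 a D s1 b1 b2 s2 L l1 l2 l3 l4 yO y1 y2 y3 y4) :
    ‖(s1 + s2) / 2‖ ^ 2 + (‖D + (s1 + s2) / 2‖ - √3) ^ 2 ≤ 50 := by
  have hm : min 1 a ≤ 1 := min_le_left _ _
  have h1 : ‖s1‖ ≤ 3 := h.e1.le.trans (h.cap1.trans (by linarith))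
  have h2 : ‖s2‖ ≤ 3 := h.e4.le.trans (h.cap4.trans (by linarith))
  have h3 : ‖D‖ ≤ 3.1 := h.eO.le.trans (h.capO.trans (by linarith [h.lt]))
  have hU : ‖(s1 + s2) / 2‖ ≤ 3 := by
    rw [norm_div, Complex.norm_ofNat]
    have := norm_add_le s1 s2
    linarith
  have hN : ‖D + (s1 + s2) / 2‖ ≤ 6.1 := (norm_add_le _ _).trans (by linarith)
  have hs : √3 ≤ 1.74 := by
    rw [Real.sqrt_le_left (by norm_num)]
    norm_num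
  have hs2 : 1.73 ≤ √3 := by
    rw [Real.le_sqrt' (by norm_num)]
    norm_num
  have hU0 := norm_nonneg ((s1 + s2) / 2)
  have hN0 := norm_nonneg (D + (s1 + s2) / 2)
  have h4 : ‖(s1 + s2) / 2‖ ^ 2 ≤ 3 ^ 2 := pow_le_pow_left₀ hU0 hU 2
  have h5 : (‖D + (s1 + s2) / 2‖ - √3) ^ 2 ≤ 5 ^ 2 := by
    apply sq_le_sq'
    · linarith
    · linarith
  norm_num at h4 h5 ⊢
  linarith

private theorem sl_vec (s1 s2 : ℂ) :
    D - (et0 : ℂ) * s1 - (et0 : ℂ) * s2 = D - (et0 : ℂ) * (s1 + s2) := by ring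

/-- the real part of the argument in the central case -/
private theorem sl_real {m u t X nU nN : ℝ} (hm1 : 17 / 20 ≤ m) (hm2 : m ≤ 23 / 20)
    (hu1 : -(1 / 10) ≤ u) (hu2 : u ≤ 1 / 10) (ht0 : 0 ≤ t) (ht1 : t ≤ 1) (hX0 : 0 ≤ X)
    (hX1 : X ≤ 1 / 3) (hU : nU ^ 2 = 3 * u ^ 2 + 3 * (t * X)) (hN0 : 0 ≤ nN)
    (hN : nN ^ 2 = 3 * m ^ 2 - 3 * (t * X)) :
    nU ^ 2 + (nN - √3) ^ 2 ≤
      100 * ((1 - t) * (1 / 6 * ((1 - m) ^ 2 + u ^ 2)) + t * (1 / 2500)) * 100 := by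
  have hs3 : √3 * √3 = 3 := Real.mul_self_sqrt (by norm_num)
  have hs0 : 1 ≤ √3 := by
    rw [Real.le_sqrt' (by norm_num)]
    norm_num
  have htX0 : 0 ≤ t * X := mul_nonneg ht0 hX0
  have htX : t * X ≤ t / 3 := by
    have := mul_le_mul_of_nonneg_left hX1 ht0
    linarith
  -- (nN - √3)^2 ≤ (nN^2 - 3)^2
  have h1 : (nN - √3) ^ 2 ≤ (nN ^ 2 - 3) ^ 2 := by
    have e : nN ^ 2 - 3 = (nN - √3) * (nN + √3) := by linear_combination hs3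
    rw [e, mul_pow]
    have h2 : 1 ≤ (nN + √3) ^ 2 := by nlinarith
    nlinarith [sq_nonneg (nN - √3)]
  have h2 : (nN ^ 2 - 3) ^ 2 ≤ 2 * (9 * (m ^ 2 - 1) ^ 2) + 2 * (9 * (t * X) ^ 2) := by
    rw [hN]
    nlinarith [sq_nonneg (3 * (m ^ 2 - 1) + 3 * (t * X))]
  have h3 : (m ^ 2 - 1) ^ 2 ≤ 5 * (1 - m) ^ 2 := by
    have e : (m ^ 2 - 1) ^ 2 = (1 - m) ^ 2 * (1 + m) ^ 2 := by ring
    rw [e, mul_comm (5 : ℝ)]
    refine mul_le_mul_of_nonneg_left ?_ (sq_nonneg _)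
    nlinarith
  have h4 : (t * X) ^ 2 ≤ t / 9 := by
    have h5 : t * X ≤ 1 / 3 := by linarith
    nlinarith
  have hA0 : 0 ≤ (1 - m) ^ 2 + u ^ 2 := by positivity
  have hA1 : (1 - m) ^ 2 + u ^ 2 ≤ 1 / 20 := by nlinarith
  -- total
  have h6 : nU ^ 2 + (nN - √3) ^ 2 ≤ 90 * ((1 - m) ^ 2 + u ^ 2) + 3 * t := by
    nlinarith [sq_nonneg (1 - m), sq_nonneg u]
  have h7 : t * ((1 - m) ^ 2 + u ^ 2) ≤ t * (1 / 20) := mul_le_mul_of_nonneg_left hA1 ht0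
  nlinarith

theorem sL2 (h : Face41 a D s1 b1 b2 s2 L l1 l2 l3 l4 yO y1 y2 y3 y4) :
    3 * min 1 a + c0 * ‖D - (et0 : ℂ) * s1 - (et0 : ℂ) * s2‖ +
      1 / 1000000 * (‖(s1 + s2) / 2‖ ^ 2 + (‖D + (s1 + s2) / 2‖ - √3) ^ 2) ≤
        HH l1 l2 l3 l4 y1 y2 y3 y4 + L := by
  rw [sl_vec]
  rcases sharp41_cases h with h1 | ⟨⟨hc, hip⟩, -, -⟩
  · have h2 := sl_far h
    linarith
  have hs3 : √3 * √3 = 3 := Real.mul_self_sqrt (by norm_num)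
  have hs0 : 0 < √3 := Real.sqrt_pos.2 (by norm_num)
  have hsl : 1.732 ≤ √3 := by
    rw [Real.le_sqrt' (by norm_num)]
    norm_num
  have hsu : √3 ≤ 1.7321 := by
    rw [Real.sqrt_le_left (by norm_num)]
    norm_num
  obtain ⟨x, hxd⟩ : ∃ x : ℝ, x = ‖D‖ / √3 := ⟨_, rfl⟩
  obtain ⟨y, hyd⟩ : ∃ y : ℝ, y = ‖-(b1 + b2)‖ / √3 := ⟨_, rfl⟩
  rw [← hxd, ← hyd] at hc
  rw [norm_neg] at hyd hip
  have hx : ‖D‖ = √3 * x := by rw [hxd]; field_simp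
  have hy : ‖b1 + b2‖ = √3 * y := by rw [hyd]; field_simp
  have hc' := hc
  obtain ⟨hc1, hc2, hc3, hc4⟩ := hc'
  have hx0 : 0 < x := by linarith
  have hy0 : 0 < y := by linarith
  obtain ⟨t, ht0, ht1, hK⟩ := two_t hx0 hy0 hx hy hip
  obtain ⟨q1, ζ1, hq1, hq1b, hζ1, hz1, hmain⟩ := two_central h hx hy hc ht0 ht1 hK
  obtain ⟨m, hm⟩ : ∃ m : ℝ, m = (x + y) / 2 := ⟨_, rfl⟩
  obtain ⟨u, hu⟩ : ∃ u : ℝ, u = (y - x) / 2 := ⟨_, rfl⟩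
  have hc2' := cen_c2 hc
  rw [← hm, ← hu] at hmain hc2'
  have hm1 : 17 / 20 ≤ m := by linarith
  have hm2 : m ≤ 23 / 20 := by linarith
  have hu1 : -(1 / 10) ≤ u := by linarith
  have hu2 : u ≤ 1 / 10 := by linarith
  have hxm : x = m - u := by linarith
  have hym : y = m + u := by linarith
  obtain ⟨ζ0, hζ0⟩ : ∃ ζ0 : ℝ, ζ0 = √3 / 2 * (m - u / 3 + 23 / 20 * u ^ 2) := ⟨_, rfl⟩
  obtain ⟨q0, hq0⟩ : ∃ q0 : ℝ, q0 = m ^ 2 + 243 / 100 * u ^ 2 := ⟨_, rfl⟩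
  rw [← hζ0, ← hq0] at hmain hc2'
  have hζ00 : 0 ≤ ζ0 := by
    rw [hζ0]
    have : 0 ≤ m - u / 3 + 23 / 20 * u ^ 2 := by nlinarith [sq_nonneg u]
    positivity
  have hq00 : 0 ≤ q0 := by rw [hq0]; positivity
  have hq02 : q0 ≤ 3 / 2 := by
    rw [hq0]
    nlinarith
  have htri : 0 ≤ tri b1 b2 ((1 - t) * q0 + t * q1) ((1 - t) * ζ0 + t * ζ1) := by
    refine tri_nonneg b1 b2 hy ?_ ?_
    · have e1 : 0 ≤ (1 - t) * ζ0 := mul_nonneg (by linarith) hζ00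
      have e2 : 0 ≤ t * ζ1 := mul_nonneg ht0 hζ1
      linarith
    · have e1 : (1 - t) * (ζ0 ^ 2 + y ^ 2 / 4) ≤ (1 - t) * q0 :=
        mul_le_mul_of_nonneg_left hc2' (by linarith)
      have e2 : t * (ζ1 ^ 2 + y ^ 2 / 4) ≤ t * q1 := mul_le_mul_of_nonneg_left hz1 ht0
      have e3 : 0 ≤ (1 - t) * t * (ζ0 - ζ1) ^ 2 :=
        mul_nonneg (mul_nonneg (by linarith) ht0) (sq_nonneg _)
      have e4 : ((1 - t) * ζ0 + t * ζ1) ^ 2 =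
          (1 - t) * ζ0 ^ 2 + t * ζ1 ^ 2 - (1 - t) * t * (ζ0 - ζ1) ^ 2 := by ring
      rw [e4]
      linarith
  obtain ⟨q, hq⟩ : ∃ q : ℝ, q = (1 - t) * q0 + t * q1 := ⟨_, rfl⟩
  rw [← hq] at hmain htri
  have hqle : q ≤ 3 / 2 := by
    rw [hq]
    have e1 : (1 - t) * q0 ≤ (1 - t) * (3 / 2) := mul_le_mul_of_nonneg_left hq02 (by linarith)
    have e2 : t * q1 ≤ t * (3 / 2) := mul_le_mul_of_nonneg_left hq1b ht0
    linarith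
  have hqge : 0 ≤ q := by
    rw [hq]
    have e1 : 0 ≤ (1 - t) * q0 := mul_nonneg (by linarith) hq00
    have e2 : 0 ≤ t * q1 := mul_nonneg ht0 hq1
    linarith
  obtain ⟨σ, hσ⟩ : ∃ σ : ℝ, σ = HH l1 l2 l3 l4 y1 y2 y3 y4 + L - 3 * min 1 a -
    c0 * ‖D - (et0 : ℂ) * (s1 + s2)‖ := ⟨_, rfl⟩
  rw [← hσ] at hmain
  obtain ⟨F, hF⟩ : ∃ F : ℝ, F = (1 - t) * (1 / 6 * ((1 - m) ^ 2 + u ^ 2)) + t * (1 / 2500) :=
    ⟨_, rfl⟩
  rw [← hF] at hmain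
  have hF0 : 0 ≤ F := by
    rw [hF]
    have e1 : 0 ≤ (1 - t) * (1 / 6 * ((1 - m) ^ 2 + u ^ 2)) :=
      mul_nonneg (by linarith) (by positivity)
    linarith
  have hFσ : F ≤ (1 + q) / √3 * σ := by linarith
  have hr0 : 0 < (1 + q) / √3 := by positivity
  have hr1 : (1 + q) / √3 ≤ 3 / 2 := by
    rw [div_le_iff₀ hs0]
    linarith
  have hσ0 : 0 ≤ σ := by
    by_contra hcon
    push Not at hcon
    have := mul_neg_of_pos_of_neg hr0 hcon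
    linarith
  have hσ1 : F ≤ 3 / 2 * σ := hFσ.trans (mul_le_mul_of_nonneg_right hr1 hσ0)
  -- the geometry
  have hX0 : 0 ≤ x * y / 5 := by positivity
  have hX1 : x * y / 5 ≤ 1 / 3 := by
    have : x * y = m ^ 2 - u ^ 2 := by rw [hxm, hym]; ring
    rw [this]
    nlinarith [sq_nonneg u]
  have hipe : ip D (-(b1 + b2)) = 3 * (x * y) - 6 * (t * (x * y / 5)) := by
    rw [hx, hy] at hK
    linear_combination hK + (x * y) * hs3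
  have hD2 : ‖D‖ ^ 2 = 3 * x ^ 2 := by
    rw [hx]
    linear_combination (x ^ 2) * hs3
  have hV2 : ‖b1 + b2‖ ^ 2 = 3 * y ^ 2 := by
    rw [hy]
    linear_combination (y ^ 2) * hs3
  have hU := sl_U h
  have hN := sl_N h
  rw [hD2, hV2, hipe] at hU hN
  have hU' : ‖(s1 + s2) / 2‖ ^ 2 = 3 * u ^ 2 + 3 * (t * (x * y / 5)) := by
    rw [hU, hu]
    ring
  have hN' : ‖D + (s1 + s2) / 2‖ ^ 2 = 3 * m ^ 2 - 3 * (t * (x * y / 5)) := by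
    rw [hN, hm]
    ring
  have hfin := sl_real hm1 hm2 hu1 hu2 ht0 ht1 hX0 hX1 hU' (norm_nonneg _) hN'
  rw [← hF] at hfin
  linarith

theorem sLen (h : Face41 a D s1 b1 b2 s2 L l1 l2 l3 l4 yO y1 y2 y3 y4)
    (hn : ‖D - (et0 : ℂ) * s1 - (et0 : ℂ) * s2‖ < 1) :
    3 * min 1 a + c0 * ‖D - (et0 : ℂ) * s1 - (et0 : ℂ) * s2‖ + 1 / 20000 ≤
      HH l1 l2 l3 l4 y1 y2 y3 y4 + L := by
  rw [sl_vec] at hn ⊢
  rcases sharp41_cases h with h1 | ⟨-, h1, -⟩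
  · exact h1
  · exact absurd hn (not_lt.2 h1)

theorem sL1a (h : Face41 a D s1 b1 b2 s2 L l1 l2 l3 l4 yO y1 y2 y3 y4) :
    3 * min 1 a + c0 * ‖D - (et0 : ℂ) * s1‖ ≤ HH l1 l2 l3 l4 y1 y2 y3 y4 + L + 0.0035 := by
  have := one41_1 h
  norm_num at this ⊢
  linarith

theorem sL1b (h : Face41 a D s1 b1 b2 s2 L l1 l2 l3 l4 yO y1 y2 y3 y4) :
    3 * min 1 a + c0 * ‖D - (et0 : ℂ) * s2‖ ≤ HH l1 l2 l3 l4 y1 y2 y3 y4 + L + 0.0035 := by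
  have := one41_2 h
  norm_num at this ⊢
  linarith

end Pool.Agent.Helper38.AS
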