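import Pool.Agent.Helper38.AS.FiveL
import Pool.Agent.Helper38.AS.SLem
import Pool.Agent.Helper38.LC3.Bdry

/-!
# AS-05: the deficit of a class of type `S`

`d` from `Five`, `p = (es c)^[4] d` is the predecessor of `d` (`cyc`).  `Oi i = {d}`, so all sums over `Oi i` have one term; `corners \ Oi` sums: total minus the term `d`.
`6 - 5 - 1 = 0`.  `enb c (eopp c d) = i` (`eopp_corner`), so `lam3 (eopp d) = ‖zs (es (eopp d)) - zs (eopp d)‖ = ‖D'‖` up to sign, `D' = D - [shift at the end] et0 s1 - [shift at the start] et0 s2`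
(`zs_end`, `zs_start`; `zl p - zl d = - s2`).  `dfi = 2 (HH + L - 3 m - c0 ‖D'‖) - flc i (enb (es d)) - flc i (enb p)`, and `flc i j = - pp` if `j` is not of type `S`, `0` otherwise.
* `locS_two`: both neighbours of type `S`.
* `locS_one`: otherwise `sL1a`, `sL1b` (loss `.007`, gain `pp = .007002`), or `bdry41_00` (`LC3/Bdry.lean`; loss `.013`, gain `2 pp = .014004`; `5236/10000 ≥ c0`; `faceFacts2`).
* `TS_nonempty`: card of corners is `5`, so there is `x` with `c x = i`.
-/

namespace Pool.Agent.Helper38.AS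

open Finset Real Pool.Agent.Helper98.LC
open Pool.Agent.Helper98.LC3 (c0 et0 Face41 HH CoConn GMin)

variable {ι : Type} [DecidableEq ι] {c : V → ι} {o : ι} {n : ℕ}

private theorem ls_d {G : Net} {i : ι} {d : V × Fin 6} (hd : Five G c o n i d) :
    d ∈ Oi c o n i := by
  rw [hd.Oeq]
  exact mem_singleton_self d

private theorem ls_pred {G : Net} {i : ι} {d : V × Fin 6} (hd : Five G c o n i d) :
    es c ((es c)^[4] d) = d := by
  have h := hd.cyc
  rwa [Function.iterate_succ_apply'] at h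

private theorem ls_sdiff {G : Net} {i : ι} {d : V × Fin 6} (hd : Five G c o n i d)
    (f : V × Fin 6 → ℝ) : ∑ x ∈ corners c n i \ Oi c o n i, f x =
      f (es c d) + f ((es c)^[2] d) + f ((es c)^[3] d) + f ((es c)^[4] d) := by
  have hsub : Oi c o n i ⊆ corners c n i := filter_subset _ _
  have h1 := sum_sdiff hsub (f := f)
  rw [hd.Oeq, sum_singleton, hd.sum f] at h1
  rw [hd.Oeq]
  linarith

private theorem ls_dfi [Fintype ι] {G : Net} (hg : Good G c o n) {i : ι} (h : TS G c o n i)
    {d : V × Fin 6} (hd : Five G c o n i d) :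
    dfi G c o n i = 2 * (HH (elen G c (es c d)) (elen G c ((es c)^[2] d)) (elen G c ((es c)^[3] d))
      (elen G c ((es c)^[4] d)) (ebul G c (es c d)) (ebul G c ((es c)^[2] d))
      (ebul G c ((es c)^[3] d)) (ebul G c ((es c)^[4] d)) + elen G c d - 3 * min 1 (ar G c n i)) -
      2 * c0 * ‖zs G c o n (es c (eopp c d)) - zs G c o n (eopp c d)‖ -
      (flc G c o n i (enb c (es c d)) + flc G c o n i (enb c ((es c)^[4] d))) := by
  have hdO := ls_d hd
  have hdc : d ∈ corners c n i := hd.mem 0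
  have hcd := (mem_corners hg.out i d).1 hdc
  have henb : enb c (eopp c d) = i := (eopp_corner hg.out hcd.1).2.2.1.trans hcd.2
  have hlam : lam3 G c o n (eopp c d) =
      ‖zs G c o n (es c (eopp c d)) - zs G c o n (eopp c d)‖ := by
    unfold lam3
    rw [henb, if_pos h.2.2.2]
  unfold dfi
  rw [ls_sdiff hd, hd.sum, h.2.1, h.2.2.1]
  rw [hd.Oeq]
  simp only [sum_singleton]
  rw [hlam, fl_end G hg.out hdO, fl_start G hg.out hdO (hd.mem 4) (ls_pred hd)]
  unfold HH
  push_cast
  ring

theorem locS_two [Fintype ι] {G : Net} (hg : Good G c o n) {i : ι} (h : TS G c o n i)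
    {d : V × Fin 6} (hd : Five G c o n i d) (h1 : TS G c o n (enb c (es c d)))
    (h2 : TS G c o n (enb c ((es c)^[4] d))) :
    zs G c o n (es c (eopp c d)) = G.zl d - (et0 : ℂ) * (G.zl ((es c)^[4] d) - G.zl d) ∧
    zs G c o n (eopp c d) = G.zl (es c d) - (et0 : ℂ) * (G.zl ((es c)^[2] d) - G.zl (es c d)) ∧
    dfi G c o n i = 2 * (HH (elen G c (es c d)) (elen G c ((es c)^[2] d)) (elen G c ((es c)^[3] d))
      (elen G c ((es c)^[4] d)) (ebul G c (es c d)) (ebul G c ((es c)^[2] d))
      (ebul G c ((es c)^[3] d)) (ebul G c ((es c)^[4] d)) + elen G c d - 3 * min 1 (ar G c n i) -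
      c0 * ‖(G.zl (es c d) - G.zl d) - (et0 : ℂ) * (G.zl ((es c)^[2] d) - G.zl (es c d)) -
        (et0 : ℂ) * (G.zl d - G.zl ((es c)^[4] d))‖) := by
  have hdO := ls_d hd
  have e1 : zs G c o n (es c (eopp c d)) =
      G.zl d - (et0 : ℂ) * (G.zl ((es c)^[4] d) - G.zl d) := by
    rw [zs_start G hg.out hdO (hd.mem 4) (ls_pred hd), if_pos ⟨h, h2⟩]
  have e2 : zs G c o n (eopp c d) =
      G.zl (es c d) - (et0 : ℂ) * (G.zl ((es c)^[2] d) - G.zl (es c d)) := by
    rw [zs_end G hg.out hdO, if_pos ⟨h1, h⟩]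
    rfl
  refine ⟨e1, e2, ?_⟩
  have f1 : flc G c o n i (enb c (es c d)) = 0 := by
    unfold flc
    rw [if_neg (fun h3 => h3.2 h1), if_neg (fun h3 => h3.1 h)]
  have f2 : flc G c o n i (enb c ((es c)^[4] d)) = 0 := by
    unfold flc
    rw [if_neg (fun h3 => h3.2 h2), if_neg (fun h3 => h3.1 h)]
  rw [ls_dfi hg h hd, f1, f2, e1, e2]
  have e3 : G.zl d - (et0 : ℂ) * (G.zl ((es c)^[4] d) - G.zl d) -
      (G.zl (es c d) - (et0 : ℂ) * (G.zl ((es c)^[2] d) - G.zl (es c d))) =
      -((G.zl (es c d) - G.zl d) - (et0 : ℂ) * (G.zl ((es c)^[2] d) - G.zl (es c d)) -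
        (et0 : ℂ) * (G.zl d - G.zl ((es c)^[4] d))) := by ring
  rw [e3, norm_neg]
  ring

theorem locS_one [Fintype ι] {G : Net} (hg : Good G c o n) {i : ι} (h : TS G c o n i)
    {d : V × Fin 6} (hd : Five G c o n i d)
    (h12 : ¬ (TS G c o n (enb c (es c d)) ∧ TS G c o n (enb c ((es c)^[4] d)))) :
    1 / 1000000 ≤ dfi G c o n i := by
  have hdO := ls_d hd
  have hs := zs_start G hg.out hdO (hd.mem 4) (ls_pred hd)
  have he := zs_end G hg.out hdO
  rw [ls_dfi hg h hd]
  have hpp : pp = 7002 / 1000000 := rfl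
  by_cases h1 : TS G c o n (enb c (es c d))
  · have h2 : ¬ TS G c o n (enb c ((es c)^[4] d)) := fun h2 => h12 ⟨h1, h2⟩
    have f1 : flc G c o n i (enb c (es c d)) = 0 := by
      unfold flc
      rw [if_neg (fun h3 => h3.2 h1), if_neg (fun h3 => h3.1 h)]
    have f2 : flc G c o n i (enb c ((es c)^[4] d)) = - pp := by
      unfold flc
      rw [if_pos ⟨h, h2⟩]
    rw [if_neg (fun h3 => h2 h3.2)] at hs
    rw [if_pos ⟨h1, h⟩] at he
    have hk := sL1a hd.face
    have e3 : zs G c o n (es c (eopp c d)) - zs G c o n (eopp c d) =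
        -((G.zl (es c d) - G.zl d) - (et0 : ℂ) * (G.zl ((es c)^[2] d) - G.zl (es c d))) := by
      rw [hs, he]
      change _ - (_ - (et0 : ℂ) * (G.zl ((es c)^[2] d) - G.zl (es c d))) = _
      ring
    rw [e3, norm_neg, f1, f2, hpp]
    norm_num at hk ⊢
    linarith
  · have f1 : flc G c o n i (enb c (es c d)) = - pp := by
      unfold flc
      rw [if_pos ⟨h, h1⟩]
    rw [if_neg (fun h3 => h1 h3.1)] at he
    by_cases h2 : TS G c o n (enb c ((es c)^[4] d))
    · have f2 : flc G c o n i (enb c ((es c)^[4] d)) = 0 := by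
        unfold flc
        rw [if_neg (fun h3 => h3.2 h2), if_neg (fun h3 => h3.1 h)]
      rw [if_pos ⟨h, h2⟩] at hs
      have hk := sL1b hd.face
      have e3 : zs G c o n (es c (eopp c d)) - zs G c o n (eopp c d) =
          -((G.zl (es c d) - G.zl d) - (et0 : ℂ) * (G.zl d - G.zl ((es c)^[4] d))) := by
        rw [hs, he]
        ring
      rw [e3, norm_neg, f1, f2, hpp]
      norm_num at hk ⊢
      linarith
    · have f2 : flc G c o n i (enb c ((es c)^[4] d)) = - pp := by
        unfold flc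
        rw [if_pos ⟨h, h2⟩]
      rw [if_neg (fun h3 => h2 h3.2)] at hs
      have e3 : ‖zs G c o n (es c (eopp c d)) - zs G c o n (eopp c d)‖ = echd G c d := by
        unfold echd
        rw [hs, he, sub_zero, sub_zero, norm_sub_rev]
      have hff := Helper38.LC2.faceFacts2 G hg.out hg.loop h.1
      have hx : ∃ x, c x = i := ⟨d.1, ((mem_corners hg.out i d).1 (hd.mem 0)).2⟩
      have hsub : Oi c o n i ⊆ corners c n i := filter_subset _ _
      have hb := Helper38.LC3.bdry41_00 hff (hg.pos i h.1 hx) h.2.2.2 (Oi c o n i) hsub h.2.2.1 h.2.1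
        (by
          intro e he
          rw [mem_sdiff] at he
          refine hg.cap_in i h.1 e he.1 fun h3 => he.2 ?_
          exact mem_filter.2 ⟨he.1, h3⟩)
      rw [ls_sdiff hd, hd.sum] at hb
      rw [hd.Oeq] at hb
      simp only [sum_singleton] at hb
      have hc0 : c0 ≤ 5236 / 10000 := by
        unfold c0
        have := Real.pi_lt_d4
        linarith
      have hch : 0 ≤ echd G c d := norm_nonneg _
      have hel : 0 ≤ elen G c d := by
        unfold elen
        exact sum_nonneg fun j _ => w_nonneg G _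
      have hsq : 0 ≤ √(ar G c n i) := Real.sqrt_nonneg _
      have hcard : (0 : ℝ) ≤ ((corners c n i).card : ℝ) := Nat.cast_nonneg _
      have hm := mul_le_mul_of_nonneg_right hc0 hch
      rw [e3, f1, f2, hpp]
      unfold HH
      norm_num at hb ⊢
      linarith

end Pool.Agent.Helper38.AS
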