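import Pool.Agent.Helper38.AS.Near

/-!
# AS-19: the model theorem with the constant `K = c0 √(4 π A0)`, and with a larger constant

Same structure as `model_conn` in `Helper98/LC/F/Model.lean` (helper lemmas `md_*` there; copy what is private).  `Ψ = per2 c - 6 ∑ min 1 (ar i)`, `s = √T`, `T = tot c₀`, `c` from `exists_gmin`
(`Helper98/LC3/P/Gmin.lean`) for `η = a/s`, `X = tot c ≤ T`.  `Phi c₀ ≥ Phi c` means: it is enough to show `Ψ + η (T - X) ≥ a s - C`.  If `c x = o` for all `x`: `X = 0`, `Ψ ≥ 0`.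
Otherwise `good` (`η ≤ 1/10`, `η s = a ≤ 10`), `sum_dfi`: `2 c0 La + SD ≤ Ψ`, `SD ≥ 0` (`dfi_nonneg`), `La ≥ 0`, `curve3`: `4 π A0 (X - 14 La - 10^8 SD) ≤ La²`.
`5.98 ≤ K2 = 2 c0 √(4 π A0) ≤ 5.99`.
* `conn_one` (`a = K2`, `C = 10^10`): if `T < 3721`: `∑ min ≤ T`, `√T ≤ 61`.  Let `T ≥ 3721`, `s ≥ 61`.  If `Ψ ≥ K2 s`: clear.  Otherwise `La ≤ 6 s`, `SD ≤ 7 s`, `La² ≥ 4 π A0 X'`, `X' = X - 8 * 10^8 s`;
  `X' ≤ 0`: `η (T - X) ≥ η (T - 8 * 10^8 s) = K2 s - K2 8 * 10^8`; `X' > 0`: `Ψ ≥ 2 c0 La ≥ K2 √X' ≥ K2 X'/s`, and `K2 X'/s + K2 (T - X)/s = K2 s - K2 * 8 * 10^8`.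
* `conn_two`: `δ`, `T0` from `near`, `a = K2 (1 + δ/4)` (`≤ 6.02`), `ε = K2 δ/4`, `C` large (`≥ 6 T1 + 7 √T1` where `T1 = max T0 3721`; and `≥ 10^10`).  `T < T1` as before.  `T ≥ T1`: if `X ≥ (1 - δ) T`: `near`:
  `Ψ > K2 (1 + δ) s ≥ a s`.  If `X < (1 - δ) T`: as above, `Ψ ≥ K2 √X'`, `X' = X - 8 * 10^8 s ≤ (1 - δ) s²`, so with `y = √X'/s ≤ √(1 - δ) ≤ 1 - δ/2`: `K2 y ≥ a y²` (`a (1 - δ/2) ≤ K2`), `Ψ ≥ K2 √X' ≥ a X'/s`.
-/

namespace Pool.Agent.Helper38.AS

open Finset Real Pool.Agent.Helper98.LC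
open Pool.Agent.Helper98.LC3 (c0 et0 Face41 HH CoConn GMin)

/-- `2 K` -/
noncomputable def K2 : ℝ := 2 * c0 * √(4 * π * A0)

/-- the bound for all labellings with connected classes -/
def ConnB (a C : ℝ) : Prop :=
  ∀ (ι : Type) [DecidableEq ι] [Fintype ι] (G : Net) (c₀ : V → ι) (o : ι) (n : ℕ),
    OutBox c₀ o n → Conn c₀ →
    6 * ∑ i ∈ univ.filter (fun i => i ≠ o), min 1 (ar G c₀ n i) + a * √(tot G c₀ o n) - C ≤
      per2 G c₀ n

private theorem a19_q : 5.7138 ≤ √(4 * π * A0) ∧ √(4 * π * A0) ≤ 5.7142 := by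
  have h1 : (3.141592 : ℝ) < π := Real.pi_gt_d6
  have h1' : π < 3.141593 := Real.pi_lt_d6
  have h2 : (1.73205 : ℝ) ≤ √3 := by
    refine Real.le_sqrt_of_sq_le ?_
    norm_num
  have h2' : √3 ≤ (1.73206 : ℝ) := by
    rw [Real.sqrt_le_left (by norm_num)]
    norm_num
  have h3 : (3.141592 : ℝ) * 1.73205 ≤ π * √3 :=
    mul_le_mul h1.le h2 (by norm_num) Real.pi_pos.le
  have h3' : π * √3 ≤ (3.141593 : ℝ) * 1.73206 :=
    mul_le_mul h1'.le h2' (Real.sqrt_nonneg _) (by norm_num)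
  have e : 4 * π * A0 = 6 * (π * √3) := by
    unfold A0
    ring
  rw [e]
  constructor
  · refine Real.le_sqrt_of_sq_le ?_
    nlinarith
  · rw [Real.sqrt_le_left (by norm_num)]
    nlinarith

private theorem a19_c0 : 0.52359 < c0 ∧ c0 < 0.5236 := by
  have h1 : (3.141592 : ℝ) < π := Real.pi_gt_d6
  have h1' : π < 3.141593 := Real.pi_lt_d6
  unfold Pool.Agent.Helper98.LC3.c0
  constructor <;> linarith

private theorem a19_w_nonneg (G : Net) (d : V × Fin 6) : 0 ≤ G.w d := by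
  unfold Net.w
  positivity

private theorem a19_per2_nonneg {ι : Type} [DecidableEq ι] (G : Net) (c : V → ι) (n : ℕ) :
    0 ≤ per2 G c n := by
  unfold per2
  exact sum_nonneg fun j _ => a19_w_nonneg G _

private theorem a19_tot_nonneg {ι : Type} [DecidableEq ι] [Fintype ι] (G : Net) (c : V → ι)
    (o : ι) (n : ℕ) : 0 ≤ tot G c o n := by
  unfold tot
  exact sum_nonneg fun j _ => ar_nonneg G c n j

private theorem a19_Phi {ι : Type} [DecidableEq ι] [Fintype ι] (G : Net) (c : V → ι) (o : ι)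
    (n : ℕ) (η : ℝ) :
    Phi G c o n η = per2 G c n - 6 * ∑ i ∈ univ.filter (fun i => i ≠ o), min 1 (ar G c n i) -
      η * tot G c o n := by
  unfold Phi tot
  rw [sum_add_distrib, ← mul_sum, ← mul_sum]
  ring

private theorem a19_SD {ι : Type} [DecidableEq ι] [Fintype ι] {G : Net} {c : V → ι} {o : ι}
    {n : ℕ} (hg : Good G c o n) : 0 ≤ SD G c o n := by
  unfold SD
  refine sum_nonneg fun i hi => ?_
  simp only [NC, mem_filter, mem_univ, true_and] at hi
  exact dfi_nonneg hg hi.1 hi.2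

private theorem a19_La {ι : Type} [DecidableEq ι] (G : Net) (c : V → ι) (o : ι)
    (n : ℕ) : 0 ≤ La G c o n := by
  unfold La
  exact sum_nonneg fun e _ => lam3_nonneg G c o n e

/-- the numerical part -/
private theorem a19_real {a s T X Ps L S η : ℝ} (hs : 61 ≤ s) (hs2 : s ^ 2 = T)
    (ha : a ≤ 6.02) (hη : η * s = a) (hη0 : 0 ≤ η) (hX : X ≤ T) (hL : 0 ≤ L) (hS : 0 ≤ S)
    (h1 : 2 * c0 * L + S ≤ Ps) (h2 : 4 * π * (A0 * (X - 14 * L - 10 ^ 8 * S)) ≤ L ^ 2)
    (h3 : a ^ 2 * X ≤ K2 ^ 2 * s ^ 2) :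
    a * s - 10 ^ 10 ≤ Ps + η * (T - X) := by
  obtain ⟨hc1, hc2⟩ := a19_c0
  have hTX : 0 ≤ η * (T - X) := mul_nonneg hη0 (by linarith)
  have hηT : η * T = a * s := by
    rw [← hs2, ← hη]
    ring
  have hcL : 0 ≤ 2 * c0 * L := mul_nonneg (by linarith) hL
  rcases le_total (a * s) Ps with h4 | h4
  · linarith
  · have has : a * s ≤ 6.02 * s := mul_le_mul_of_nonneg_right ha (by linarith)
    have hS2 : S ≤ 7 * s := by linarith
    have hL2 : L ≤ 6 * s := by
      have h5 : 2 * 0.52359 * L ≤ 2 * c0 * L := by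
        refine mul_le_mul_of_nonneg_right ?_ hL
        linarith
      linarith
    have hA : 0 < 4 * π * A0 := by
      have := Real.pi_pos
      have := Pool.Agent.Helper38.LC2.A0_pos
      positivity
    have h5 : 4 * π * A0 * (X - 8 * 10 ^ 8 * s) ≤ L ^ 2 := by
      refine le_trans ?_ h2
      have h6 : X - 8 * 10 ^ 8 * s ≤ X - 14 * L - 10 ^ 8 * S := by linarith
      have h7 := mul_le_mul_of_nonneg_left h6 hA.le
      linarith
    have hPs : 2 * c0 * L ≤ Ps := by linarith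
    have key : η * (X - 8 * 10 ^ 8 * s) ≤ Ps := by
      rcases le_total (X - 8 * 10 ^ 8 * s) 0 with h6 | h6
      · have : η * (X - 8 * 10 ^ 8 * s) ≤ 0 := mul_nonpos_of_nonneg_of_nonpos hη0 h6
        linarith
      · refine le_trans ?_ hPs
        refine le_of_sq_le_sq ?_ hcL
        have hK : K2 ^ 2 = (2 * c0) ^ 2 * (4 * π * A0) := by
          unfold K2
          rw [mul_pow, Real.sq_sqrt hA.le]
        have h7 : K2 ^ 2 * (X - 8 * 10 ^ 8 * s) ≤ (2 * c0 * L) ^ 2 := by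
          calc K2 ^ 2 * (X - 8 * 10 ^ 8 * s) =
                (2 * c0) ^ 2 * (4 * π * A0 * (X - 8 * 10 ^ 8 * s)) := by
                rw [hK]
                ring
            _ ≤ (2 * c0) ^ 2 * L ^ 2 := mul_le_mul_of_nonneg_left h5 (by positivity)
            _ = (2 * c0 * L) ^ 2 := by ring
        refine le_trans ?_ h7
        have hs0 : 0 < s := by linarith
        have h9 : η ^ 2 * (X - 8 * 10 ^ 8 * s) ≤ K2 ^ 2 := by
          have h10 : η ^ 2 * (X - 8 * 10 ^ 8 * s) * s ^ 2 ≤ K2 ^ 2 * s ^ 2 := by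
            calc η ^ 2 * (X - 8 * 10 ^ 8 * s) * s ^ 2 =
                  (η * s) ^ 2 * (X - 8 * 10 ^ 8 * s) := by ring
              _ = a ^ 2 * (X - 8 * 10 ^ 8 * s) := by rw [hη]
              _ ≤ a ^ 2 * X := by
                  refine mul_le_mul_of_nonneg_left ?_ (by positivity)
                  linarith
              _ ≤ K2 ^ 2 * s ^ 2 := h3
          exact le_of_mul_le_mul_right h10 (by positivity)
        calc (η * (X - 8 * 10 ^ 8 * s)) ^ 2 =
              η ^ 2 * (X - 8 * 10 ^ 8 * s) * (X - 8 * 10 ^ 8 * s) := by ring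
          _ ≤ K2 ^ 2 * (X - 8 * 10 ^ 8 * s) := mul_le_mul_of_nonneg_right h9 h6
    have h10 : η * (X - 8 * 10 ^ 8 * s) + η * (T - X) = a * s - 8 * 10 ^ 8 * a := by
      have : η * (X - 8 * 10 ^ 8 * s) + η * (T - X) = η * T - 8 * 10 ^ 8 * (η * s) := by ring
      rw [this, hηT, hη]
    have h11 : 8 * 10 ^ 8 * a ≤ 10 ^ 10 := by
      have : (8 : ℝ) * 10 ^ 8 * a ≤ 8 * 10 ^ 8 * 6.02 :=
        mul_le_mul_of_nonneg_left ha (by norm_num)
      refine this.trans ?_
      norm_num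
    linarith

/-- the reduction to good labellings -/
private theorem a19_red {a C T1 : ℝ} (ha0 : 0 ≤ a) (ha : a ≤ 6.02) (hT1 : 3721 ≤ T1)
    (hC : 6 * T1 + 7 * √T1 ≤ C)
    (key : ∀ (ι : Type) [DecidableEq ι] [Fintype ι] (G : Net) (c : V → ι) (o : ι) (n : ℕ)
      (T η : ℝ), Good G c o n → T1 ≤ T → tot G c o n ≤ T → 0 ≤ η → η * √T = a →
      a * √T - C ≤ (per2 G c n - 6 * ∑ i ∈ univ.filter (fun i => i ≠ o), min 1 (ar G c n i)) +
        η * (T - tot G c o n)) : ConnB a C := by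
  intro ι _ _ G c₀ o n h hc
  have hT0 := a19_tot_nonneg G c₀ o n
  rcases lt_or_ge (tot G c₀ o n) T1 with hT | hT
  · have h1 : ∑ i ∈ univ.filter (fun i => i ≠ o), min 1 (ar G c₀ n i) ≤ tot G c₀ o n := by
      unfold tot
      exact sum_le_sum fun i _ => min_le_right _ _
    have h2 : √(tot G c₀ o n) ≤ √T1 := Real.sqrt_le_sqrt hT.le
    have h3 := a19_per2_nonneg G c₀ n
    have h4 : a * √(tot G c₀ o n) ≤ 7 * √T1 :=
      mul_le_mul (by linarith) h2 (Real.sqrt_nonneg _) (by norm_num)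
    linarith
  · have hs : 61 ≤ √(tot G c₀ o n) := by
      refine Real.le_sqrt_of_sq_le ?_
      norm_num
      exact hT1.trans hT
    have hs2 : √(tot G c₀ o n) ^ 2 = tot G c₀ o n := Real.sq_sqrt hT0
    set s := √(tot G c₀ o n) with hsdef
    have hs0 : 0 < s := by linarith
    set η : ℝ := a / s with hηdef
    have hη : η * s = a := div_mul_cancel₀ _ hs0.ne'
    have hη0 : 0 ≤ η := div_nonneg ha0 hs0.le
    have hη1 : η ≤ 1 / 10 := by
      rw [hηdef, div_le_div_iff₀ hs0 (by norm_num)]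
      linarith
    obtain ⟨c, hmin, hPhi, hX⟩ := Pool.Agent.Helper98.LC3.exists_gmin G h hc η
    rw [a19_Phi, a19_Phi] at hPhi
    have hηT : η * tot G c₀ o n = a * s := by
      rw [← hs2, ← hη]
      ring
    have key' : a * s - C ≤
        (per2 G c n - 6 * ∑ i ∈ univ.filter (fun i => i ≠ o), min 1 (ar G c n i)) +
          η * (tot G c₀ o n - tot G c o n) := by
      by_cases hx : ∃ x, c x ≠ o
      · have hg : Good G c o n := good hmin hη0 hη1 (by
          rw [← hsdef, hη]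
          linarith) hX hx
        exact key ι G c o n (tot G c₀ o n) η hg hT hX hη0 hη
      · push Not at hx
        have h1 : ∀ i ∈ univ.filter (fun i => i ≠ o), ar G c n i = 0 := by
          intro i hi
          rw [mem_filter] at hi
          unfold ar
          rw [filter_false_of_mem, sum_empty, zero_div]
          intro x _ hxi
          exact hi.2 (hxi.symm.trans (hx x))
        have h2 : tot G c o n = 0 := by
          unfold tot
          exact sum_eq_zero h1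
        have h3 : ∑ i ∈ univ.filter (fun i => i ≠ o), min 1 (ar G c n i) = 0 := by
          refine sum_eq_zero fun i hi => ?_
          rw [h1 i hi]
          norm_num
        have h4 := a19_per2_nonneg G c n
        have h5 : 0 ≤ √T1 := Real.sqrt_nonneg _
        rw [h2, h3, sub_zero, hηT]
        linarith
    have h5 : η * (tot G c₀ o n - tot G c o n) = a * s - η * tot G c o n := by
      rw [mul_sub, hηT]
    linarith

theorem K2_num : 5.98 < K2 ∧ K2 < 5.99 := by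
  obtain ⟨hc1, hc2⟩ := a19_c0
  obtain ⟨hq1, hq2⟩ := a19_q
  unfold K2
  constructor
  · have h := mul_le_mul (show 2 * (0.52359 : ℝ) ≤ 2 * c0 by linarith) hq1 (by norm_num)
      (by linarith)
    refine lt_of_lt_of_le ?_ h
    norm_num
  · have h := mul_le_mul (show 2 * c0 ≤ 2 * (0.5236 : ℝ) by linarith) hq2 (Real.sqrt_nonneg _)
      (by norm_num)
    refine lt_of_le_of_lt h ?_
    norm_num

theorem K2_eq : K2 / 2 = π ^ (3 / 2 : ℝ) / (12 : ℝ) ^ (1 / 4 : ℝ) := by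
  have hp := Real.pi_pos
  have hA : 0 < 4 * π * A0 := by
    have := Pool.Agent.Helper38.LC2.A0_pos
    positivity
  have hK : K2 / 2 = c0 * √(4 * π * A0) := by
    unfold K2
    ring
  have hc : 0 < c0 := by linarith [a19_c0.1]
  have h1 : (c0 * √(4 * π * A0)) ^ 4 = π ^ 6 / 12 := by
    have h2 : (√(4 * π * A0)) ^ 4 = (4 * π * A0) ^ 2 := by
      calc (√(4 * π * A0)) ^ 4 = ((√(4 * π * A0)) ^ 2) ^ 2 := by ring
        _ = (4 * π * A0) ^ 2 := by rw [Real.sq_sqrt hA.le]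
    have h3 : √3 ^ 2 = (3 : ℝ) := Real.sq_sqrt (by norm_num)
    rw [mul_pow, h2]
    unfold Pool.Agent.Helper98.LC3.c0 A0
    calc (π / 6) ^ 4 * (4 * π * (3 * √3 / 2)) ^ 2 = π ^ 6 / 36 * √3 ^ 2 := by ring
      _ = π ^ 6 / 12 := by
        rw [h3]
        ring
  have h4 : (π ^ (3 / 2 : ℝ) / (12 : ℝ) ^ (1 / 4 : ℝ)) ^ 4 = π ^ 6 / 12 := by
    rw [div_pow]
    congr 1
    · rw [← Real.rpow_natCast, ← Real.rpow_mul hp.le]
      norm_num
    · rw [← Real.rpow_natCast, ← Real.rpow_mul (by norm_num)]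
      norm_num
  rw [hK]
  refine (pow_left_inj₀ (by positivity) (by positivity) (by norm_num : (4 : ℕ) ≠ 0)).1 ?_
  rw [h1, h4]

theorem conn_one : ConnB K2 (10 ^ 10) := by
  obtain ⟨hk1, hk2⟩ := K2_num
  refine a19_red (T1 := 3721) (by linarith) (by linarith) le_rfl ?_ ?_
  · have h : √(3721 : ℝ) ≤ 61 := by
      rw [Real.sqrt_le_left (by norm_num)]
      norm_num
    have h2 : (7 : ℝ) * √3721 ≤ 7 * 61 := mul_le_mul_of_nonneg_left h (by norm_num)
    refine (add_le_add_right h2 _).trans ?_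
    norm_num
  · intro ι _ _ G c o n T η hg hT hX hη0 hη
    have hT0 : 0 ≤ T := by linarith
    have hs : 61 ≤ √T := by
      refine Real.le_sqrt_of_sq_le ?_
      norm_num
      exact hT
    have hs2 : √T ^ 2 = T := Real.sq_sqrt hT0
    have h1 := sum_dfi hg
    refine a19_real hs hs2 (by linarith) hη hη0 hX (a19_La G c o n)
      (a19_SD hg) (by linarith) (curve3 hg) ?_
    rw [hs2]
    exact mul_le_mul_of_nonneg_left hX (by positivity)

theorem conn_two : ∃ ε : ℝ, 0 < ε ∧ ∃ C : ℝ, ConnB (K2 + ε) C := by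
  obtain ⟨hk1, hk2⟩ := K2_num
  obtain ⟨δ, hδ, hδ1, T0, hT0, hnear⟩ := near
  have hKd : K2 * δ ≤ 5.99 * (1 / 100) := mul_le_mul hk2.le hδ1 hδ.le (by norm_num)
  obtain ⟨C, hC1, hC⟩ : ∃ C : ℝ, 6 * max T0 3721 + 7 * √(max T0 3721) ≤ C ∧
      (10 : ℝ) ^ 10 ≤ C := ⟨max _ _, le_max_left _ _, le_max_right _ _⟩
  have hK0 : 0 < K2 * δ / 4 := by
    have : 0 < K2 := by linarith
    positivity
  refine ⟨K2 * δ / 4, hK0, C, ?_⟩
  refine a19_red (T1 := max T0 3721) (by linarith) (by linarith) (le_max_right _ _) hC1 ?_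
  intro ι _ _ G c o n T η hg hT hX hη0 hη
  have hT1 : T0 ≤ T := (le_max_left _ _).trans hT
  have hT2 : 3721 ≤ T := (le_max_right _ _).trans hT
  have hT3 : 0 ≤ T := by linarith
  have hs : 61 ≤ √T := by
    refine Real.le_sqrt_of_sq_le ?_
    norm_num
    exact hT2
  have hs2 : √T ^ 2 = T := Real.sq_sqrt hT3
  rcases le_or_gt ((1 - δ) * T) (tot G c o n) with h | h
  · have h1 := hnear ι G c o n T hg hT1 h
    have h2 : K2 * (1 + δ) * √T <
        per2 G c n - 6 * ∑ i ∈ univ.filter (fun i => i ≠ o), min 1 (ar G c n i) := by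
      by_contra h3
      push Not at h3
      exact h1 h3
    have h4 : (K2 + K2 * δ / 4) * √T ≤ K2 * (1 + δ) * √T := by
      refine mul_le_mul_of_nonneg_right ?_ (Real.sqrt_nonneg _)
      have : 0 ≤ K2 * δ := by positivity
      linarith
    have h5 : 0 ≤ η * (T - tot G c o n) := mul_nonneg hη0 (by linarith)
    have h6 : (0 : ℝ) ≤ 10 ^ 10 := by positivity
    linarith
  · have h1 := sum_dfi hg
    have h2 := a19_real hs hs2 (a := K2 + K2 * δ / 4) (by linarith) hη hη0 hX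
      (a19_La G c o n) (a19_SD hg)
      (Ps := per2 G c n - 6 * ∑ i ∈ univ.filter (fun i => i ≠ o), min 1 (ar G c n i))
      (by linarith) (curve3 hg) (by
        have h3 : (K2 + K2 * δ / 4) ^ 2 * tot G c o n ≤
            (K2 + K2 * δ / 4) ^ 2 * ((1 - δ) * √T ^ 2) := by
          rw [hs2]
          exact mul_le_mul_of_nonneg_left h.le (by positivity)
        refine h3.trans ?_
        have h4 : (K2 + K2 * δ / 4) ^ 2 * ((1 - δ) * √T ^ 2) =
            K2 ^ 2 * √T ^ 2 * ((1 + δ / 4) ^ 2 * (1 - δ)) := by ring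
        rw [h4]
        have h5 : (1 + δ / 4) ^ 2 * (1 - δ) ≤ 1 := by
          have h6 : 0 ≤ δ ^ 2 := by positivity
          have h7 : 0 ≤ δ ^ 3 := by positivity
          nlinarith
        have h8 : 0 ≤ K2 ^ 2 * √T ^ 2 := by positivity
        exact mul_le_of_le_one_right h8 h5)
    linarith

end Pool.Agent.Helper38.AS
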