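import Pool.Agent.Helper38.LCA.Approx
import Pool.Agent.Helper38.AS.Model1
import Pool.Agent.Helper98.LC.B.Comp

/-!
# AS-20: from labellings with connected classes to clusters

Copies of `model` (`Helper98/LC/F/Model.lean`), `cluster_bound`, `lower` (`Helper98/LC/Main.lean`) with `a` instead of `5.96`, `C` instead of `357600` (`a/2`, `C/2` instead of `2.98`, `178800`).
-/

namespace Pool.Agent.Helper38.AS

open Finset Real Pool.Agent.Helper98.LC

private theorem md_min_sum {κ : Type} (S : Finset κ) (f : κ → ℝ) (hf : ∀ i ∈ S, 0 ≤ f i) :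
    min 1 (∑ i ∈ S, f i) ≤ ∑ i ∈ S, min 1 (f i) := by
  by_cases h : ∃ i ∈ S, 1 ≤ f i
  · obtain ⟨i, hi, h1⟩ := h
    refine (min_le_left _ _).trans ?_
    calc (1 : ℝ) = min 1 (f i) := (min_eq_left h1).symm
      _ ≤ ∑ i ∈ S, min 1 (f i) := by
        refine single_le_sum (f := fun i => min 1 (f i)) (fun j hj => ?_) hi
        exact le_min zero_le_one (hf j hj)
  · push Not at h
    refine (min_le_right _ _).trans ?_
    refine sum_le_sum fun i hi => ?_
    rw [min_eq_right (h i hi).le]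

theorem model_gen {a C : ℝ} (ha : 0 ≤ a) (h : ConnB a C) {N : ℕ} (G : Net)
    (l : V → Fin (N + 1)) {n : ℕ} (hl : OutBox l 0 n) :
    6 * ∑ j ∈ univ.filter (fun j : Fin (N + 1) => j ≠ 0), min 1 (ar G l n j) +
      a * √(∑ j ∈ univ.filter (fun j : Fin (N + 1) => j ≠ 0), ar G l n j) - C ≤ per2 G l n := by
  classical
  obtain ⟨κ, hfin, hdec, c, o', g, hout, hconn, hg, hsurj, hper, har⟩ := exists_comp G l 0 n hl
  have hgo : g o' = 0 := by
    have hx : ((n : ℤ) + 1, (0 : ℤ)) ∉ Pool.Agent.Helper98.LC.box n := by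
      unfold Pool.Agent.Helper98.LC.box
      rw [mem_product, mem_Icc]
      rintro ⟨⟨_, h2⟩, _⟩
      simp only at h2
      linarith
    rw [← hout _ hx, hg, hl _ hx]
  have hmc := h κ G c o' n hout hconn
  have hsub : univ.filter (fun i => g i ≠ 0) ⊆ univ.filter (fun i => i ≠ o') := by
    intro i hi
    rw [mem_filter] at hi ⊢
    refine ⟨mem_univ _, ?_⟩
    rintro rfl
    exact hi.2 hgo
  have hsplit : ∀ f : κ → ℝ, ∑ j ∈ univ.filter (fun j : Fin (N + 1) => j ≠ 0),
      ∑ i ∈ univ.filter (fun i => g i = j), f i = ∑ i ∈ univ.filter (fun i => g i ≠ 0), f i := by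
    intro f
    rw [← sum_fiberwise_of_maps_to (s := univ.filter (fun i => g i ≠ 0))
      (t := univ.filter (fun j : Fin (N + 1) => j ≠ 0)) (g := g)
      (fun i hi => by
        rw [mem_filter] at hi ⊢
        exact ⟨mem_univ _, hi.2⟩)]
    refine sum_congr rfl fun j hj => ?_
    rw [mem_filter] at hj
    refine sum_congr ?_ fun _ _ => rfl
    ext i
    simp only [mem_filter, mem_univ, true_and]
    constructor
    · intro hi
      exact ⟨by rw [hi]; exact hj.2, hi⟩
    · exact fun hi => hi.2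
  have h1 : ∑ j ∈ univ.filter (fun j : Fin (N + 1) => j ≠ 0), min 1 (ar G l n j) ≤
      ∑ i ∈ univ.filter (fun i => i ≠ o'), min 1 (ar G c n i) := by
    calc ∑ j ∈ univ.filter (fun j : Fin (N + 1) => j ≠ 0), min 1 (ar G l n j)
        ≤ ∑ j ∈ univ.filter (fun j : Fin (N + 1) => j ≠ 0),
          ∑ i ∈ univ.filter (fun i => g i = j), min 1 (ar G c n i) := by
          refine sum_le_sum fun j hj => ?_
          rw [mem_filter] at hj
          rw [har j hj.2]
          exact md_min_sum _ _ fun i _ => ar_nonneg G c n i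
      _ = ∑ i ∈ univ.filter (fun i => g i ≠ 0), min 1 (ar G c n i) := hsplit _
      _ ≤ _ := sum_le_sum_of_subset_of_nonneg hsub fun i _ _ =>
          le_min zero_le_one (ar_nonneg G c n i)
  have h2 : ∑ j ∈ univ.filter (fun j : Fin (N + 1) => j ≠ 0), ar G l n j ≤ tot G c o' n := by
    calc ∑ j ∈ univ.filter (fun j : Fin (N + 1) => j ≠ 0), ar G l n j
        = ∑ j ∈ univ.filter (fun j : Fin (N + 1) => j ≠ 0),
          ∑ i ∈ univ.filter (fun i => g i = j), ar G c n i := by
          refine sum_congr rfl fun j hj => ?_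
          rw [mem_filter] at hj
          exact har j hj.2
      _ = ∑ i ∈ univ.filter (fun i => g i ≠ 0), ar G c n i := hsplit _
      _ ≤ _ := by
          unfold tot
          exact sum_le_sum_of_subset_of_nonneg hsub fun i _ _ => ar_nonneg G c n i
  have h3 := mul_le_mul_of_nonneg_left (Real.sqrt_le_sqrt h2) ha
  rw [hper] at hmc
  linarith

theorem cluster_gen {a C : ℝ} (ha : 0 ≤ a) (h : ConnB a C) {N : ℕ} {R : Fin N → Set ℂ}
    (hR : Pool.Agent.Helper79.HC.IsCluster R) (hP : Pool.Agent.Helper79.HC.clusterPer R < ⊤) :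
    3 * (N : ℝ) + a / 2 * √N - C / 2 ≤ (Pool.Agent.Helper79.HC.clusterPer R).toReal := by
  set cp := (Pool.Agent.Helper79.HC.clusterPer R).toReal with hcp
  have key : ∀ δ : ℝ, 0 < δ → δ < 1 →
      6 * (N : ℝ) * (1 - δ) + a * (√N * (1 - δ)) - C ≤ 2 * cp + δ := by
    intro δ hδ hδ1
    obtain ⟨G, n, c, ho, har, hper⟩ := Pool.Agent.Helper38.LCA.approx hR hP hδ
    have hm := model_gen ha h G c ho
    have hfil : univ.filter (fun j : Fin (N + 1) => j ≠ 0) = univ.map (Fin.succEmb N) := by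
      ext j
      simp only [mem_filter, mem_univ, true_and, mem_map, Fin.coe_succEmb]
      constructor
      · intro hj
        exact ⟨j.pred hj, Fin.succ_pred j hj⟩
      · rintro ⟨i, rfl⟩
        exact Fin.succ_ne_zero i
    rw [hfil, sum_map, sum_map] at hm
    have h1 : (N : ℝ) * (1 - δ) ≤ ∑ i : Fin N, min 1 (ar G c n (Fin.succEmb N i)) := by
      calc (N : ℝ) * (1 - δ) = ∑ _i : Fin N, (1 - δ) := by
            rw [sum_const, card_univ, Fintype.card_fin, nsmul_eq_mul]
        _ ≤ _ := sum_le_sum fun i _ => le_min (by linarith) (har i)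
    have h2 : (N : ℝ) * (1 - δ) ≤ ∑ i : Fin N, ar G c n (Fin.succEmb N i) := by
      calc (N : ℝ) * (1 - δ) = ∑ _i : Fin N, (1 - δ) := by
            rw [sum_const, card_univ, Fintype.card_fin, nsmul_eq_mul]
        _ ≤ _ := sum_le_sum fun i _ => har i
    have h3 : √N * (1 - δ) ≤ √(∑ i : Fin N, ar G c n (Fin.succEmb N i)) := by
      refine le_trans ?_ (Real.sqrt_le_sqrt h2)
      rw [Real.sqrt_mul (Nat.cast_nonneg N)]
      refine mul_le_mul_of_nonneg_left ?_ (Real.sqrt_nonneg _)
      refine Real.le_sqrt_of_sq_le ?_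
      nlinarith
    have h4 := mul_le_mul_of_nonneg_left h3 ha
    linarith
  by_contra hcon
  rw [not_le] at hcon
  set gap := 3 * (N : ℝ) + a / 2 * √N - C / 2 - cp with hgap
  have hg : 0 < gap := by linarith
  have hN : (0 : ℝ) ≤ N := Nat.cast_nonneg N
  have hs : 0 ≤ √(N : ℝ) := Real.sqrt_nonneg _
  set D := 6 * (N : ℝ) + a * √N + 1 with hD
  have hD0 : 0 < D := by positivity
  obtain ⟨δ, hδ0, hδ1, hδ2⟩ : ∃ δ : ℝ, 0 < δ ∧ δ < 1 ∧ D * δ < 2 * gap := by
    refine ⟨min (1 / 2) (gap / D), lt_min (by norm_num) (by positivity),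
      lt_of_le_of_lt (min_le_left _ _) (by norm_num), ?_⟩
    calc D * min (1 / 2) (gap / D) ≤ D * (gap / D) :=
          mul_le_mul_of_nonneg_left (min_le_right _ _) hD0.le
      _ = gap := by field_simp
      _ < 2 * gap := by linarith
  have := key δ hδ0 hδ1
  have e : D * δ = 6 * (N : ℝ) * δ + a * √N * δ + δ := by
    rw [hD]
    ring
  rw [e] at hδ2
  nlinarith

theorem lower_gen {a C : ℝ} (ha : 0 ≤ a) (h : ConnB a C) (N : ℕ) :
    ENNReal.ofReal (3 * N + a / 2 * √N - C / 2) ≤ Pool.Agent.Helper79.HC.p N := by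
  unfold Pool.Agent.Helper79.HC.p
  refine le_iInf₂ fun R hR => ?_
  by_cases hP : Pool.Agent.Helper79.HC.clusterPer R < ⊤
  · exact ENNReal.ofReal_le_of_le_toReal (cluster_gen ha h hR hP)
  · rw [not_lt, top_le_iff] at hP
    rw [hP]
    exact le_top

end Pool.Agent.Helper38.AS
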