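import Pool.Agent.Helper38.AS.FiveL

/-!
# AS-06: payments of a class

* `flc_le`: `flc B A ≤ pp`, and `≤ 0` if `A` is not of type `S`.
* `pay_le`: `fl_end`, `fl_start` (predecessor from `exists_pred`): every summand is `flc i _ + flc i _ ≤ 2 pp`.
* `not_TS`: let `w = es c d`, `j = enb c w`.  `d` and `es c w` are outer edges of `i`.  Suppose `TS j`.  `w' = eopp c w ∈ corners j`, `enb c w' = i`.
  The edge of `j` which starts at `es c w'`: `es c w' = es c (eopp c w) = rot (rot w)` (`es_eopp`), so `enb c (es c w') = c (third (rot (rot w))) = c (tip w) = enb c d = o` (`enb_third`, `third_rot`, `tip_rot`, `tip_es`).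
  The edge of `j` which ends at `w'`: let `es c p' = w'` (`exists_pred`), `enb c p' = c (tip w')` (`tip_es`), `w' = rot (es c w)` (`eopp_eq`), `tip w' = third (es c w)`, `c (third (es c w)) = enb c (es c w) = o`.
  Both `es c w'` and `p'` are outer edges of `j` (`j ≠ o` by `TS j`), `(Oi j).card = 1`, so `p' = es c w'`, `es c (es c w') = w'`: in a class with `5` corners `(es c)^[2]` has no fixed point (`es_card` with
  `hg.co`, `m = 2 < 5`).
* `pay52`: the corners are `(es c)^[k] d`, `k < 5` for a `d ∈ Oi` (`corners_eq`), `es c d ∉ Oi` (`enb_es_ne`), the second outer edge is `(es c)^[2] d` or `(es c)^[3] d` (then `(es c)^[2]` of it is `d`), so there is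
  `d ∈ Oi` with `es c (es c d) ∈ Oi`; the summand of `d` at the end and that of `es (es d)` at the start are `flc i (enb (es d)) ≤ 0`.
-/

namespace Pool.Agent.Helper38.AS

open Finset Real Pool.Agent.Helper98.LC
open Pool.Agent.Helper98.LC3 (c0 et0 Face41 HH CoConn GMin)

variable {ι : Type} [DecidableEq ι] {c : V → ι} {o : ι} {n : ℕ}

theorem flc_le (G : Net) (c : V → ι) (o : ι) (n : ℕ) (B A : ι) : flc G c o n B A ≤ pp := by
  have hpp : pp = 7002 / 1000000 := rfl
  unfold flc
  split_ifs
  · rw [hpp]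
    norm_num
  · exact le_rfl
  · rw [hpp]
    norm_num

theorem flc_nonpos (G : Net) (c : V → ι) (o : ι) (n : ℕ) {B A : ι} (hA : ¬ TS G c o n A) :
    flc G c o n B A ≤ 0 := by
  have hpp : pp = 7002 / 1000000 := rfl
  unfold flc
  rw [if_neg (fun h : ¬ TS G c o n B ∧ TS G c o n A => hA h.2)]
  split_ifs
  · rw [hpp]
    norm_num
  · exact le_rfl

private theorem mx_mem (h : OutBox c o n) {i : ι} {d : V × Fin 6} (hd : d ∈ Oi c o n i) :
    d ∈ corners c n i ∧ IsCorner c d ∧ c d.1 = i ∧ enb c d = o := by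
  have h1 := mem_filter.1 hd
  exact ⟨h1.1, ((mem_corners h i d).1 h1.1).1, ((mem_corners h i d).1 h1.1).2, h1.2⟩

theorem pay_le (G : Net) (h : OutBox c o n) (i : ι) :
    ∑ d ∈ Oi c o n i, (fl G c o n (eopp c d) - fl G c o n (es c (eopp c d))) ≤
      2 * pp * ((Oi c o n i).card : ℝ) := by
  have h1 : ∀ d ∈ Oi c o n i,
      fl G c o n (eopp c d) - fl G c o n (es c (eopp c d)) ≤ 2 * pp := by
    intro d hd
    obtain ⟨p, hp, hpd⟩ := exists_pred h (mx_mem h hd).1
    rw [fl_end G h hd, fl_start G h hd hp hpd]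
    have h2 := flc_le G c o n i (enb c (es c d))
    have h3 := flc_le G c o n i (enb c p)
    linarith
  have h2 := sum_le_card_nsmul _ _ _ h1
  rw [nsmul_eq_mul] at h2
  linarith

theorem not_TS [Fintype ι] {G : Net} (hg : Good G c o n) {i : ι} {d : V × Fin 6}
    (hd : d ∈ Oi c o n i) (hd2 : es c (es c d) ∈ Oi c o n i) :
    ¬ TS G c o n (enb c (es c d)) := by
  intro hT
  obtain ⟨hdc, hdI, hdi, hdo⟩ := mx_mem hg.out hd
  obtain ⟨h2c, h2I, h2i, h2o⟩ := mx_mem hg.out hd2
  have hw : es c d ∈ corners c n i := es_mem hg.out hdc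
  have hwI : IsCorner c (es c d) := ((mem_corners hg.out _ _).1 hw).1
  obtain ⟨e1, e2, e3, -⟩ := eopp_corner hg.out hwI
  have hw' : eopp c (es c d) ∈ corners c n (enb c (es c d)) :=
    (mem_corners hg.out _ _).2 ⟨e1, e2⟩
  -- the edge which starts at the end of `w'`
  have ha : es c (eopp c (es c d)) ∈ Oi c o n (enb c (es c d)) := by
    refine mem_filter.2 ⟨es_mem hg.out hw', ?_⟩
    have hI := ((mem_corners hg.out _ _).1 (es_mem hg.out hw')).1
    rw [enb_third hI, es_eopp hg.out hwI, third_rot]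
    change c (tip (es c d)) = o
    rw [tip_es hg.out hdI]
    exact hdo
  -- the edge which ends at `w'`
  obtain ⟨p, hp, hpw⟩ := exists_pred hg.out hw'
  have hpI := ((mem_corners hg.out _ _).1 hp).1
  have hb : p ∈ Oi c o n (enb c (es c d)) := by
    refine mem_filter.2 ⟨hp, ?_⟩
    rw [← tip_es hg.out hpI, hpw, eopp_eq hg.out hwI, tip_rot, ← enb_third h2I]
    exact h2o
  obtain ⟨y, hy⟩ := card_eq_one.1 hT.2.2.1
  rw [hy, mem_singleton] at ha hb
  have hper : (es c)^[2] (eopp c (es c d)) = eopp c (es c d) := by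
    change es c (es c (eopp c (es c d))) = eopp c (es c d)
    rw [ha, ← hb]
    exact hpw
  exact (Helper98.LC3.es_card hg.out hg.conn hT.1 (hg.co _ hT.1) hw').2 2 (by norm_num)
    (by rw [hT.2.1]; norm_num) hper

theorem pay52 [Fintype ι] {G : Net} (hg : Good G c o n) {i : ι} (hi : i ≠ o)
    (hF : (corners c n i).card = 5) (hO : (Oi c o n i).card = 2) :
    ∑ d ∈ Oi c o n i, (fl G c o n (eopp c d) - fl G c o n (es c (eopp c d))) ≤ 2 * pp := by
  obtain ⟨x, y, hxy, hOxy⟩ := card_eq_two.1 hO
  have hx : x ∈ Oi c o n i := by rw [hOxy]; simp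
  have hy : y ∈ Oi c o n i := by rw [hOxy]; simp
  obtain ⟨hxc, hxI, hxi, hxo⟩ := mx_mem hg.out hx
  obtain ⟨hyc, hyI, hyi, hyo⟩ := mx_mem hg.out hy
  have hper : (es c)^[5] x = x := by
    have := (Helper98.LC3.es_card hg.out hg.conn hi (hg.co _ hi) hxc).1
    rwa [hF] at this
  -- one of the two outer edges is the second one after the other
  have key : ∃ d, Oi c o n i = {d, es c (es c d)} ∧ d ≠ es c (es c d) := by
    have hyc' := hyc
    rw [(Helper98.LC3.corners_eq hg.out hg.conn hi (hg.co _ hi) hxc).1, hF, mem_image] at hyc'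
    obtain ⟨k, hk, hky⟩ := hyc'
    rw [mem_range] at hk
    interval_cases k
    · exact absurd hky hxy
    · exfalso
      have h1 := enb_es_ne hg.out hxI
      have h2 : es c x = y := hky
      rw [h2] at h1
      exact h1 (hyo.trans hxo.symm)
    · have h2 : es c (es c x) = y := hky
      refine ⟨x, ?_, ?_⟩
      · rw [h2]
        exact hOxy
      · rw [h2]
        exact hxy
    · have h2 : es c (es c y) = x := by
        have h3 : (es c)^[3] x = y := hky
        rw [← h3]
        exact hper
      refine ⟨y, ?_, ?_⟩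
      · rw [h2, hOxy, pair_comm]
      · rw [h2]
        exact hxy.symm
    · exfalso
      have h2 : es c y = x := by
        have h3 : (es c)^[4] x = y := hky
        rw [← h3]
        exact hper
      have h1 := enb_es_ne hg.out hyI
      rw [h2] at h1
      exact h1 (hxo.trans hyo.symm)
  obtain ⟨d, hOd, hne⟩ := key
  have hd : d ∈ Oi c o n i := by rw [hOd]; simp
  have hd2 : es c (es c d) ∈ Oi c o n i := by rw [hOd]; simp
  have hdc := (mx_mem hg.out hd).1
  have hnT := not_TS hg hd hd2
  obtain ⟨p, hp, hpd⟩ := exists_pred hg.out hdc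
  rw [hOd, sum_pair hne, fl_end G hg.out hd, fl_start G hg.out hd hp hpd, fl_end G hg.out hd2,
    fl_start G hg.out hd2 (es_mem hg.out hdc) rfl]
  have h1 := flc_nonpos G c o n (B := i) hnT
  have h2 := flc_le G c o n i (enb c p)
  have h3 := flc_le G c o n i (enb c (es c (es c (es c d))))
  linarith

end Pool.Agent.Helper38.AS
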