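import Pool.Agent.Helper38.AS.CxM

/-!
# AS-18: a labelling cannot be almost optimal for the constant `K = c0 √(4 π A0)`

`q2 = 4 π A0 ≥ 32`, `≤ 33`.  Let `γ` from `no_cx (10^14)`, `C'` from `hypM γ`, `δ'`, `L0` from `no_cx`; WLOG `δ' ≤ 1` is NOT needed: put `δ1 = min δ' 1`... note that `HypL` and the other hypotheses of `no_cx` are
needed for the given `δ'`: they follow from the ones for a smaller number (`HypL` is monotone in `δ`: use `hypL` for `min δ' 1`, then `df_sum`).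
`δ = min (10^(-13)) (δ'/10^8)`, `T0` large.  Write `s = √T`, `q = √q2` (`5.6 ≤ q ≤ 5.8`).
1. `sum_dfi`: `2 c0 La + SD ≤ 2 c0 q (1 + δ) s`.  So `La ≤ (1 + δ) q s ≤ 12 s`, `SD ≤ 13 s`.
2. `curve3`: `q² (tot - 14 La - 10^8 SD) ≤ La²`, `tot ≥ (1 - δ) s²`: `La² ≥ q² ((1 - δ) s² - 2 * 10^9 s) ≥ q² (1 - 2δ) s²` for `s ≥ 2 * 10^9/δ`, so `La ≥ q (1 - 2δ) s`.
3. So `SD ≤ 2 c0 * 3δ q s ≤ 4 δ q s`, `Lp ≥ La - 200000 SD ≥ q s/2` (`La_le`), `Lp ≤ La ≤ (1 + δ) q s`, `SD ≤ 8 δ Lp ≤ δ' Lp`.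
4. `seg_le`: `4 + 200000 SD ≤ 4 + 1.6 * 10^6 δ Lp ≤ δ' Lp` if `Lp ≥ q s/2` is large.
5. `area_low`: `4π area ≥ q² (1 - δ) s² - 4π (14 * 12 s + 10^8 * 13 s) - 4π 10^10 (4 δ q s)² ≥ q² s² (1 - 3 δ)` (`4π * 16 * 10^10 δ ≤ 1`) `≥ (1 - δ') (1 + δ)² q² s² ≥ (1 - δ') Lp²`.
6. `exists_cx`, `hypL`, `hypM`, `zb d = za (s' d)` (`IsCx.s'_eq`), `Lp = ∑_{out} ‖zb - za‖` and `∑_{out} cr (za) (zb) = - ∑_{corners o} cr (zs e) (zs (es e))` (`out_sum` with `f d = ..(eopp d)..`, `eopp (eopp e) = e`).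
-/

namespace Pool.Agent.Helper38.AS

open Finset Real Pool.Agent.Helper98.LC
open Pool.Agent.Helper98.LC3 (c0 et0 Face41 HH CoConn GMin)

private theorem nr_q : 32 ≤ 4 * π * A0 ∧ 4 * π * A0 ≤ 33 := by
  have h3 : (1.732 : ℝ) < √3 := by
    rw [Real.lt_sqrt (by norm_num)]
    norm_num
  have h4 : √3 < 1.7321 := by
    rw [Real.sqrt_lt' (by norm_num)]
    norm_num
  have hp := Real.pi_gt_d4
  have hp' := Real.pi_lt_d4
  have hA : A0 = 3 * √3 / 2 := rfl
  rw [hA]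
  constructor
  · nlinarith
  · nlinarith

/-- the real-number estimates -/
private theorem nr_num {q s A P S t δ δ1 c : ℝ} (hq1 : 5.6 ≤ q) (hq2 : q ≤ 5.8)
    (hqq : 32 ≤ q ^ 2) (hc1 : 0.52 ≤ c) (hc2 : c ≤ 0.524) (hδ : 0 < δ) (hδa : δ ≤ 1 / 10 ^ 14)
    (hδb : δ ≤ δ1 / 10 ^ 8) (hδ1 : δ1 ≤ 1) (hs1 : 10 ^ 11 / δ ≤ s) (hs2 : 8 / δ1 ≤ s) (hδ10 : 0 < δ1)
    (hS : 0 ≤ S) (hA : 0 ≤ A) (h1 : 2 * c * A + S ≤ 2 * c * q * (1 + δ) * s)
    (ht : (1 - δ) * s ^ 2 ≤ t) (h2 : q ^ 2 * (t - 14 * A - 10 ^ 8 * S) ≤ A ^ 2)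
    (hPA : P ≤ A) (hAP : A ≤ P + 200000 * S) :
    s ≤ P ∧ 1 ≤ P ∧ S ≤ δ1 * P ∧ 4 + 200000 * S ≤ δ1 * P ∧
      (1 - δ1) * P ^ 2 ≤ q ^ 2 * t - 13 * (14 * A + 10 ^ 8 * S + 10 ^ 10 * S ^ 2) := by
  have hs0 : 10 ^ 11 ≤ δ * s := by
    rw [div_le_iff₀ hδ] at hs1
    linarith
  have hspos : 0 < s := by
    by_contra h
    rw [not_lt] at h
    nlinarith
  have hsbig : 10 ^ 25 ≤ s := by
    have : δ * s ≤ 1 / 10 ^ 14 * s := mul_le_mul_of_nonneg_right hδa hspos.le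
    norm_num at this hs0 ⊢
    linarith
  have hs8 : 8 ≤ δ1 * s := by
    rw [div_le_iff₀ hδ10] at hs2
    linarith
  have hd1 : δ ≤ 1 / 100 := hδa.trans (by norm_num)
  -- bounds for A and S
  have hqs : 0 < q * s := by positivity
  have hAle : A ≤ q * (1 + δ) * s := by
    have h3 : 2 * c * A ≤ 2 * c * (q * (1 + δ) * s) := by linarith
    exact le_of_mul_le_mul_left h3 (by linarith)
  have hA6 : A ≤ 6 * s := by
    have h3 : q * (1 + δ) ≤ 5.8 * (1 + 1 / 100) := by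
      apply mul_le_mul hq2 (by linarith) (by linarith) (by norm_num)
    have h4 : q * (1 + δ) * s ≤ 5.8 * (1 + 1 / 100) * s := mul_le_mul_of_nonneg_right h3 hspos.le
    linarith
  have hS7 : S ≤ 7 * s := by
    have h3 : 2 * c * q * (1 + δ) ≤ 2 * 0.524 * 5.8 * (1 + 1 / 100) := by
      apply mul_le_mul _ (by linarith) (by linarith) (by norm_num)
      apply mul_le_mul (by linarith) hq2 (by linarith) (by norm_num)
    have h4 : 2 * c * q * (1 + δ) * s ≤ 2 * 0.524 * 5.8 * (1 + 1 / 100) * s :=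
      mul_le_mul_of_nonneg_right h3 hspos.le
    have h5 : 0 ≤ 2 * c * A := by positivity
    norm_num at h4
    linarith
  have hss : 10 ^ 10 * s ≤ δ * s ^ 2 := by
    have : 10 ^ 11 * s ≤ δ * s * s := mul_le_mul_of_nonneg_right hs0 hspos.le
    nlinarith
  -- A from below
  have hAge : q * (1 - 2 * δ) * s ≤ A := by
    have h3 : q ^ 2 * ((1 - 2 * δ) * s ^ 2) ≤ A ^ 2 := by
      refine le_trans (mul_le_mul_of_nonneg_left ?_ (by positivity)) h2
      norm_num at hss ⊢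
      linarith
    have h4 : (q * (1 - 2 * δ) * s) ^ 2 ≤ A ^ 2 := by
      refine le_trans ?_ h3
      have h5 : (1 - 2 * δ) ^ 2 ≤ 1 - 2 * δ := by nlinarith
      have h6 : 0 ≤ q ^ 2 * s ^ 2 := by positivity
      nlinarith
    exact (le_abs_self _).trans (abs_le_of_sq_le_sq h4 hA)
  -- S is small
  have hS20 : S ≤ 20 * δ * s := by
    have h3 : S ≤ 2 * c * (q * (1 + δ) * s - A) := by linarith
    have h4 : 2 * c * (q * (1 + δ) * s - A) ≤ 2 * c * (3 * δ * (q * s)) := by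
      refine mul_le_mul_of_nonneg_left ?_ (by linarith)
      linarith
    have h5 : 2 * c * (3 * δ * (q * s)) = (6 * c * q) * (δ * s) := by ring
    have h6 : 6 * c * q ≤ 6 * 0.524 * 5.8 := by
      apply mul_le_mul (by linarith) hq2 (by linarith) (by norm_num)
    have h7 : (6 * c * q) * (δ * s) ≤ 6 * 0.524 * 5.8 * (δ * s) :=
      mul_le_mul_of_nonneg_right h6 (by positivity)
    have h8 : 0 < δ * s := by positivity
    norm_num at h7
    linarith
  have hds : δ * s ≤ 1 / 10 ^ 14 * s := mul_le_mul_of_nonneg_right hδa hspos.le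
  have hds1 : δ * s ≤ δ1 / 10 ^ 8 * s := mul_le_mul_of_nonneg_right hδb hspos.le
  have hP5 : 5 * s ≤ P := by
    have h3 : 5.6 * (1 - 2 / 100) * s ≤ A := by
      refine le_trans ?_ hAge
      refine mul_le_mul_of_nonneg_right ?_ hspos.le
      apply mul_le_mul hq1 (by linarith) (by norm_num) (by linarith)
    norm_num at h3 hds
    linarith
  have hδ1s : 0 < δ1 * s := by positivity
  have hδP : 5 * (δ1 * s) ≤ δ1 * P := by
    have := mul_le_mul_of_nonneg_left hP5 hδ10.le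
    linarith
  refine ⟨by linarith, by linarith, ?_, ?_, ?_⟩
  · norm_num at hds1
    linarith
  · norm_num at hds1
    linarith
  · have hP2 : P ^ 2 ≤ (q * (1 + δ) * s) ^ 2 := pow_le_pow_left₀ (by linarith) (hPA.trans hAle) 2
    have h3 : (1 - δ1) * P ^ 2 ≤ (1 - δ1) * (q * (1 + δ) * s) ^ 2 :=
      mul_le_mul_of_nonneg_left hP2 (by linarith)
    have h4 : (1 - δ1) * (1 + δ) ^ 2 ≤ 1 - 2 * δ := by
      have h5 : (1 + δ) ^ 2 ≤ 1 + 3 * δ := by nlinarith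
      have h6 : (1 - δ1) * (1 + δ) ^ 2 ≤ (1 - δ1) * (1 + 3 * δ) :=
        mul_le_mul_of_nonneg_left h5 (by linarith)
      have h7 : 0 ≤ δ1 * (3 * δ) := by positivity
      have h8 : 10 ^ 8 * δ ≤ δ1 := by
        rw [le_div_iff₀ (by norm_num)] at hδb
        linarith
      norm_num at h8
      linarith
    have h5 : (1 - δ1) * (q * (1 + δ) * s) ^ 2 ≤ (1 - 2 * δ) * (q ^ 2 * s ^ 2) := by
      have h6 := mul_le_mul_of_nonneg_right h4 (show 0 ≤ q ^ 2 * s ^ 2 by positivity)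
      linarith
    have h6 : q ^ 2 * ((1 - δ) * s ^ 2) ≤ q ^ 2 * t := mul_le_mul_of_nonneg_left ht (by positivity)
    have h7 : S ^ 2 ≤ (20 * δ * s) ^ 2 := pow_le_pow_left₀ hS hS20 2
    have h8 : (20 * δ * s) ^ 2 ≤ 400 * (1 / 10 ^ 14) * (δ * s ^ 2) := by
      have h9 : 0 ≤ δ * s ^ 2 := by positivity
      have h10 : δ * (δ * s ^ 2) ≤ 1 / 10 ^ 14 * (δ * s ^ 2) := mul_le_mul_of_nonneg_right hδa h9
      linarith
    have h9 : 0 ≤ δ * s ^ 2 := by positivity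
    have h10 : 32 * (δ * s ^ 2) ≤ q ^ 2 * (δ * s ^ 2) := mul_le_mul_of_nonneg_right hqq h9
    norm_num at h8 hss
    have h11 : 13 * (14 * A + 10 ^ 8 * S + 10 ^ 10 * S ^ 2) ≤ 32 * (δ * s ^ 2) := by
      norm_num
      linarith
    linarith

theorem near : ∃ δ : ℝ, 0 < δ ∧ δ ≤ 1 / 100 ∧ ∃ T0 : ℝ, 0 < T0 ∧
    ∀ (ι : Type) [DecidableEq ι] [Fintype ι] (G : Net) (c : V → ι) (o : ι) (n : ℕ) (T : ℝ),
      Good G c o n → T0 ≤ T → (1 - δ) * T ≤ tot G c o n →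
      per2 G c n - 6 * ∑ i ∈ univ.filter (fun i => i ≠ o), min 1 (ar G c n i) ≤
        2 * c0 * √(4 * π * A0) * (1 + δ) * √T → False := by
  obtain ⟨γ, hγ, H⟩ := no_cx (10 ^ 14) (by norm_num)
  obtain ⟨C', hC', hM⟩ := hypM γ hγ
  obtain ⟨δ', hδ', L0, H'⟩ := H C' hC'
  set δ1 := min δ' 1 with hδ1
  have hδ10 : 0 < δ1 := lt_min hδ' one_pos
  have hδ11 : δ1 ≤ 1 := min_le_right _ _
  have hδ1' : δ1 ≤ δ' := min_le_left _ _
  set δ := min (1 / 10 ^ 14) (δ1 / 10 ^ 8) with hδdef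
  have hδ : 0 < δ := lt_min (by norm_num) (by positivity)
  have hδa : δ ≤ 1 / 10 ^ 14 := min_le_left _ _
  have hδb : δ ≤ δ1 / 10 ^ 8 := min_le_right _ _
  set S0 := max (10 ^ 11 / δ) (max (8 / δ1) L0) with hS0
  have hS0pos : 0 < S0 := lt_of_lt_of_le (by positivity) (le_max_left _ _)
  refine ⟨δ, hδ, hδa.trans (by norm_num), S0 ^ 2, by positivity, ?_⟩
  intro ι _ _ G c o n T hg hT htot hper
  obtain ⟨K, s', hK⟩ := exists_cx hg
  have hT0 : 0 ≤ T := le_trans (by positivity) hT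
  have hsS : S0 ≤ √T := Real.le_sqrt_of_sq_le hT
  have hss : √T ^ 2 = T := Real.sq_sqrt hT0
  obtain ⟨hq32, hq33⟩ := nr_q
  have hqsq : √(4 * π * A0) ^ 2 = 4 * π * A0 := Real.sq_sqrt (by linarith)
  have hqa : 5.6 ≤ √(4 * π * A0) := by
    apply Real.le_sqrt_of_sq_le
    refine le_trans ?_ hq32
    norm_num
  have hqb : √(4 * π * A0) ≤ 5.8 := by
    rw [Real.sqrt_le_left (by norm_num)]
    refine hq33.trans ?_
    norm_num
  have hc := Pool.Agent.Helper98.LC3.c0_num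
  have hSD : 0 ≤ SD G c o n := by
    rw [← dfo_sum]
    exact sum_nonneg fun X _ => dfo_nonneg hg X
  have hLa : 0 ≤ La G c o n := sum_nonneg fun e _ => lam3_nonneg G c o n e
  have hsum := sum_dfi hg
  have hcur := curve3 hg
  have hP := Lp_le hg
  have hP' := La_le hg
  have key := nr_num (q := √(4 * π * A0)) (s := √T) (A := La G c o n) (P := Lp G c o n)
    (S := SD G c o n) (t := tot G c o n) (δ := δ) (δ1 := δ1) (c := c0) hqa hqb
    (by rw [hqsq]; exact hq32) (by linarith) (by linarith) hδ hδa hδb hδ11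
    ((le_max_left _ _).trans hsS) (((le_max_left _ _).trans (le_max_right _ _)).trans hsS) hδ10
    hSD hLa (by linarith) (by rw [hss]; exact htot) (by rw [hqsq]; linarith) hP hP'
  obtain ⟨k1, k2, k3, k4, k5⟩ := key
  have hL := hypL hg hK hδ10.le hδ11 k2 k3
  have hL' : HypL K (10 ^ 14) δ' (Lp G c o n) (dfo G c o n) :=
    ⟨hδ'.le, hL.df_nonneg, hL.df_sum.trans (mul_le_mul_of_nonneg_right hδ1' (by linarith)),
      hL.cardD, hL.cardO, hL.v_le, hL.in_ne, hL.in_six, hL.bd_card, hL.bd_len⟩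
  have hLL : L0 ≤ Lp G c o n :=
    (((le_max_right _ _).trans (le_max_right _ _)).trans hsS).trans k1
  have hop : ∀ e ∈ corners c n o, eopp c (eopp c e) = e := fun e he => (outer_corner hg.out he).2.1
  refine H' (Dt c o n) ι K (Lp G c o n) (dfo G c o n) (pa G c o n) (pb G c o n) s' hLL hL'
    (hM ι G c o n K s' hg hK) ?_ ?_ ?_ ?_
  · intro d
    unfold pa pb
    rw [hK.s'_eq d]
  · have h1 : ∑ d ∈ K.out, ‖pb G c o n d - pa G c o n d‖ =
        ∑ e ∈ corners c n o, ‖zs G c o n (eopp c (eopp c e)) -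
          zs G c o n (es c (eopp c (eopp c e)))‖ :=
      out_sum hg.out hK (fun d => ‖zs G c o n (eopp c d) - zs G c o n (es c (eopp c d))‖)
    rw [h1]
    unfold Lp
    refine sum_congr rfl fun e he => ?_
    rw [hop e he, norm_sub_rev]
  · intro d hd
    have hdo : enb c d.1 = o := (hK.out_iff d).1 hd
    have hdI : IsCorner c d.1 := ((mem_DD hg.out).1 d.2).1
    obtain ⟨e1, e2, -, -⟩ := eopp_corner hg.out hdI
    have ho : eopp c d.1 ∈ corners c n o := (mem_corners hg.out _ _).2 ⟨e1, e2.trans hdo⟩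
    have h1 := seg_le hg ho
    unfold pa pb
    rw [norm_sub_rev]
    refine h1.trans (k4.trans ?_)
    exact mul_le_mul_of_nonneg_right hδ1' (by linarith)
  · have h1 : ∑ d ∈ K.out, cr (pa G c o n d) (pb G c o n d) =
        ∑ e ∈ corners c n o, cr (zs G c o n (es c (eopp c (eopp c e))))
          (zs G c o n (eopp c (eopp c e))) :=
      out_sum hg.out hK (fun d => cr (zs G c o n (es c (eopp c d))) (zs G c o n (eopp c d)))
    have h2 : ∑ e ∈ corners c n o, cr (zs G c o n (es c (eopp c (eopp c e))))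
          (zs G c o n (eopp c (eopp c e))) =
        -∑ e ∈ corners c n o, cr (zs G c o n e) (zs G c o n (es c e)) := by
      rw [← sum_neg_distrib]
      refine sum_congr rfl fun e he => ?_
      rw [hop e he]
      unfold cr
      ring
    rw [h1, h2]
    have ha := area_low hg
    have hp := Real.pi_gt_three
    have hp' := Real.pi_lt_d2
    have hX : 0 ≤ 14 * La G c o n + 10 ^ 8 * SD G c o n + 10 ^ 10 * SD G c o n ^ 2 := by positivity
    have h3 : 4 * π * (14 * La G c o n + 10 ^ 8 * SD G c o n + 10 ^ 10 * SD G c o n ^ 2) ≤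
        13 * (14 * La G c o n + 10 ^ 8 * SD G c o n + 10 ^ 10 * SD G c o n ^ 2) :=
      mul_le_mul_of_nonneg_right (by norm_num at hp' ⊢; linarith) hX
    have h4 : 4 * π * (A0 * tot G c o n - 14 * La G c o n - 10 ^ 8 * SD G c o n -
        10 ^ 10 * SD G c o n ^ 2) ≤
        4 * π * (-(∑ e ∈ corners c n o, cr (zs G c o n e) (zs G c o n (es c e))) / 2) :=
      mul_le_mul_of_nonneg_left ha (by linarith)
    have h5 : (1 - δ') * Lp G c o n ^ 2 ≤ (1 - δ1) * Lp G c o n ^ 2 :=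
      mul_le_mul_of_nonneg_right (by linarith) (by positivity)
    rw [hqsq] at k5
    refine h5.trans (k5.trans (le_trans ?_ h4))
    linarith

end Pool.Agent.Helper38.AS
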