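import Pool.Agent.Helper38.AS.Gd

/-!
# AS-03: shifts and payments at the two ends of an outer edge `d` of the class `i`

`e = eopp c d = rot (es c d)` (corner of `o` at the end of `d`): `third e = (es c d).1` (class `i`), `tip e = third (es c d)` (class `enb c (es c d)`), `rot (rot e) = es c d` (`rot3`).
`e' = es c (eopp c d) = rot (rot d)` (at the start of `d`): `tip e' = d.1` (`third_rot`, `tip_rot`), class `i`; `third e' = tip d`, class `enb c p` if `es c p = d` (`tip_es`);
`rot (rot e') = rot d = eopp c p` (`eopp_eq`), `es c (eopp c p) = rot (rot p)` (`es_eopp`), `zl` of it is `zl p`.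
`flc` is antisymmetric.
-/

namespace Pool.Agent.Helper38.AS

open Finset Real Pool.Agent.Helper98.LC
open Pool.Agent.Helper98.LC3 (c0 et0 Face41 HH CoConn GMin)

variable {ι : Type} [DecidableEq ι] {c : V → ι} {o : ι} {n : ℕ}

theorem flc_anti (G : Net) (c : V → ι) (o : ι) (n : ℕ) (A B : ι) :
    flc G c o n A B = - flc G c o n B A := by
  classical
  unfold flc
  by_cases hA : TS G c o n A <;> by_cases hB : TS G c o n B <;> simp [hA, hB]

private theorem oi_corner (h : OutBox c o n) {i : ι} {d : V × Fin 6} (hd : d ∈ Oi c o n i) :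
    IsCorner c d ∧ c d.1 = i ∧ enb c d = o := by
  unfold Oi at hd
  rw [mem_filter, mem_corners h] at hd
  exact ⟨hd.1.1, hd.1.2, hd.2⟩

private theorem end_tip (h : OutBox c o n) {d : V × Fin 6} (hd : IsCorner c d) :
    c (tip (eopp c d)) = enb c (es c d) := by
  rw [eopp_eq h hd, tip_rot, enb_third (emul_spec h hd).2.1]

private theorem end_third (h : OutBox c o n) {d : V × Fin 6} (hd : IsCorner c d) :
    c (third (eopp c d)) = c d.1 := by
  rw [eopp_eq h hd, third_rot]
  exact edart_class c d (emul c d)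

private theorem end_rot (h : OutBox c o n) {d : V × Fin 6} (hd : IsCorner c d) :
    rot (rot (eopp c d)) = es c d := by
  rw [eopp_eq h hd, rot3]

private theorem start_tip (h : OutBox c o n) {d : V × Fin 6} (hd : IsCorner c d) :
    c (tip (es c (eopp c d))) = c d.1 := by
  rw [es_eopp h hd, tip_rot, third_rot]

private theorem start_third (h : OutBox c o n) {d : V × Fin 6} (hd : IsCorner c d) :
    c (third (es c (eopp c d))) = c (tip d) := by
  rw [es_eopp h hd, third_rot]
  rfl

private theorem start_rot (h : OutBox c o n) {d : V × Fin 6} (hd : IsCorner c d) :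
    rot (rot (es c (eopp c d))) = rot d := by
  rw [es_eopp h hd, rot3]

open Classical in
theorem zs_end (G : Net) (h : OutBox c o n) {i : ι} {d : V × Fin 6} (hd : d ∈ Oi c o n i) :
    zs G c o n (eopp c d) = G.zl (es c d) -
      (if TS G c o n (enb c (es c d)) ∧ TS G c o n i then
        (et0 : ℂ) * (G.zl (es c (es c d)) - G.zl (es c d)) else 0) := by
  obtain ⟨h1, h2, h3⟩ := oi_corner h hd
  have hz : G.zl (eopp c d) = G.zl (es c d) := by rw [eopp_eq h h1, zl_rot]
  unfold zs TT
  rw [end_tip h h1, end_third h h1, end_rot h h1, hz, h2]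

open Classical in
theorem zs_start (G : Net) (h : OutBox c o n) {i : ι} {d p : V × Fin 6} (hd : d ∈ Oi c o n i)
    (hp : p ∈ corners c n i) (hpd : es c p = d) :
    zs G c o n (es c (eopp c d)) = G.zl d -
      (if TS G c o n i ∧ TS G c o n (enb c p) then (et0 : ℂ) * (G.zl p - G.zl d) else 0) := by
  obtain ⟨h1, h2, h3⟩ := oi_corner h hd
  have hpc : IsCorner c p := ((mem_corners h i p).1 hp).1
  have hz : G.zl (es c (eopp c d)) = G.zl d := by rw [es_eopp h h1, zl_rot, zl_rot]
  have ht : c (tip d) = enb c p := by rw [← hpd]; exact tip_es h hpc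
  have hr : G.zl (es c (rot d)) = G.zl p := by
    rw [← hpd, ← eopp_eq h hpc, es_eopp h hpc, zl_rot, zl_rot]
  unfold zs TT
  rw [start_tip h h1, start_third h h1, start_rot h h1, hz, h2, ht, hr]

theorem fl_end (G : Net) (h : OutBox c o n) {i : ι} {d : V × Fin 6} (hd : d ∈ Oi c o n i) :
    fl G c o n (eopp c d) = flc G c o n i (enb c (es c d)) := by
  obtain ⟨h1, h2, h3⟩ := oi_corner h hd
  unfold fl
  rw [end_tip h h1, end_third h h1, h2]

theorem fl_start (G : Net) (h : OutBox c o n) {i : ι} {d p : V × Fin 6} (hd : d ∈ Oi c o n i)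
    (hp : p ∈ corners c n i) (hpd : es c p = d) :
    fl G c o n (es c (eopp c d)) = - flc G c o n i (enb c p) := by
  obtain ⟨h1, h2, h3⟩ := oi_corner h hd
  have hpc : IsCorner c p := ((mem_corners h i p).1 hp).1
  have ht : c (tip d) = enb c p := by rw [← hpd]; exact tip_es h hpc
  unfold fl
  rw [start_tip h h1, start_third h h1, h2, ht]
  exact flc_anti G c o n _ _

/-- every corner of `o` is `eopp` of an outer edge -/
theorem outer_corner (h : OutBox c o n) {e : V × Fin 6} (he : e ∈ corners c n o) :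
    eopp c e ∈ Oi c o n (enb c e) ∧ eopp c (eopp c e) = e ∧ enb c e ≠ o := by
  obtain ⟨h1, h2⟩ := (mem_corners h o e).1 he
  obtain ⟨g1, g2, g3, -⟩ := eopp_corner h h1
  refine ⟨?_, eopp_eopp h h1, ?_⟩
  · unfold Oi
    rw [mem_filter, mem_corners h]
    exact ⟨⟨g1, g2⟩, g3.trans h2⟩
  · rw [enb_third h1, ← h2]
    exact h1.2.1

end Pool.Agent.Helper38.AS
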