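import Pool.Agent.Helper38.AS.LocS
import Pool.Agent.Helper38.AS.LocN
import Pool.Agent.Helper38.AS.LocI

/-!
# AS-09: the sum of the deficits

`NC = univ.filter (fun i => i ≠ o ∧ ∃ x, c x = i)` (nonempty classes).
* `dfi_nonneg`: cases: no outer edge (`locI_ne`, `locI_six`); type `S` (`five`; `locS_two` and `sL2`, or `locS_one`); otherwise `locN`.
* `sum_dfi`: as `sum_local` in `Helper98/LC/F/Sum.lean`: empty classes have no corners and `ar = 0`; `sum_inner_zero`, `per2_edges`, `sum_outer` for `elen` (`elen_eopp`), for `lam3` and for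
  `e ↦ fl e - fl (es e)`; `∑_{corners o} (fl e - fl (es e)) = 0` (`es_bij`); `card_outer`; `euler`: `∑ (6 - N - M) ≥ 6`, `ep ≥ 0`.
-/

namespace Pool.Agent.Helper38.AS

open Finset Real Pool.Agent.Helper98.LC
open Pool.Agent.Helper98.LC3 (c0 et0 Face41 HH CoConn GMin)

variable {ι : Type} [DecidableEq ι] {c : V → ι} {o : ι} {n : ℕ}

open Classical in
/-- the nonempty classes other than the outer one -/
noncomputable def NC [Fintype ι] (c : V → ι) (o : ι) : Finset ι :=
  univ.filter fun i => i ≠ o ∧ ∃ x, c x = i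

/-- the total length of the shifted outer polygon -/
noncomputable def La (G : Net) (c : V → ι) (o : ι) (n : ℕ) : ℝ :=
  ∑ e ∈ corners c n o, lam3 G c o n e

/-- the total length of the outer edges -/
noncomputable def Lo (G : Net) (c : V → ι) (o : ι) (n : ℕ) : ℝ := ∑ e ∈ corners c n o, elen G c e

/-- the total deficit -/
noncomputable def SD [Fintype ι] (G : Net) (c : V → ι) (o : ι) (n : ℕ) : ℝ :=
  ∑ i ∈ NC c o, dfi G c o n i

private theorem sm_elen (G : Net) (c : V → ι) (d : V × Fin 6) : 0 ≤ elen G c d := by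
  unfold elen
  exact sum_nonneg fun j _ => w_nonneg G _

theorem dfi_nonneg [Fintype ι] {G : Net} (hg : Good G c o n) {i : ι} (hi : i ≠ o)
    (hx : ∃ x, c x = i) : 0 ≤ dfi G c o n i := by
  rcases Nat.eq_zero_or_pos (Oi c o n i).card with h0 | h0
  · have hO : Oi c o n i = ∅ := card_eq_zero.1 h0
    by_cases h6 : (corners c n i).card = 6
    · exact (locI_six hg hi hO h6).1
    · have h1 := locI_ne hg hi hx hO h6
      have h2 : (0 : ℝ) ≤ 1 / 100000 * ((corners c n i).card : ℝ) := by positivity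
      exact h2.trans h1
  · by_cases hT : TS G c o n i
    · obtain ⟨d, hd⟩ := five hg hT
      by_cases h12 : TS G c o n (enb c (es c d)) ∧ TS G c o n (enb c ((es c)^[4] d))
      · obtain ⟨_, _, h3⟩ := locS_two hg hT hd h12.1 h12.2
        rw [h3]
        have h4 := sL2 hd.face
        have h5 : 0 ≤ 1 / 1000 * (‖((G.zl ((es c)^[2] d) - G.zl (es c d)) +
            (G.zl d - G.zl ((es c)^[4] d))) / 2‖ ^ 2 + (‖(G.zl (es c d) - G.zl d) +
            ((G.zl ((es c)^[2] d) - G.zl (es c d)) +
            (G.zl d - G.zl ((es c)^[4] d))) / 2‖ - √3) ^ 2) := by positivity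
        linarith
      · have h1 := locS_one hg hT hd h12
        linarith
    · have h1 := locN hg hi hx hT h0
      have h2 : 0 ≤ ∑ d ∈ Oi c o n i, elen G c d := sum_nonneg fun d _ => sm_elen G c d
      have h3 : (0 : ℝ) ≤ 1 / 200000 * (((corners c n i).card : ℝ) +
          ∑ d ∈ Oi c o n i, elen G c d) := by positivity
      exact h3.trans h1

private theorem sm_empty (G : Net) {c : V → ι} {n : ℕ} {i : ι} (hx : ¬ ∃ x, c x = i) :
    ar G c n i = 0 ∧ corners c n i = ∅ := by
  constructor
  · unfold ar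
    have h1 : (box n).filter (fun x => c x = i) = ∅ := by
      apply filter_eq_empty_iff.mpr
      intro x _ hx'
      exact hx ⟨x, hx'⟩
    rw [h1, sum_empty, zero_div]
  · apply filter_eq_empty_iff.mpr
    intro d _ hd
    exact hx ⟨d.1, hd.2⟩

theorem sum_dfi [Fintype ι] {G : Net} (hg : Good G c o n) :
    6 * ∑ i ∈ univ.filter (fun i => i ≠ o), min 1 (ar G c n i) + 2 * c0 * La G c o n +
      SD G c o n ≤ per2 G c n := by
  classical
  have hloc : ∀ i ∈ univ.filter (fun i => i ≠ o),
      6 * min 1 (ar G c n i) + (if ∃ x, c x = i then dfi G c o n i else 0) +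
        ep * ((if ∃ x, c x = i then (6 - ((corners c n i).card : ℝ)) else 0) -
          ((Oi c o n i).card : ℝ)) + 2 * c0 * ∑ d ∈ Oi c o n i, lam3 G c o n (eopp c d) =
      ∑ d ∈ corners c n i, elen G c d + ∑ d ∈ Oi c o n i, elen G c d +
        3 * ∑ d ∈ corners c n i \ Oi c o n i, ebul G c d -
        ∑ d ∈ Oi c o n i, (fl G c o n (eopp c d) - fl G c o n (es c (eopp c d))) := by
    intro i hi
    by_cases hxi : ∃ x, c x = i
    · rw [if_pos hxi, if_pos hxi]
      unfold dfi
      ring
    · obtain ⟨h1, h2⟩ := sm_empty G (n := n) hxi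
      rw [if_neg hxi, if_neg hxi, h1]
      have h3 : Oi c o n i = ∅ := by
        unfold Oi
        rw [h2, filter_empty]
      rw [h2, h3]
      simp
  have hsum := sum_congr rfl hloc
  simp only [sum_add_distrib, ← mul_sum, sum_sub_distrib] at hsum
  have e1 := sum_inner_zero G hg.out
  have e2 := sum_outer hg.out (lam3 G c o n)
  have e3 : ∑ i ∈ univ.filter (fun i => i ≠ o), ∑ d ∈ Oi c o n i, elen G c d =
      ∑ d ∈ corners c n o, elen G c d := by
    rw [← sum_outer hg.out (elen G c)]
    refine sum_congr rfl fun i _ => sum_congr rfl fun d hd => ?_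
    rw [elen_eopp G hg.out ((mem_corners hg.out i d).1 (mem_filter.1 hd).1).1]
  have e4 := per2_edges G hg.out hg.loop
  have e5 : ∑ i ∈ univ.filter (fun i => i ≠ o), ((Oi c o n i).card : ℝ) =
      ((corners c n o).card : ℝ) := by
    rw [← Nat.cast_sum, ← card_outer hg.out]
    rfl
  have e6 : 6 + ((corners c n o).card : ℝ) ≤ ∑ i ∈ univ.filter (fun i => i ≠ o),
      (if ∃ x, c x = i then (6 - ((corners c n i).card : ℝ)) else 0) := by
    have he := euler hg.out hg.conn hg.ne
    rw [← sum_filter, filter_filter]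
    have he' : (((6 + ((corners c n o).card : ℤ)) : ℤ) : ℝ) ≤
        ((∑ i ∈ univ.filter (fun i => i ≠ o ∧ ∃ x, c x = i),
          (6 - ((corners c n i).card : ℤ)) : ℤ) : ℝ) := by exact_mod_cast he
    push_cast at he'
    exact he'
  have e7 : ∑ i ∈ univ.filter (fun i => i ≠ o), (if ∃ x, c x = i then dfi G c o n i else 0) =
      SD G c o n := by
    rw [← sum_filter, filter_filter]
    rfl
  have e8 : ∑ i ∈ univ.filter (fun i => i ≠ o), ∑ d ∈ Oi c o n i, fl G c o n (eopp c d) =
      ∑ d ∈ corners c n o, fl G c o n d := sum_outer hg.out (fl G c o n)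
  have e9 : ∑ i ∈ univ.filter (fun i => i ≠ o), ∑ d ∈ Oi c o n i, fl G c o n (es c (eopp c d)) =
      ∑ d ∈ corners c n o, fl G c o n (es c d) := sum_outer hg.out (fun e => fl G c o n (es c e))
  have e10 : ∑ d ∈ corners c n o, fl G c o n (es c d) = ∑ d ∈ corners c n o, fl G c o n d := by
    obtain ⟨hm, hinj, hsurj⟩ := es_bij hg.out o
    exact sum_bij (fun d _ => es c d) (fun d hd => hm hd)
      (fun a ha b hb hab => hinj ha hb hab)
      (fun b hb => by
        obtain ⟨a, ha, hab⟩ := hsurj hb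
        exact ⟨a, ha, hab⟩)
      (fun d _ => rfl)
  have e1' : ∑ i ∈ univ.filter (fun i => i ≠ o),
      ∑ d ∈ corners c n i \ Oi c o n i, ebul G c d = 0 := e1
  have e2' : ∑ i ∈ univ.filter (fun i => i ≠ o), ∑ d ∈ Oi c o n i, lam3 G c o n (eopp c d) =
      La G c o n := e2
  rw [e1', e2', e3, e5, e7, e8, e9, e10, ← e4] at hsum
  have hep : (0 : ℝ) ≤ ep := by unfold ep; norm_num
  have e11 : 0 ≤ ep * (∑ i ∈ univ.filter (fun i => i ≠ o),
      (if ∃ x, c x = i then (6 - ((corners c n i).card : ℝ)) else 0) -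
        ((corners c n o).card : ℝ)) := mul_nonneg hep (by linarith)
  linarith

end Pool.Agent.Helper38.AS
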